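import Mathlib
import Pool.Graph.R_seed8.Helper256.KM.Mertens

/-! # Sums of `s ^ ω(m) / φ(m)` and `s ^ ω(m) m / φ(m)` -/

set_option autoImplicit false

namespace Pool.Agent.KS6_33.EX

open Finset

/-- `s ^ ω(m) / φ(m)` -/
noncomputable def Ff (s : ℝ) (m : ℕ) : ℝ := s ^ m.primeFactors.card / (Nat.totient m : ℝ)

lemma Ff_nonneg (s : ℝ) (hs : 0 ≤ s) (m : ℕ) : 0 ≤ Ff s m := by
  unfold Ff; positivity

lemma Ff_one (s : ℝ) : Ff s 1 = 1 := by
  unfold Ff; simp

lemma Ff_mul (s : ℝ) {m n : ℕ} (h : Nat.Coprime m n) : Ff s (m * n) = Ff s m * Ff s n := by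
  unfold Ff
  rw [h.primeFactors_mul, card_union_of_disjoint h.disjoint_primeFactors, pow_add,
    Nat.totient_mul h]
  push_cast
  rw [div_mul_div_comm]

lemma Ff_pow (s : ℝ) (p : ℕ) (hp : p.Prime) (n : ℕ) :
    Ff s (p ^ (n + 1)) = s / ((p : ℝ) - 1) * (1 / (p : ℝ)) ^ n := by
  unfold Ff
  rw [Nat.primeFactors_prime_pow (by omega) hp, card_singleton, pow_one,
    Nat.totient_prime_pow_succ hp]
  have hp1 : (1 : ℝ) < p := by exact_mod_cast hp.one_lt
  push_cast [Nat.cast_sub hp.one_le]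
  rw [one_div, inv_pow]
  field_simp

lemma Ff_hasSum (s : ℝ) (p : ℕ) (hp : p.Prime) :
    HasSum (fun n : ℕ => Ff s (p ^ n)) (1 + s * ((p : ℝ) / ((p : ℝ) - 1) ^ 2)) := by
  have hp1 : (1 : ℝ) < p := by exact_mod_cast hp.one_lt
  have h1 : HasSum (fun n : ℕ => Ff s (p ^ (n + 1))) (s * ((p : ℝ) / ((p : ℝ) - 1) ^ 2)) := by
    have h2 := (hasSum_geometric_of_lt_one (r := 1 / (p : ℝ)) (by positivity)
      (by rw [div_lt_one (by linarith)]; exact hp1)).mul_left (s / ((p : ℝ) - 1))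
    have e1 : s / ((p : ℝ) - 1) * (1 - 1 / (p : ℝ))⁻¹ = s * ((p : ℝ) / ((p : ℝ) - 1) ^ 2) := by
      have h3 : (p : ℝ) - 1 ≠ 0 := by linarith
      have h4 : (1 - 1 / (p : ℝ)) = ((p : ℝ) - 1) / p := by field_simp
      rw [h4, inv_div]
      field_simp
    rw [e1] at h2
    refine h2.congr_fun ?_ 
    intro n
    exact Ff_pow s p hp n
  have h2 := (hasSum_nat_add_iff (f := fun n : ℕ => Ff s (p ^ n)) 1).1 h1
  simpa [Ff_one, add_comm] using h2

lemma Ff_sum_le_prod (s : ℝ) (hs : 0 ≤ s) (M : ℕ) :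
    ∑ m ∈ Icc 1 M, Ff s m ≤ ∏ p ∈ (M + 1).primesBelow, (1 + s * ((p : ℝ) / ((p : ℝ) - 1) ^ 2)) := by
  have hsum : ∀ {p : ℕ}, p.Prime → Summable (fun n : ℕ => ‖Ff s (p ^ n)‖) := by
    intro p hp
    have := (Ff_hasSum s p hp).summable
    refine this.congr fun n => ?_
    rw [Real.norm_of_nonneg (Ff_nonneg s hs _)]
  have h1 := EulerProduct.summable_and_hasSum_smoothNumbers_prod_primesBelow_tsum (f := Ff s) (Ff_one s)
    (fun {m n} h => Ff_mul s h) hsum (M + 1)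
  have h2 : ∏ p ∈ (M + 1).primesBelow, ∑' n : ℕ, Ff s (p ^ n) =
      ∏ p ∈ (M + 1).primesBelow, (1 + s * ((p : ℝ) / ((p : ℝ) - 1) ^ 2)) := by
    apply prod_congr rfl
    intro p hp
    rw [Nat.mem_primesBelow] at hp
    exact (Ff_hasSum s p hp.2).tsum_eq
  rw [h2] at h1
  have hmem : ∀ m ∈ Icc 1 M, m ∈ (M + 1).smoothNumbers := by
    intro m hm
    rw [mem_Icc] at hm
    rw [Nat.mem_smoothNumbers_iff_forall_le]
    refine ⟨by omega, fun p hp _ _ => by omega⟩
  -- the finite sum over a subset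
  have h3 : ∑ m ∈ Icc 1 M, Ff s m = ∑ m ∈ (Icc 1 M).attach, Ff s (⟨m.1, hmem m.1 m.2⟩ : (M + 1).smoothNumbers) := by
    rw [← sum_attach]
  rw [h3]
  have h4 : ∑ m ∈ (Icc 1 M).attach, Ff s (⟨m.1, hmem m.1 m.2⟩ : (M + 1).smoothNumbers) =
      ∑ m ∈ (Icc 1 M).attach.image (fun m => (⟨m.1, hmem m.1 m.2⟩ : (M + 1).smoothNumbers)), Ff s m := by
    rw [sum_image]
    intro a _ b _ hab
    have : a.1 = b.1 := by simpa using hab
    exact Subtype.ext this
  rw [h4]
  exact sum_le_hasSum _ (fun m _ => Ff_nonneg s hs _) h1.2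

lemma prime_term (p : ℕ) (hp : p.Prime) : (p : ℝ) / ((p : ℝ) - 1) ^ 2 ≤ 1 / p + 8 / (p : ℝ) ^ 2 := by
  have hp2 : (2 : ℝ) ≤ p := by exact_mod_cast hp.two_le
  have h1 : (0 : ℝ) < (p : ℝ) - 1 := by linarith
  have h0 : (0 : ℝ) < p := by linarith
  rw [div_add_div _ _ (by positivity) (by positivity), div_le_div_iff₀ (by positivity) (by positivity)]
  have h2 : 0 ≤ (p : ℝ) * ((p : ℝ) - 2) := mul_nonneg h0.le (by linarith)
  nlinarith [mul_nonneg (mul_nonneg h0.le h0.le) (by linarith : (0 : ℝ) ≤ (p : ℝ) - 2),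
    mul_nonneg h0.le h0.le, mul_pos h0 h1, sq_nonneg ((p : ℝ) - 2)]

/-- `∑ s ^ ω(m) / φ(m) ≤ C (log M) ^ s` -/
theorem Ff_sum (s : ℝ) (hs : 0 ≤ s) : ∃ C : ℝ, 0 < C ∧ ∀ M : ℕ, 3 ≤ M →
    ∑ m ∈ Icc 1 M, Ff s m ≤ C * (Real.log M) ^ s := by
  obtain ⟨C0, hC0⟩ := Pool.Agent.Helper256.KM.mertens_inv
  refine ⟨Real.exp (s * (C0 + 16)), Real.exp_pos _, fun M hM => ?_⟩
  refine (Ff_sum_le_prod s hs M).trans ?_
  have hMR : (3 : ℝ) ≤ M := by exact_mod_cast hM
  have hlog : 0 < Real.log M := Real.log_pos (by linarith)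
  have h1 : ∏ p ∈ (M + 1).primesBelow, (1 + s * ((p : ℝ) / ((p : ℝ) - 1) ^ 2)) ≤
      ∏ p ∈ (M + 1).primesBelow, Real.exp (s * (1 / p + 8 / (p : ℝ) ^ 2)) := by
    apply prod_le_prod
    · intro p _
      positivity
    · intro p hp
      rw [Nat.mem_primesBelow] at hp
      have h2 := mul_le_mul_of_nonneg_left (prime_term p hp.2) hs
      have h3 := Real.add_one_le_exp (s * (1 / p + 8 / (p : ℝ) ^ 2))
      linarith
  refine h1.trans ?_
  rw [← Real.exp_sum, ← mul_sum, Real.rpow_def_of_pos hlog, ← Real.exp_add]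
  apply Real.exp_le_exp.2
  have h2 : ∑ p ∈ (M + 1).primesBelow, (1 / (p : ℝ) + 8 / (p : ℝ) ^ 2) ≤
      C0 + Real.log (Real.log M) + 16 := by
    rw [sum_add_distrib]
    have h3 : (M + 1).primesBelow = (Icc 1 M).filter Nat.Prime := by
      ext p
      rw [Nat.mem_primesBelow, mem_filter, mem_Icc]
      constructor
      · rintro ⟨h4, h5⟩
        exact ⟨⟨h5.one_le, by omega⟩, h5⟩
      · rintro ⟨h4, h5⟩
        exact ⟨by omega, h5⟩
    have h4 := (abs_le.1 (hC0 M hM)).2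
    have h5 : ∑ p ∈ (M + 1).primesBelow, (8 / (p : ℝ) ^ 2) ≤ 16 := by
      have h6 : ∑ p ∈ (M + 1).primesBelow, (8 / (p : ℝ) ^ 2) ≤ ∑ k ∈ Icc 1 M, (8 / (k : ℝ) ^ 2) := by
        rw [h3]
        apply sum_le_sum_of_subset_of_nonneg (filter_subset _ _)
        intro i _ _
        positivity
      have h7 : ∑ k ∈ Icc 1 M, (1 / (k : ℝ) ^ 2) ≤ 2 := by
        have h8 : ∀ n : ℕ, 1 ≤ n → ∑ k ∈ Icc 1 n, (1 / (k : ℝ) ^ 2) ≤ 2 - 1 / (n : ℝ) := by
          intro n hn
          induction n, hn using Nat.le_induction with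
          | base => norm_num
          | succ n hn ih =>
            rw [sum_Icc_succ_top (by omega)]
            have hn0 : (0 : ℝ) < n := by exact_mod_cast hn
            have h9 : 1 / (((n + 1 : ℕ) : ℝ)) ^ 2 ≤ 1 / (n : ℝ) - 1 / ((n + 1 : ℕ) : ℝ) := by
              push_cast
              rw [div_sub_div _ _ (by positivity) (by positivity), div_le_div_iff₀ (by positivity) (by positivity)]
              nlinarith
            linarith
        have h9 := h8 M (by omega)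
        have : (0 : ℝ) ≤ 1 / (M : ℝ) := by positivity
        linarith
      have h8 : ∑ k ∈ Icc 1 M, (8 / (k : ℝ) ^ 2) = 8 * ∑ k ∈ Icc 1 M, (1 / (k : ℝ) ^ 2) := by
        rw [mul_sum]
        apply sum_congr rfl
        intro k _
        ring
      linarith
    rw [h3] at h5 ⊢
    linarith
  calc s * ∑ p ∈ (M + 1).primesBelow, (1 / (p : ℝ) + 8 / (p : ℝ) ^ 2) ≤
      s * (C0 + Real.log (Real.log M) + 16) := mul_le_mul_of_nonneg_left h2 hs
    _ = _ := by ring

/-- `s ^ ω(m) m / φ(m)` -/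
noncomputable def Gf (s : ℝ) (m : ℕ) : ℝ := (m : ℝ) * Ff s m

lemma Gf_nonneg (s : ℝ) (hs : 0 ≤ s) (m : ℕ) : 0 ≤ Gf s m :=
  mul_nonneg (Nat.cast_nonneg _) (Ff_nonneg s hs m)

/-- `m / φ(m)` as a product -/
lemma ratio_mul_le (d k : ℕ) (hd : IsPrimePow d) (hk : 1 ≤ k) :
    ((d * k : ℕ) : ℝ) / (Nat.totient (d * k) : ℝ) ≤ 2 * ((k : ℝ) / (Nat.totient k : ℝ)) := by
  obtain ⟨p, i, hp, hi, rfl⟩ := hd
  have hp' : p.Prime := hp.nat_prime
  have hp1 : (2 : ℝ) ≤ p := by exact_mod_cast hp'.two_le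
  have hφk : (0 : ℝ) < Nat.totient k := by exact_mod_cast Nat.totient_pos.2 (by omega)
  have hφ : (Nat.totient k : ℝ) * (((p ^ i : ℕ) : ℝ) / 2) ≤ (Nat.totient (p ^ i * k) : ℝ) := by
    by_cases hpk : p ∣ k
    · -- totient (p^i k) = p^i totient k
      have h1 : Nat.totient (p ^ i * k) = p ^ i * Nat.totient k := by
        clear hφk
        have h2 : ∀ j : ℕ, Nat.totient (p ^ j * k) = p ^ j * Nat.totient k := by
          intro j
          induction j with
          | zero => simp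
          | succ j ih =>
            rw [pow_succ', mul_assoc, Nat.totient_mul_of_prime_of_dvd hp' (hpk.mul_left _), ih]
            ring
        exact h2 i
      rw [h1]
      push_cast
      have : (0 : ℝ) ≤ (p : ℝ) ^ i * Nat.totient k := by positivity
      nlinarith
    · have hcop : Nat.Coprime (p ^ i) k := Nat.Coprime.pow_left i ((Nat.Prime.coprime_iff_not_dvd hp').2 hpk)
      rw [Nat.totient_mul hcop]
      obtain ⟨j, rfl⟩ : ∃ j, i = j + 1 := ⟨i - 1, by omega⟩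
      rw [Nat.totient_prime_pow_succ hp']
      push_cast [Nat.cast_sub hp'.one_le]
      have h3 : (p : ℝ) ^ (j + 1) / 2 ≤ (p : ℝ) ^ j * ((p : ℝ) - 1) := by
        rw [pow_succ]
        have : (0 : ℝ) ≤ (p : ℝ) ^ j := by positivity
        nlinarith
      calc (Nat.totient k : ℝ) * ((p : ℝ) ^ (j + 1) / 2) ≤ (Nat.totient k : ℝ) * ((p : ℝ) ^ j * ((p : ℝ) - 1)) :=
            mul_le_mul_of_nonneg_left h3 hφk.le
        _ = _ := by ring
  have hpi : (0 : ℝ) < ((p ^ i : ℕ) : ℝ) := by exact_mod_cast pow_pos hp'.pos i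
  have hφ0 : (0 : ℝ) < (Nat.totient (p ^ i * k) : ℝ) := lt_of_lt_of_le (by positivity) hφ
  rw [div_le_iff₀ hφ0]
  have hk0 : (0 : ℝ) < k := by exact_mod_cast hk
  calc ((p ^ i * k : ℕ) : ℝ) = 2 * ((k : ℝ) / (Nat.totient k : ℝ)) *
        ((Nat.totient k : ℝ) * (((p ^ i : ℕ) : ℝ) / 2)) := by
        push_cast
        field_simp
    _ ≤ _ := mul_le_mul_of_nonneg_left hφ (by positivity)

lemma Gf_mul_le (s : ℝ) (hs0 : 0 < s) (hs1 : s ≤ 1) (d k : ℕ) (hd : IsPrimePow d) (hk : 1 ≤ k) :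
    Gf s (d * k) ≤ 2 * Gf s k := by
  have h1 := ratio_mul_le d k hd hk
  have hd0 : d ≠ 0 := hd.ne_zero
  have h2 : s ^ (d * k).primeFactors.card ≤ s ^ k.primeFactors.card := by
    apply pow_le_pow_of_le_one hs0.le hs1
    apply card_le_card
    exact Nat.primeFactors_mono (Dvd.intro_left d rfl) (mul_ne_zero hd0 (by omega))
  have e : ∀ m : ℕ, Gf s m = s ^ m.primeFactors.card * ((m : ℝ) / (Nat.totient m : ℝ)) := by
    intro m
    unfold Gf Ff
    ring
  rw [e, e]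
  calc s ^ (d * k).primeFactors.card * (((d * k : ℕ) : ℝ) / (Nat.totient (d * k) : ℝ)) ≤
      s ^ k.primeFactors.card * (2 * ((k : ℝ) / (Nat.totient k : ℝ))) := by
        apply mul_le_mul h2 h1 (by positivity) (by positivity)
    _ = _ := by ring

open ArithmeticFunction in
/-- `∑ s ^ ω(m) m / φ(m) ≤ C M (log M) ^ (s - 1)` -/
theorem Gf_sum (s : ℝ) (hs0 : 0 < s) (hs1 : s ≤ 1) : ∃ C : ℝ, 0 < C ∧ ∀ M : ℕ, 3 ≤ M →
    ∑ m ∈ Icc 1 M, Gf s m ≤ C * M * (Real.log M) ^ (s - 1) := by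
  obtain ⟨C, hC, hF⟩ := Ff_sum s hs0.le
  refine ⟨(2 * (Real.log 4 + 4) + 1) * C, by positivity, fun M hM => ?_⟩
  have hMR : (3 : ℝ) ≤ M := by exact_mod_cast hM
  have hlog : 0 < Real.log M := Real.log_pos (by linarith)
  have hM0 : (0 : ℝ) < M := by linarith
  have h1 : ∑ m ∈ Icc 1 M, Gf s m * Real.log m ≤ 2 * (Real.log 4 + 4) * M * ∑ m ∈ Icc 1 M, Ff s m := by
    have e1 : ∀ m ∈ Icc 1 M, Gf s m * Real.log m = ∑ d ∈ Icc 1 M, if d ∣ m then Gf s m * vonMangoldt d else 0 := by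
      intro m hm
      rw [mem_Icc] at hm
      rw [← vonMangoldt_sum, mul_sum, ← sum_filter]
      apply sum_congr _ fun _ _ => rfl
      ext d
      rw [Nat.mem_divisors, mem_filter, mem_Icc]
      constructor
      · rintro ⟨h2, h3⟩
        exact ⟨⟨Nat.pos_of_dvd_of_pos h2 (by omega), (Nat.le_of_dvd (by omega) h2).trans hm.2⟩, h2⟩
      · rintro ⟨h2, h3⟩
        exact ⟨h3, by omega⟩
    rw [sum_congr rfl e1, sum_comm]
    have e2 : ∀ d ∈ Icc 1 M, ∑ m ∈ Icc 1 M, (if d ∣ m then Gf s m * vonMangoldt d else 0) ≤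
        ∑ k ∈ Icc 1 M, if d * k ≤ M then 2 * Gf s k * vonMangoldt d else 0 := by
      intro d hd
      rw [mem_Icc] at hd
      rw [← sum_filter, ← sum_filter]
      have e3 : (Icc 1 M).filter (fun m => d ∣ m) = ((Icc 1 M).filter (fun k => d * k ≤ M)).image (fun k => d * k) := by
        ext m
        rw [mem_filter, mem_image, mem_Icc]
        constructor
        · rintro ⟨h2, k, rfl⟩
          refine ⟨k, ?_, rfl⟩
          rw [mem_filter, mem_Icc]
          have h3 : 1 ≤ k := by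
            rcases Nat.eq_zero_or_pos k with h | h
            · rw [h, mul_zero] at h2; omega
            · exact h
          exact ⟨⟨h3, (Nat.le_mul_of_pos_left k hd.1).trans h2.2⟩, h2.2⟩
        · rintro ⟨k, hk, rfl⟩
          rw [mem_filter, mem_Icc] at hk
          exact ⟨⟨Nat.mul_pos hd.1 hk.1.1, hk.2⟩, dvd_mul_right _ _⟩
      rw [e3, sum_image (by
        intro a _ b _ hab
        exact Nat.eq_of_mul_eq_mul_left hd.1 hab)]
      apply sum_le_sum
      intro k hk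
      rw [mem_filter, mem_Icc] at hk
      by_cases hpp : IsPrimePow d
      · exact mul_le_mul_of_nonneg_right (Gf_mul_le s hs0 hs1 d k hpp hk.1.1) vonMangoldt_nonneg
      · rw [vonMangoldt_eq_zero_iff.2 hpp, mul_zero, mul_zero]
    refine (sum_le_sum e2).trans ?_
    rw [sum_comm, mul_sum]
    apply sum_le_sum
    intro k hk
    rw [mem_Icc] at hk
    have hk0 : (0 : ℝ) < k := by exact_mod_cast hk.1
    have e4 : ∑ d ∈ Icc 1 M, (if d * k ≤ M then 2 * Gf s k * vonMangoldt d else 0) ≤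
        2 * Gf s k * Chebyshev.psi ((M : ℝ) / k) := by
      rw [← sum_filter, ← mul_sum, Chebyshev.psi_eq_sum_Icc]
      apply mul_le_mul_of_nonneg_left _ (mul_nonneg zero_le_two (Gf_nonneg s hs0.le k))
      apply sum_le_sum_of_subset_of_nonneg
      · intro d hd
        rw [mem_filter, mem_Icc] at hd
        rw [mem_Icc]
        refine ⟨Nat.zero_le _, Nat.le_floor ?_⟩
        rw [le_div_iff₀ hk0]
        exact_mod_cast hd.2
      · intro i _ _
        exact vonMangoldt_nonneg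
    refine e4.trans ?_
    have e5 := Chebyshev.psi_le_const_mul_self (x := (M : ℝ) / k) (by positivity)
    calc 2 * Gf s k * Chebyshev.psi ((M : ℝ) / k) ≤ 2 * Gf s k * ((Real.log 4 + 4) * ((M : ℝ) / k)) :=
          mul_le_mul_of_nonneg_left e5 (mul_nonneg zero_le_two (Gf_nonneg s hs0.le k))
      _ = 2 * (Real.log 4 + 4) * M * Ff s k := by
          unfold Gf
          field_simp
  have h2 : ∑ m ∈ Icc 1 M, Gf s m * (Real.log M - Real.log m) ≤ M * ∑ m ∈ Icc 1 M, Ff s m := by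
    rw [mul_sum]
    apply sum_le_sum
    intro m hm
    rw [mem_Icc] at hm
    have hm0 : (0 : ℝ) < m := by exact_mod_cast hm.1
    have h3 : Real.log M - Real.log m ≤ (M : ℝ) / m := by
      rw [← Real.log_div hM0.ne' hm0.ne']
      have := Real.log_le_sub_one_of_pos (x := (M : ℝ) / m) (by positivity)
      linarith
    calc Gf s m * (Real.log M - Real.log m) ≤ Gf s m * ((M : ℝ) / m) :=
          mul_le_mul_of_nonneg_left h3 (Gf_nonneg s hs0.le m)
      _ = M * Ff s m := by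
          unfold Gf
          field_simp
  have h3 : Real.log M * ∑ m ∈ Icc 1 M, Gf s m ≤ (2 * (Real.log 4 + 4) + 1) * M * ∑ m ∈ Icc 1 M, Ff s m := by
    have e : Real.log M * ∑ m ∈ Icc 1 M, Gf s m =
        ∑ m ∈ Icc 1 M, Gf s m * Real.log m + ∑ m ∈ Icc 1 M, Gf s m * (Real.log M - Real.log m) := by
      rw [← sum_add_distrib, mul_sum]
      apply sum_congr rfl
      intro m _
      ring
    rw [e]
    calc _ ≤ 2 * (Real.log 4 + 4) * M * ∑ m ∈ Icc 1 M, Ff s m + M * ∑ m ∈ Icc 1 M, Ff s m := add_le_add h1 h2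
      _ = _ := by ring
  have h4 := hF M hM
  have hl4 : 0 ≤ Real.log 4 := Real.log_nonneg (by norm_num)
  have h5 : Real.log M * ∑ m ∈ Icc 1 M, Gf s m ≤ Real.log M * ((2 * (Real.log 4 + 4) + 1) * C * M * (Real.log M) ^ (s - 1)) := by
    calc _ ≤ (2 * (Real.log 4 + 4) + 1) * M * ∑ m ∈ Icc 1 M, Ff s m := h3
      _ ≤ (2 * (Real.log 4 + 4) + 1) * M * (C * (Real.log M) ^ s) :=
          mul_le_mul_of_nonneg_left h4 (by positivity)
      _ = _ := by
          have : (Real.log M) ^ s = Real.log M * (Real.log M) ^ (s - 1) := by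
            rw [Real.rpow_sub_one hlog.ne']
            field_simp
          rw [this]
          ring
  exact le_of_mul_le_mul_left h5 hlog

end Pool.Agent.KS6_33.EX
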