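import Pool.Agent.KS6_33.EX.EA
import Pool.Graph.R_seed8.Helper602.MK.J3
import Pool.Graph.R_seed8.H398R2.BV1

/-! # Divisors of shifted primes -/

set_option autoImplicit false

namespace Pool.Agent.KS6_33.EX

open Finset

/-- the primes `p ≤ x`, `p ≡ 1 mod m` -/
def PM (x m : ℕ) : Finset ℕ := (range (x + 1)).filter (fun p => p.Prime ∧ m ∣ p - 1)

theorem PM_card : ∃ C : ℝ, 0 < C ∧ ∀ x m : ℕ, 2 ≤ x → 1 ≤ m → m ^ 5 ≤ x ^ 3 →
    ((PM x m).card : ℝ) ≤ C * x / ((Nat.totient m : ℝ) * Real.log x) := by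
  obtain ⟨C, hC, hbt⟩ := Pool.Agent.Helper602.MK.BTLib.brun_titchmarsh
  refine ⟨5 * C, by linarith, fun x m hx hm hmx => ?_⟩
  have hxR : (2 : ℝ) ≤ x := by exact_mod_cast hx
  have hx0 : (0 : ℝ) < x := by linarith
  have hm0 : (0 : ℝ) < m := by exact_mod_cast hm
  have hlogx : 0 < Real.log x := Real.log_pos (by linarith)
  have hmx' : m ≤ x := by
    by_contra h
    push Not at h
    have h1 : x ^ 3 < m ^ 3 := Nat.pow_lt_pow_left h (by norm_num)
    have h2 : m ^ 3 ≤ m ^ 5 := Nat.pow_le_pow_right hm (by norm_num)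
    omega
  have hdiv : 1 ≤ x / m := (Nat.one_le_div_iff hm).2 hmx'
  have h1 := hbt 1 m (x / m + 1) hm (by omega)
  have h2 : (PM x m).card ≤ ((Finset.range (x / m + 1)).filter (fun k => (1 + k * m).Prime)).card := by
    apply card_le_card_of_injOn (fun p => (p - 1) / m)
    · intro p hp
      rw [mem_coe, PM, mem_filter, mem_range] at hp
      rw [mem_coe, mem_filter, mem_range]
      obtain ⟨h3, h4, h5⟩ := hp
      have h6 : (p - 1) / m * m = p - 1 := Nat.div_mul_cancel h5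
      refine ⟨?_, ?_⟩
      · have : (p - 1) / m ≤ x / m := Nat.div_le_div_right (by omega)
        exact Nat.lt_succ_of_le this
      · rw [h6]
        have : 1 + (p - 1) = p := by have := h4.one_le; omega
        rw [this]
        exact h4
    · intro p hp q hq hpq
      rw [mem_coe, PM, mem_filter, mem_range] at hp hq
      simp only at hpq
      have h6 : (p - 1) / m * m = p - 1 := Nat.div_mul_cancel hp.2.2
      have h7 : (q - 1) / m * m = q - 1 := Nat.div_mul_cancel hq.2.2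
      rw [hpq, h7] at h6
      have := hp.2.1.one_le
      have := hq.2.1.one_le
      omega
  have h2' : ((PM x m).card : ℝ) ≤
      (((Finset.range (x / m + 1)).filter (fun k => (1 + k * m).Prime)).card : ℝ) := by
    exact_mod_cast h2
  refine h2'.trans (h1.trans ?_)
  have hN1 : ((x / m + 1 : ℕ) : ℝ) ≤ 2 * (x / m) := by
    have h3 : ((x / m : ℕ) : ℝ) ≤ (x : ℝ) / m := Nat.cast_div_le
    have h4 : (1 : ℝ) ≤ (x : ℝ) / m := by
      rw [le_div_iff₀ hm0, one_mul]
      exact_mod_cast hmx'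
    push_cast
    linarith
  have hN2 : (x : ℝ) / m ≤ ((x / m + 1 : ℕ) : ℝ) := by
    rw [div_le_iff₀ hm0]
    have h3 : x < (x / m + 1) * m := by
      have h4 := Nat.div_add_mod x m
      have h5 := Nat.mod_lt x (by omega : 0 < m)
      nlinarith
    exact_mod_cast h3.le
  have hlog : 2 / 5 * Real.log x ≤ Real.log ((x / m + 1 : ℕ) : ℝ) := by
    have h3 : 5 * Real.log m ≤ 3 * Real.log x := by
      have h4 : Real.log ((m : ℝ) ^ 5) ≤ Real.log ((x : ℝ) ^ 3) := by
        apply Real.log_le_log (by positivity)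
        exact_mod_cast hmx
      rw [Real.log_pow, Real.log_pow] at h4
      exact_mod_cast h4
    have h5 : Real.log ((x : ℝ) / m) ≤ Real.log ((x / m + 1 : ℕ) : ℝ) :=
      Real.log_le_log (by positivity) hN2
    rw [Real.log_div hx0.ne' hm0.ne'] at h5
    linarith
  have hφ : (0 : ℝ) < Nat.totient m := by exact_mod_cast Nat.totient_pos.2 (by omega)
  have hC0 : 0 < C := by linarith
  calc C * ((m : ℝ) / (Nat.totient m : ℝ)) * ((x / m + 1 : ℕ) : ℝ) / Real.log ((x / m + 1 : ℕ) : ℝ) ≤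
      C * ((m : ℝ) / (Nat.totient m : ℝ)) * (2 * (x / m)) / (2 / 5 * Real.log x) := by
        apply div_le_div₀ (by positivity) _ (by positivity) hlog
        exact mul_le_mul_of_nonneg_left hN1 (by positivity)
    _ = _ := by
        field_simp

lemma divisors_half (n : ℕ) (_hn : n ≠ 0) :
    n.divisors.card ≤ 2 * ((Icc 1 (Nat.sqrt n)).filter (fun d => d ∣ n)).card := by
  classical
  set A := (Icc 1 (Nat.sqrt n)).filter (fun d => d ∣ n) with hA
  have h1 : n.divisors ⊆ A ∪ A.image (fun d => n / d) := by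
    intro d hd
    rw [Nat.mem_divisors] at hd
    have hd0 : 0 < d := Nat.pos_of_dvd_of_pos hd.1 (by omega)
    obtain ⟨e, he⟩ := hd.1
    have he0 : 0 < e := by
      rcases Nat.eq_zero_or_pos e with h | h
      · rw [h, mul_zero] at he; omega
      · exact h
    rw [mem_union, mem_image]
    by_cases h : d ≤ Nat.sqrt n
    · left
      rw [hA, mem_filter, mem_Icc]
      exact ⟨⟨hd0, h⟩, hd.1⟩
    · right
      refine ⟨e, ?_, ?_⟩
      · rw [hA, mem_filter, mem_Icc]
        refine ⟨⟨he0, ?_⟩, ⟨d, by rw [he]; ring⟩⟩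
        by_contra h2
        push Not at h h2
        have h3 : n < (Nat.sqrt n + 1) * (Nat.sqrt n + 1) := Nat.lt_succ_sqrt n
        have h4 : (Nat.sqrt n + 1) * (Nat.sqrt n + 1) ≤ d * e := Nat.mul_le_mul h h2
        omega
      · rw [he]
        exact Nat.mul_div_cancel _ he0
  have h2 := card_le_card h1
  have h3 := card_union_le A (A.image (fun d => n / d))
  have h4 : (A.image (fun d => n / d)).card ≤ A.card := card_image_le
  omega

/-- the primes `≤ x` -/
def Px (x : ℕ) : Finset ℕ := (range (x + 1)).filter Nat.Prime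

lemma mem_Px (x p : ℕ) : p ∈ Px x ↔ p ≤ x ∧ p.Prime := by
  rw [Px, mem_filter, mem_range]
  constructor
  · rintro ⟨h1, h2⟩; exact ⟨by omega, h2⟩
  · rintro ⟨h1, h2⟩; exact ⟨by omega, h2⟩

/-- the average of the divisor function over the shifted primes -/
theorem tau_shifted : ∃ C : ℝ, 0 < C ∧ ∀ x : ℕ, 9 ≤ x →
    ∑ p ∈ Px x, ((p - 1).divisors.card : ℝ) ≤ C * x := by
  obtain ⟨C1, hC1, h1⟩ := PM_card
  obtain ⟨C2, hC2, h2⟩ := Ff_sum 1 zero_le_one
  refine ⟨2 * (C1 * C2), by positivity, fun x hx => ?_⟩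
  have hxR : (9 : ℝ) ≤ x := by exact_mod_cast hx
  have hx0 : (0 : ℝ) < x := by linarith
  have hlogx : 0 < Real.log x := Real.log_pos (by linarith)
  have hs3 : 3 ≤ Nat.sqrt x := by
    rw [Nat.le_sqrt]
    omega
  have e1 : ∀ p ∈ Px x, ((p - 1).divisors.card : ℝ) ≤
      2 * ∑ d ∈ Icc 1 (Nat.sqrt x), if d ∣ p - 1 then (1 : ℝ) else 0 := by
    intro p hp
    rw [mem_Px] at hp
    have hp2 := hp.2.two_le
    have h3 := divisors_half (p - 1) (by omega)
    have h4 : ((Icc 1 (Nat.sqrt (p - 1))).filter (fun d => d ∣ p - 1)).card ≤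
        ((Icc 1 (Nat.sqrt x)).filter (fun d => d ∣ p - 1)).card := by
      apply card_le_card
      apply filter_subset_filter
      apply Icc_subset_Icc_right
      exact Nat.sqrt_le_sqrt (by omega)
    rw [← sum_filter, sum_const, nsmul_eq_mul, mul_one]
    have h5 : (p - 1).divisors.card ≤ 2 * ((Icc 1 (Nat.sqrt x)).filter (fun d => d ∣ p - 1)).card := by omega
    exact_mod_cast h5
  refine (sum_le_sum e1).trans ?_
  rw [← mul_sum, sum_comm]
  have e2 : ∀ d ∈ Icc 1 (Nat.sqrt x), ∑ p ∈ Px x, (if d ∣ p - 1 then (1 : ℝ) else 0) ≤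
      C1 * x / Real.log x * Ff 1 d := by
    intro d hd
    rw [mem_Icc] at hd
    rw [← sum_filter, sum_const, nsmul_eq_mul, mul_one]
    have h3 : (Px x).filter (fun p => d ∣ p - 1) = PM x d := by
      unfold Px PM
      rw [filter_filter]
    rw [h3]
    have h4 : d * d ≤ x := (Nat.mul_le_mul hd.2 hd.2).trans (Nat.sqrt_le x)
    have h5 : d ^ 5 ≤ x ^ 3 := by
      calc d ^ 5 ≤ d ^ 6 := Nat.pow_le_pow_right hd.1 (by norm_num)
        _ = (d * d) ^ 3 := by ring
        _ ≤ x ^ 3 := Nat.pow_le_pow_left h4 3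
    have h6 := h1 x d (by omega) hd.1 h5
    refine h6.trans (le_of_eq ?_)
    unfold Ff
    rw [one_pow]
    field_simp
  refine (mul_le_mul_of_nonneg_left (sum_le_sum e2) (by norm_num)).trans ?_
  rw [← mul_sum]
  have h3 := h2 (Nat.sqrt x) hs3
  rw [Real.rpow_one] at h3
  have h4 : Real.log (Nat.sqrt x : ℝ) ≤ Real.log x := by
    apply Real.log_le_log
    · exact_mod_cast (by omega : 0 < Nat.sqrt x)
    · exact_mod_cast Nat.sqrt_le_self x
  calc 2 * (C1 * x / Real.log x * ∑ d ∈ Icc 1 (Nat.sqrt x), Ff 1 d) ≤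
      2 * (C1 * x / Real.log x * (C2 * Real.log x)) := by
        apply mul_le_mul_of_nonneg_left _ (by norm_num)
        apply mul_le_mul_of_nonneg_left _ (by positivity)
        exact h3.trans (mul_le_mul_of_nonneg_left h4 hC2.le)
    _ = _ := by
        field_simp

/-- `∑ s ^ ω(m) / φ(m)` over `J` dyadic intervals -/
theorem Ff_dyadic (s : ℝ) (hs0 : 0 < s) (hs1 : s ≤ 1) : ∃ C : ℝ, 0 < C ∧ ∀ N J : ℕ, 3 ≤ N →
    ∑ m ∈ Icc N (2 ^ J * N), Ff s m ≤ C * (J + 1) * (Real.log N) ^ (s - 1) := by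
  obtain ⟨C, hC, h⟩ := Gf_sum s hs0 hs1
  refine ⟨2 * C, by positivity, fun N J hN => ?_⟩
  have hNR : (3 : ℝ) ≤ N := by exact_mod_cast hN
  have hlogN : 0 < Real.log N := Real.log_pos (by linarith)
  -- one dyadic interval
  have one : ∀ M : ℕ, N ≤ M → ∑ m ∈ Icc M (2 * M), Ff s m ≤ 2 * C * (Real.log N) ^ (s - 1) := by
    intro M hM
    have hM0 : (0 : ℝ) < M := by exact_mod_cast (by omega : 0 < M)
    have h1 : ∑ m ∈ Icc M (2 * M), Ff s m ≤ ∑ m ∈ Icc M (2 * M), (1 / (M : ℝ)) * Gf s m := by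
      apply sum_le_sum
      intro m hm
      rw [mem_Icc] at hm
      unfold Gf
      have hm' : (M : ℝ) ≤ m := by exact_mod_cast hm.1
      have h2 : 1 ≤ (1 / (M : ℝ)) * m := by
        rw [one_div, ← div_eq_inv_mul, le_div_iff₀ hM0, one_mul]
        exact hm'
      calc Ff s m = 1 * Ff s m := (one_mul _).symm
        _ ≤ ((1 / (M : ℝ)) * m) * Ff s m := mul_le_mul_of_nonneg_right h2 (Ff_nonneg s hs0.le m)
        _ = _ := by ring
    have h2 : ∑ m ∈ Icc M (2 * M), Gf s m ≤ ∑ m ∈ Icc 1 (2 * M), Gf s m := by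
      apply sum_le_sum_of_subset_of_nonneg
      · apply Icc_subset_Icc_left
        omega
      · intro i _ _
        exact Gf_nonneg s hs0.le i
    have h3 := h (2 * M) (by omega)
    have h4 : (Real.log ((2 * M : ℕ) : ℝ)) ^ (s - 1) ≤ (Real.log N) ^ (s - 1) := by
      apply Real.rpow_le_rpow_of_nonpos hlogN
      · apply Real.log_le_log (by linarith)
        exact_mod_cast (by omega : N ≤ 2 * M)
      · linarith
    calc ∑ m ∈ Icc M (2 * M), Ff s m ≤ (1 / (M : ℝ)) * ∑ m ∈ Icc M (2 * M), Gf s m := by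
          rw [mul_sum]; exact h1
      _ ≤ (1 / (M : ℝ)) * (C * ((2 * M : ℕ) : ℝ) * (Real.log ((2 * M : ℕ) : ℝ)) ^ (s - 1)) :=
          mul_le_mul_of_nonneg_left (h2.trans h3) (by positivity)
      _ = 2 * C * (Real.log ((2 * M : ℕ) : ℝ)) ^ (s - 1) := by
          push_cast
          field_simp
      _ ≤ _ := mul_le_mul_of_nonneg_left h4 (by positivity)
  induction J with
  | zero =>
    have h1 : ∑ m ∈ Icc N (2 ^ 0 * N), Ff s m ≤ ∑ m ∈ Icc N (2 * N), Ff s m := by
      apply sum_le_sum_of_subset_of_nonneg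
      · apply Icc_subset_Icc_right
        omega
      · intro i _ _
        exact Ff_nonneg s hs0.le i
    refine (h1.trans (one N le_rfl)).trans (le_of_eq ?_)
    push_cast
    ring
  | succ J ih =>
    have h2 : N ≤ 2 ^ J * N := Nat.le_mul_of_pos_left N (pow_pos (by norm_num) J)
    have h1 : Icc N (2 ^ (J + 1) * N) ⊆ Icc N (2 ^ J * N) ∪ Icc (2 ^ J * N) (2 * (2 ^ J * N)) := by
      intro m hm
      rw [mem_Icc] at hm
      rw [mem_union, mem_Icc, mem_Icc]
      have : 2 ^ (J + 1) * N = 2 * (2 ^ J * N) := by ring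
      omega
    have h3 := one (2 ^ J * N) h2
    calc ∑ m ∈ Icc N (2 ^ (J + 1) * N), Ff s m ≤
        ∑ m ∈ Icc N (2 ^ J * N) ∪ Icc (2 ^ J * N) (2 * (2 ^ J * N)), Ff s m :=
          sum_le_sum_of_subset_of_nonneg h1 (fun i _ _ => Ff_nonneg s hs0.le i)
      _ ≤ ∑ m ∈ Icc N (2 ^ J * N), Ff s m + ∑ m ∈ Icc (2 ^ J * N) (2 * (2 ^ J * N)), Ff s m := by
          have h4 := sum_union_inter (s₁ := Icc N (2 ^ J * N)) (s₂ := Icc (2 ^ J * N) (2 * (2 ^ J * N)))
            (f := Ff s)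
          have h5 : 0 ≤ ∑ m ∈ Icc N (2 ^ J * N) ∩ Icc (2 ^ J * N) (2 * (2 ^ J * N)), Ff s m :=
            sum_nonneg fun i _ => Ff_nonneg s hs0.le i
          linarith
      _ ≤ 2 * C * (J + 1) * (Real.log N) ^ (s - 1) + 2 * C * (Real.log N) ^ (s - 1) := add_le_add ih h3
      _ = _ := by push_cast; ring

end Pool.Agent.KS6_33.EX
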