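import Pool.Agent.KS6_33.EX.EB
import Pool.Graph.R_seed8.R459.Eq4

/-! # The order of a fixed integer modulo almost all primes (Erdős and Murty) -/

set_option autoImplicit false

namespace Pool.Agent.KS6_33.EX

open Finset Filter

/-- the primes `p ≤ x` prime to `a` modulo which the order of `a` is at most `y` -/
noncomputable def ordS (a : ℤ) (x : ℕ) (y : ℝ) : Finset ℕ := by
  classical
  exact (Px x).filter (fun p => ¬ (p : ℤ) ∣ a ∧ (orderOf (a : ZMod p) : ℝ) ≤ y)

lemma mem_ordS (a : ℤ) (x : ℕ) (y : ℝ) (p : ℕ) : p ∈ ordS a x y ↔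
    (p ≤ x ∧ p.Prime) ∧ ¬ (p : ℤ) ∣ a ∧ (orderOf (a : ZMod p) : ℝ) ≤ y := by
  unfold ordS
  rw [mem_filter, mem_Px]

lemma card_primeFactors_le (n : ℕ) (hn : n ≠ 0) : (n.primeFactors.card : ℝ) * Real.log 2 ≤ Real.log n := by
  have h1 : 2 ^ n.primeFactors.card ≤ n := by
    calc 2 ^ n.primeFactors.card ≤ ∏ p ∈ n.primeFactors, p := by
          rw [← prod_const]
          apply prod_le_prod'
          intro p hp
          exact (Nat.prime_of_mem_primeFactors hp).two_le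
      _ ≤ n := Nat.le_of_dvd (by omega) (Nat.prod_primeFactors_dvd n)
  have h2 : ((2 : ℝ) ^ n.primeFactors.card) ≤ n := by exact_mod_cast h1
  have h3 := Real.log_le_log (by positivity) h2
  rwa [Real.log_pow] at h3

lemma B1_card (a : ℤ) (ha : 2 ≤ |a|) (x : ℕ) (y : ℝ) (hy : 0 ≤ y) :
    ((ordS a x y).card : ℝ) ≤ (Real.log |(a : ℝ)| / Real.log 2) * (y + 1) ^ 2 := by
  classical
  have hl2 : 0 < Real.log 2 := Real.log_pos (by norm_num)
  have haR : (2 : ℝ) ≤ |(a : ℝ)| := by exact_mod_cast ha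
  have hla : 0 < Real.log |(a : ℝ)| := Real.log_pos (by linarith)
  set c := Real.log |(a : ℝ)| / Real.log 2 with hc
  have hc0 : 0 < c := div_pos hla hl2
  have hmaps : ∀ p ∈ ordS a x y, orderOf (a : ZMod p) ∈ Icc 1 ⌊y⌋₊ := by
    intro p hp
    rw [mem_ordS] at hp
    rw [mem_Icc]
    refine ⟨?_, Nat.le_floor hp.2.2⟩
    have : Fact p.Prime := ⟨hp.1.2⟩
    have h0 : (a : ZMod p) ≠ 0 := by
      rw [Ne, ZMod.intCast_zmod_eq_zero_iff_dvd]
      exact hp.2.1
    have h1 : (a : ZMod p) ^ (p - 1) = 1 := ZMod.pow_card_sub_one_eq_one h0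
    exact orderOf_pos_iff.2 (isOfFinOrder_iff_pow_eq_one.2 ⟨p - 1, by have := hp.1.2.two_le; omega, h1⟩)
  have hfib : ∀ t ∈ Icc 1 ⌊y⌋₊, (((ordS a x y).filter (fun p => orderOf (a : ZMod p) = t)).card : ℝ) ≤
      c * (y + 1) := by
    intro t ht
    rw [mem_Icc] at ht
    set n := (a ^ t - 1).natAbs with hn
    have hat : 2 ≤ |a ^ t| := by
      rw [abs_pow]
      calc 2 ≤ |a| := ha
        _ = |a| ^ 1 := (pow_one _).symm
        _ ≤ |a| ^ t := pow_le_pow_right₀ (by omega) ht.1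
    have hn0 : n ≠ 0 := by
      rw [hn, Int.natAbs_ne_zero]
      intro h
      have : a ^ t = 1 := by linarith
      rw [this] at hat
      norm_num at hat
    have h1 : ((ordS a x y).filter (fun p => orderOf (a : ZMod p) = t)) ⊆ n.primeFactors := by
      intro p hp
      rw [mem_filter, mem_ordS] at hp
      rw [Nat.mem_primeFactors]
      refine ⟨hp.1.1.2, ?_, hn0⟩
      have h2 : (a : ZMod p) ^ t = 1 := by
        rw [← hp.2]
        exact pow_orderOf_eq_one _
      have h3 : (((a ^ t - 1 : ℤ)) : ZMod p) = 0 := by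
        push_cast
        rw [h2, sub_self]
      rw [ZMod.intCast_zmod_eq_zero_iff_dvd] at h3
      exact Int.natCast_dvd.1 h3
    have h2 : (((ordS a x y).filter (fun p => orderOf (a : ZMod p) = t)).card : ℝ) ≤ (n.primeFactors.card : ℝ) := by
      exact_mod_cast card_le_card h1
    have h3 := card_primeFactors_le n hn0
    have h4 : (n : ℝ) ≤ |(a : ℝ)| ^ (t + 1) := by
      have h5 : (n : ℝ) = |(a : ℝ) ^ t - 1| := by
        rw [hn, Nat.cast_natAbs]
        push_cast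
        rfl
      rw [h5]
      have h6 := abs_sub (a := (a : ℝ) ^ t) (b := 1)
      rw [abs_one, abs_pow] at h6
      have h7 : (1 : ℝ) ≤ |(a : ℝ)| ^ t := one_le_pow₀ (by linarith)
      rw [pow_succ]
      nlinarith
    have h5 : Real.log n ≤ (t + 1) * Real.log |(a : ℝ)| := by
      have h6 := Real.log_le_log (by exact_mod_cast Nat.pos_of_ne_zero hn0) h4
      rw [Real.log_pow] at h6
      push_cast at h6
      exact h6
    have hty : (t : ℝ) ≤ y := (Nat.le_floor_iff hy).1 ht.2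
    have h6 : (n.primeFactors.card : ℝ) ≤ c * (t + 1) := by
      rw [hc, div_mul_eq_mul_div, le_div_iff₀ hl2]
      linarith
    calc _ ≤ (n.primeFactors.card : ℝ) := h2
      _ ≤ c * (t + 1) := h6
      _ ≤ c * (y + 1) := by gcongr
  have h1 : ((ordS a x y).card : ℝ) =
      ∑ t ∈ Icc 1 ⌊y⌋₊, (((ordS a x y).filter (fun p => orderOf (a : ZMod p) = t)).card : ℝ) := by
    rw [card_eq_sum_card_fiberwise hmaps]
    push_cast
    rfl
  rw [h1]
  refine (sum_le_sum hfib).trans ?_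
  rw [sum_const, Nat.card_Icc, nsmul_eq_mul]
  have h2 : ((⌊y⌋₊ + 1 - 1 : ℕ) : ℝ) ≤ y + 1 := by
    rw [Nat.add_sub_cancel]
    have := Nat.floor_le hy
    linarith
  calc _ ≤ (y + 1) * (c * (y + 1)) := mul_le_mul_of_nonneg_right h2 (by positivity)
    _ = _ := by ring

open Classical in
/-- few primes `p ≤ x` have a shift divisible by a large square -/
lemma B2_card (x G : ℕ) (hG : 1 ≤ G) :
    (((Px x).filter (fun p => ∃ g : ℕ, G < g ∧ g ^ 2 ∣ p - 1)).card : ℝ) ≤ x / G := by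
  have hG0 : (0 : ℝ) < G := by exact_mod_cast hG
  have h1 : (Px x).filter (fun p => ∃ g : ℕ, G < g ∧ g ^ 2 ∣ p - 1) ⊆
      (Icc (G + 1) (G + x)).biUnion (fun g => (Px x).filter (fun p => g ^ 2 ∣ p - 1)) := by
    intro p hp
    rw [mem_filter] at hp
    obtain ⟨hp1, g, hg, hd⟩ := hp
    rw [mem_biUnion]
    refine ⟨g, ?_, by rw [mem_filter]; exact ⟨hp1, hd⟩⟩
    rw [mem_Icc]
    refine ⟨hg, ?_⟩
    rw [mem_Px] at hp1
    have h2 := Nat.le_of_dvd (by have := hp1.2.two_le; omega) hd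
    have h3 : g ≤ g ^ 2 := Nat.le_self_pow (by norm_num) g
    omega
  have h2 : ∀ g ∈ Icc (G + 1) (G + x), (((Px x).filter (fun p => g ^ 2 ∣ p - 1)).card : ℝ) ≤
      x * (1 / ((g : ℝ) - 1) - 1 / g) := by
    intro g hg
    rw [mem_Icc] at hg
    have hg2 : (2 : ℝ) ≤ g := by exact_mod_cast (by omega : 2 ≤ g)
    have h3 : ((Px x).filter (fun p => g ^ 2 ∣ p - 1)).card ≤ x / g ^ 2 := by
      have h4 : ((Px x).filter (fun p => g ^ 2 ∣ p - 1)).card ≤ (Icc 1 (x / g ^ 2)).card := by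
        apply card_le_card_of_injOn (fun p => (p - 1) / g ^ 2)
        · intro p hp
          rw [mem_coe, mem_filter, mem_Px] at hp
          rw [mem_coe, mem_Icc]
          have hp2 := hp.1.2.two_le
          constructor
          · exact Nat.div_pos (Nat.le_of_dvd (by omega) hp.2) (pow_pos (by omega) 2)
          · exact Nat.div_le_div_right (by omega)
        · intro p hp q hq hpq
          rw [mem_coe, mem_filter, mem_Px] at hp hq
          simp only at hpq
          have h6 : (p - 1) / g ^ 2 * g ^ 2 = p - 1 := Nat.div_mul_cancel hp.2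
          have h7 : (q - 1) / g ^ 2 * g ^ 2 = q - 1 := Nat.div_mul_cancel hq.2
          rw [hpq, h7] at h6
          have := hp.1.2.one_le
          have := hq.1.2.one_le
          omega
      rwa [Nat.card_Icc, Nat.add_sub_cancel] at h4
    have h4 : (((Px x).filter (fun p => g ^ 2 ∣ p - 1)).card : ℝ) ≤ (x : ℝ) / ((g ^ 2 : ℕ) : ℝ) := by
      calc _ ≤ (((x / g ^ 2 : ℕ)) : ℝ) := by exact_mod_cast h3
        _ ≤ _ := Nat.cast_div_le
    refine h4.trans ?_
    push_cast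
    rw [div_eq_mul_one_div]
    apply mul_le_mul_of_nonneg_left _ (Nat.cast_nonneg _)
    have h5 : (0 : ℝ) < (g : ℝ) - 1 := by linarith
    rw [div_sub_div _ _ h5.ne' (by linarith), div_le_div_iff₀ (by positivity) (by positivity)]
    nlinarith
  have h3 : (((Px x).filter (fun p => ∃ g : ℕ, G < g ∧ g ^ 2 ∣ p - 1)).card : ℝ) ≤
      ∑ g ∈ Icc (G + 1) (G + x), (((Px x).filter (fun p => g ^ 2 ∣ p - 1)).card : ℝ) := by
    have := (card_le_card h1).trans card_biUnion_le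
    exact_mod_cast this
  refine h3.trans ((sum_le_sum h2).trans ?_)
  rw [← mul_sum]
  have h4 : ∀ n : ℕ, ∑ g ∈ Icc (G + 1) (G + n), (1 / ((g : ℝ) - 1) - 1 / g) = 1 / (G : ℝ) - 1 / ((G + n : ℕ) : ℝ) := by
    intro n
    induction n with
    | zero =>
      rw [Icc_eq_empty (by omega)]
      simp
    | succ n ih =>
      rw [← add_assoc, sum_Icc_succ_top (by omega), ih]
      push_cast
      have : ((G : ℝ) + n + 1 - 1) = (G : ℝ) + n := by ring
      rw [this]
      ring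
  rw [h4 x]
  have h5 : (0 : ℝ) ≤ 1 / ((G + x : ℕ) : ℝ) := by positivity
  have h6 : (x : ℝ) / G = x * (1 / (G : ℝ)) := by ring
  rw [h6]
  apply mul_le_mul_of_nonneg_left _ (Nat.cast_nonneg _)
  linarith

lemma B3_card : ∃ C : ℝ, 0 < C ∧ ∀ (x : ℕ) (V : ℝ), 9 ≤ x → 0 < V →
    (((Px x).filter (fun p => V < ((p - 1).divisors.card : ℝ))).card : ℝ) ≤ C * x / V := by
  obtain ⟨C, hC, h⟩ := tau_shifted
  refine ⟨C, hC, fun x V hx hV => ?_⟩
  rw [le_div_iff₀ hV]
  refine le_trans ?_ (h x hx)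
  calc (((Px x).filter (fun p => V < ((p - 1).divisors.card : ℝ))).card : ℝ) * V =
      ∑ p ∈ (Px x).filter (fun p => V < ((p - 1).divisors.card : ℝ)), V := by
        rw [sum_const, nsmul_eq_mul]
    _ ≤ ∑ p ∈ (Px x).filter (fun p => V < ((p - 1).divisors.card : ℝ)), ((p - 1).divisors.card : ℝ) := by
        apply sum_le_sum
        intro p hp
        exact (mem_filter.1 hp).2.le
    _ ≤ _ := by
        apply sum_le_sum_of_subset_of_nonneg (filter_subset _ _)
        intro i _ _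
        positivity

/-- the number `1 / √2` -/
noncomputable def s2 : ℝ := 1 / Real.sqrt 2

lemma s2_pos : 0 < s2 := by unfold s2; positivity

lemma s2_le : s2 ≤ 5 / 7 := by
  unfold s2
  rw [div_le_div_iff₀ (Real.sqrt_pos.2 (by norm_num)) (by norm_num)]
  have h1 : (7 : ℝ) / 5 ≤ Real.sqrt 2 := by
    apply Real.le_sqrt_of_sq_le
    norm_num
  linarith

lemma s2_pow (k : ℕ) : s2 ^ k * Real.sqrt ((2 : ℝ) ^ k) = 1 := by
  unfold s2
  rw [div_pow, one_pow]
  have h1 : Real.sqrt ((2 : ℝ) ^ k) = (Real.sqrt 2) ^ k := by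
    rw [Real.sqrt_eq_iff_mul_self_eq (by positivity) (by positivity), ← mul_pow,
      Real.mul_self_sqrt (by norm_num)]
  rw [h1]
  have : (Real.sqrt 2) ^ k ≠ 0 := pow_ne_zero _ (Real.sqrt_pos.2 (by norm_num)).ne'
  field_simp

open Classical in
lemma B4_card : ∃ C : ℝ, 0 < C ∧ ∀ (x N J : ℕ) (Y : ℝ), 2 ≤ x → 3 ≤ N → (2 ^ J * N) ^ 5 ≤ x ^ 3 → 0 < Y →
    (((Px x).filter (fun p => ∃ m ∈ Icc N (2 ^ J * N), m ∣ p - 1 ∧ (2 : ℝ) ^ m.primeFactors.card ≤ Y)).card : ℝ) ≤
      C * x / Real.log x * Real.sqrt Y * (J + 1) * (Real.log N) ^ (s2 - 1) := by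
  obtain ⟨C1, hC1, h1⟩ := PM_card
  obtain ⟨C2, hC2, h2⟩ := Ff_dyadic s2 s2_pos (s2_le.trans (by norm_num))
  refine ⟨C1 * C2, by positivity, fun x N J Y hx hN hNx hY => ?_⟩
  have hxR : (2 : ℝ) ≤ x := by exact_mod_cast hx
  have hlogx : 0 < Real.log x := Real.log_pos (by linarith)
  set I := (Icc N (2 ^ J * N)).filter (fun m => (2 : ℝ) ^ m.primeFactors.card ≤ Y) with hI
  have h3 : (Px x).filter (fun p => ∃ m ∈ Icc N (2 ^ J * N), m ∣ p - 1 ∧ (2 : ℝ) ^ m.primeFactors.card ≤ Y) ⊆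
      I.biUnion (fun m => PM x m) := by
    intro p hp
    rw [mem_filter] at hp
    obtain ⟨hp1, m, hm, hd, hY'⟩ := hp
    rw [mem_biUnion]
    refine ⟨m, ?_, ?_⟩
    · rw [hI, mem_filter]
      exact ⟨hm, hY'⟩
    · rw [mem_Px] at hp1
      rw [PM, mem_filter, mem_range]
      exact ⟨by omega, hp1.2, hd⟩
  have h4 : ∀ m ∈ I, ((PM x m).card : ℝ) ≤ C1 * x / Real.log x * Real.sqrt Y * Ff s2 m := by
    intro m hm
    rw [hI, mem_filter, mem_Icc] at hm
    have h5 : m ^ 5 ≤ x ^ 3 := (Nat.pow_le_pow_left hm.1.2 5).trans hNx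
    have h6 := h1 x m hx (by omega) h5
    have hφ : (0 : ℝ) < Nat.totient m := by exact_mod_cast Nat.totient_pos.2 (by omega)
    refine h6.trans ?_
    have h7 : 1 ≤ Real.sqrt Y * s2 ^ m.primeFactors.card := by
      rw [← s2_pow m.primeFactors.card, mul_comm]
      exact mul_le_mul_of_nonneg_right (Real.sqrt_le_sqrt hm.2) (pow_nonneg s2_pos.le _)
    calc C1 * x / ((Nat.totient m : ℝ) * Real.log x) =
        C1 * x / Real.log x * (1 / (Nat.totient m : ℝ)) * 1 := by field_simp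
      _ ≤ C1 * x / Real.log x * (1 / (Nat.totient m : ℝ)) * (Real.sqrt Y * s2 ^ m.primeFactors.card) :=
          mul_le_mul_of_nonneg_left h7 (by positivity)
      _ = _ := by
          unfold Ff
          ring
  have h5 : (((Px x).filter (fun p => ∃ m ∈ Icc N (2 ^ J * N), m ∣ p - 1 ∧
      (2 : ℝ) ^ m.primeFactors.card ≤ Y)).card : ℝ) ≤ ∑ m ∈ I, ((PM x m).card : ℝ) := by
    have := (card_le_card h3).trans card_biUnion_le
    exact_mod_cast this
  refine h5.trans ((sum_le_sum h4).trans ?_)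
  rw [← mul_sum]
  have h6 : ∑ m ∈ I, Ff s2 m ≤ ∑ m ∈ Icc N (2 ^ J * N), Ff s2 m := by
    apply sum_le_sum_of_subset_of_nonneg (filter_subset _ _)
    intro i _ _
    exact Ff_nonneg s2 s2_pos.le i
  calc C1 * x / Real.log x * Real.sqrt Y * ∑ m ∈ I, Ff s2 m ≤
      C1 * x / Real.log x * Real.sqrt Y * (C2 * (J + 1) * (Real.log N) ^ (s2 - 1)) :=
        mul_le_mul_of_nonneg_left (h6.trans (h2 N J hN)) (by positivity)
    _ = _ := by ring

/-- the key dichotomy: if `T n = p - 1` then one of `T`, `n` has few prime factors -/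
lemma key_split : ∃ C : ℝ, 0 < C ∧ ∀ (T n G : ℕ) (V : ℝ), T ≠ 0 → n ≠ 0 → 1 ≤ G →
    (∀ g : ℕ, G < g → ¬ g ^ 2 ∣ T * n) → ((T * n).divisors.card : ℝ) ≤ V →
    (2 : ℝ) ^ T.primeFactors.card ≤ Real.sqrt (V * (C * (G : ℝ) ^ (1 / 22 : ℝ))) ∨
    (2 : ℝ) ^ n.primeFactors.card ≤ Real.sqrt (V * (C * (G : ℝ) ^ (1 / 22 : ℝ))) := by
  obtain ⟨C, hC, h⟩ := Pool.Agent.H398R2.BV.pow_omega_le 2 (by norm_num) (1 / 22) (by norm_num)
  refine ⟨C, hC, fun T n G V hT hn hG hsq hV => ?_⟩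
  have hg0 : 1 ≤ Nat.gcd T n := Nat.gcd_pos_of_pos_left n (by omega)
  have hgG : Nat.gcd T n ≤ G := by
    by_contra hcon
    push Not at hcon
    apply hsq _ hcon
    rw [sq]
    exact Nat.mul_dvd_mul (Nat.gcd_dvd_left T n) (Nat.gcd_dvd_right T n)
  have h1 : T.primeFactors.card + n.primeFactors.card =
      (T * n).primeFactors.card + (Nat.gcd T n).primeFactors.card := by
    rw [Nat.primeFactors_mul hT hn, Nat.primeFactors_gcd hT hn, card_union_add_card_inter]
  have h2 : (2 : ℝ) ^ T.primeFactors.card * (2 : ℝ) ^ n.primeFactors.card ≤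
      V * (C * (G : ℝ) ^ (1 / 22 : ℝ)) := by
    rw [← pow_add, h1, pow_add]
    have h3 : (2 : ℝ) ^ (T * n).primeFactors.card ≤ V := by
      refine le_trans ?_ hV
      exact_mod_cast Pool.Agent.H398R2.BV.two_pow_omega_le (T * n) (mul_ne_zero hT hn)
    have h4 : (2 : ℝ) ^ (Nat.gcd T n).primeFactors.card ≤ C * (G : ℝ) ^ (1 / 22 : ℝ) := by
      refine (h _ hg0).trans ?_
      apply mul_le_mul_of_nonneg_left _ hC.le
      exact Real.rpow_le_rpow (Nat.cast_nonneg _) (by exact_mod_cast hgG) (by norm_num)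
    have hV0 : 0 ≤ V := le_trans (by positivity) h3
    exact mul_le_mul h3 h4 (by positivity) hV0
  set W := V * (C * (G : ℝ) ^ (1 / 22 : ℝ)) with hW
  by_contra hcon
  rw [not_or] at hcon
  push Not at hcon
  have hW0 : 0 ≤ W := le_trans (by positivity) h2
  have h3 := mul_lt_mul'' hcon.1 hcon.2 (Real.sqrt_nonneg _) (Real.sqrt_nonneg _)
  rw [Real.mul_self_sqrt hW0] at h3
  linarith

end Pool.Agent.KS6_33.EX
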