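import Pool.Agent.KS6_33.EX.EC

/-! # The order of a fixed integer modulo almost all primes: conclusion -/

set_option autoImplicit false

namespace Pool.Agent.KS6_33.EX

open Finset Filter Topology

lemma log_atTop : Tendsto (fun x : ℕ => Real.log x) atTop atTop :=
  Real.tendsto_log_atTop.comp tendsto_natCast_atTop_atTop

/-- `c (1 + log L) L ^ (-η)` is small, `L = log x` -/
lemma ev_small (c η ε : ℝ) (hη : 0 < η) (hε : 0 < ε) :
    ∀ᶠ x : ℕ in atTop, c * (1 + Real.log (Real.log x)) * (Real.log x) ^ (-η) ≤ ε := by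
  have h1 : Tendsto (fun L : ℝ => c * (1 + Real.log L) * L ^ (-η)) atTop (𝓝 0) := by
    have h2 : Tendsto (fun L : ℝ => L ^ (-η)) atTop (𝓝 0) := tendsto_rpow_neg_atTop hη
    have h3 : Tendsto (fun L : ℝ => Real.log L * L ^ (-η)) atTop (𝓝 0) := by
      have h4 := (isLittleO_log_rpow_atTop hη).tendsto_div_nhds_zero
      refine h4.congr' ?_
      filter_upwards [eventually_gt_atTop 0] with L hL
      rw [Real.rpow_neg hL.le, div_eq_mul_inv]
    have h5 := (h2.add h3).const_mul c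
    rw [add_zero, mul_zero] at h5
    refine h5.congr fun L => ?_
    ring
  exact (h1.comp log_atTop).eventually (eventually_le_nhds hε)

/-- `(log x) ^ B ≤ x ^ c` for large `x` -/
lemma ev_log_pow (B c : ℝ) (hc : 0 < c) : ∀ᶠ x : ℕ in atTop, (Real.log x) ^ B ≤ (x : ℝ) ^ c := by
  have h1 := (isLittleO_log_rpow_rpow_atTop B hc).bound (by norm_num : (0 : ℝ) < 1)
  have h2 := tendsto_natCast_atTop_atTop (R := ℝ) |>.eventually h1
  filter_upwards [h2, eventually_ge_atTop 3] with x hx hx3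
  have hx1 : (1 : ℝ) ≤ x := by exact_mod_cast (by omega : 1 ≤ x)
  rw [one_mul, Real.norm_of_nonneg (Real.rpow_nonneg (Real.log_nonneg hx1) _),
    Real.norm_of_nonneg (Real.rpow_nonneg (by linarith) _)] at hx
  exact hx

set_option maxHeartbeats 4000000 in
/-- **Small orders are rare.** For almost all primes `p ≤ x` the order of `a` modulo `p` is larger than
`√x (log x) ^ A`. -/
theorem small_orders (a : ℤ) (ha : 2 ≤ |a|) (A : ℕ) (ε : ℝ) (hε : 0 < ε) :
    ∃ X₀ : ℕ, ∀ x : ℕ, X₀ ≤ x →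
      ((ordS a x (Real.sqrt x * (Real.log x) ^ A)).card : ℝ) ≤ ε * Nat.primeCounting x := by
  classical
  obtain ⟨C3, hC3, hB3⟩ := B3_card
  obtain ⟨C4, hC4, hB4⟩ := B4_card
  obtain ⟨C5, hC5, hkey⟩ := key_split
  have hl2 : 0 < Real.log 2 := Real.log_pos (by norm_num)
  have hl2' : 1 / 2 < Real.log 2 := by have := Real.log_two_gt_d9; linarith
  have haR : (2 : ℝ) ≤ |(a : ℝ)| := by exact_mod_cast ha
  set ca := Real.log |(a : ℝ)| / Real.log 2 with hca
  have hca0 : 0 < ca := div_pos (Real.log_pos (by linarith)) hl2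
  -- constants
  set ε' := ε / 40 with hε'
  have hε'0 : 0 < ε' := by positivity
  -- the eventual inequalities
  have hA1 := ev_small 1 1 ε' one_pos hε'0
  have hA2 := ev_small (16 * ca) 1 ε' one_pos hε'0
  have hA3 := ev_small 1 (1 / 10) ε' (by norm_num) hε'0
  have hA4 := ev_small C3 (1 / 20) ε' (by norm_num) hε'0
  have hA5 := ev_small (C4 * Real.sqrt (Real.sqrt (2 * C5)) * (4 * A + 14) * 4) (3 / 280) ε' (by norm_num) hε'0
  have hL := log_atTop.eventually_ge_atTop (10 : ℝ)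
  have hP1 := ev_log_pow ((5 * A + 9 : ℕ) : ℝ) (1 / 2) (by norm_num)
  have hP2 := ev_log_pow ((A + 4 : ℕ) : ℝ) (1 / 4) (by norm_num)
  have hP3 := ev_log_pow ((3 : ℕ) : ℝ) (1 / 2) (by norm_num)
  have hall := hA1.and (hA2.and (hA3.and (hA4.and (hA5.and (hL.and (hP1.and (hP2.and (hP3.and
    (eventually_ge_atTop 1000)))))))))
  obtain ⟨X₀, hX₀⟩ := eventually_atTop.1 hall
  refine ⟨X₀, fun x hx => ?_⟩
  obtain ⟨h1, h2, h3, h4, h5, hL10, hP1, hP2, hP3, hx1000⟩ := hX₀ x hx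
  rw [Real.rpow_natCast] at hP1 hP2 hP3
  rw [← Real.sqrt_eq_rpow] at hP1 hP3
  set L := Real.log x with hLdef
  have hxR : (1000 : ℝ) ≤ x := by exact_mod_cast hx1000
  have hx0 : (0 : ℝ) < x := by linarith
  have hL0 : 0 < L := by linarith
  have hL1 : 1 ≤ L := by linarith
  have hlogL : 0 ≤ Real.log L := Real.log_nonneg hL1
  have hsx : 0 < Real.sqrt x := Real.sqrt_pos.2 hx0
  have hss : Real.sqrt x * Real.sqrt x = x := Real.mul_self_sqrt hx0.le
  have hx4 : (x : ℝ) ^ (1 / 4 : ℝ) * (x : ℝ) ^ (1 / 4 : ℝ) = Real.sqrt x := by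
    rw [← Real.rpow_add hx0, Real.sqrt_eq_rpow]
    norm_num
  have hx4pos : 0 < (x : ℝ) ^ (1 / 4 : ℝ) := Real.rpow_pos_of_pos hx0 _
  have hx41 : 1 ≤ (x : ℝ) ^ (1 / 4 : ℝ) := Real.one_le_rpow (by linarith) (by norm_num)
  -- the parameters
  obtain ⟨G, hG⟩ : ∃ G : ℕ, G = ⌈L ^ (11 / 10 : ℝ)⌉₊ := ⟨_, rfl⟩
  have hL11 : 1 ≤ L ^ (11 / 10 : ℝ) := Real.one_le_rpow hL1 (by norm_num)
  have hGge : L ^ (11 / 10 : ℝ) ≤ G := by rw [hG]; exact Nat.le_ceil _
  have hGle : (G : ℝ) ≤ 2 * L ^ (11 / 10 : ℝ) := by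
    have := Nat.ceil_lt_add_one (a := L ^ (11 / 10 : ℝ)) (by linarith)
    rw [hG]
    linarith
  have hG1 : 1 ≤ G := by
    have : (1 : ℝ) ≤ G := by linarith
    exact_mod_cast this
  have hG0 : (0 : ℝ) < G := by exact_mod_cast hG1
  obtain ⟨V, hV⟩ : ∃ V : ℝ, V = L ^ (21 / 20 : ℝ) := ⟨_, rfl⟩
  have hV0 : 0 < V := by rw [hV]; exact Real.rpow_pos_of_pos hL0 _
  obtain ⟨Y, hY⟩ : ∃ Y : ℝ, Y = Real.sqrt (2 * C5 * L ^ (11 / 10 : ℝ)) := ⟨_, rfl⟩
  have hY0 : 0 < Y := by rw [hY]; exact Real.sqrt_pos.2 (by positivity)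
  have hWY : Real.sqrt (V * (C5 * (G : ℝ) ^ (1 / 22 : ℝ))) ≤ Y := by
    rw [hY]
    apply Real.sqrt_le_sqrt
    have e1 : (G : ℝ) ^ (1 / 22 : ℝ) ≤ 2 * L ^ (1 / 20 : ℝ) := by
      calc (G : ℝ) ^ (1 / 22 : ℝ) ≤ (2 * L ^ (11 / 10 : ℝ)) ^ (1 / 22 : ℝ) :=
            Real.rpow_le_rpow hG0.le hGle (by norm_num)
        _ = (2 : ℝ) ^ (1 / 22 : ℝ) * L ^ (1 / 20 : ℝ) := by
            rw [Real.mul_rpow (by norm_num) (by positivity), ← Real.rpow_mul hL0.le]
            norm_num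
        _ ≤ (2 : ℝ) ^ (1 : ℝ) * L ^ (1 / 20 : ℝ) := by
            apply mul_le_mul_of_nonneg_right _ (by positivity)
            exact Real.rpow_le_rpow_of_exponent_le (by norm_num) (by norm_num)
        _ = _ := by rw [Real.rpow_one]
    have e2 : L ^ (21 / 20 : ℝ) * L ^ (1 / 20 : ℝ) = L ^ (11 / 10 : ℝ) := by
      rw [← Real.rpow_add hL0]; norm_num
    rw [hV]
    calc L ^ (21 / 20 : ℝ) * (C5 * (G : ℝ) ^ (1 / 22 : ℝ)) ≤ L ^ (21 / 20 : ℝ) * (C5 * (2 * L ^ (1 / 20 : ℝ))) := by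
          gcongr
      _ = 2 * C5 * (L ^ (21 / 20 : ℝ) * L ^ (1 / 20 : ℝ)) := by ring
      _ = _ := by rw [e2]
  obtain ⟨y, hy⟩ : ∃ y : ℝ, y = Real.sqrt x / L ^ (A + 3) := ⟨_, rfl⟩
  have hy4 : 2 * (x : ℝ) ^ (1 / 4 : ℝ) ≤ y := by
    rw [hy, le_div_iff₀ (by positivity)]
    calc 2 * (x : ℝ) ^ (1 / 4 : ℝ) * L ^ (A + 3) ≤ L * (x : ℝ) ^ (1 / 4 : ℝ) * L ^ (A + 3) := by
          gcongr; linarith
      _ = (x : ℝ) ^ (1 / 4 : ℝ) * L ^ (A + 4) := by ring
      _ ≤ (x : ℝ) ^ (1 / 4 : ℝ) * (x : ℝ) ^ (1 / 4 : ℝ) := by gcongr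
      _ = Real.sqrt x := hx4
  have hy0 : 0 < y := by linarith
  obtain ⟨N, hN⟩ : ∃ N : ℕ, N = ⌊y⌋₊ := ⟨_, rfl⟩
  have hNy : (N : ℝ) ≤ y := by rw [hN]; exact Nat.floor_le hy0.le
  have hyN : y / 2 ≤ N := by
    have := Nat.lt_floor_add_one y
    rw [← hN] at this
    linarith
  have hN4 : (x : ℝ) ^ (1 / 4 : ℝ) ≤ N := by linarith
  have hN3 : 3 ≤ N := by
    have e1 : (5 : ℝ) ≤ (x : ℝ) ^ (1 / 4 : ℝ) := by
      calc (5 : ℝ) = ((5 : ℝ) ^ (4 : ℕ)) ^ (1 / 4 : ℝ) := by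
            rw [← Real.rpow_natCast, ← Real.rpow_mul (by norm_num)]
            norm_num
        _ ≤ _ := Real.rpow_le_rpow (by norm_num) (by linarith) (by norm_num)
    have : (3 : ℝ) ≤ N := by linarith
    exact_mod_cast this
  have hN0 : (0 : ℝ) < N := by exact_mod_cast (by omega : 0 < N)
  obtain ⟨J, hJ⟩ : ∃ J : ℕ, J = ⌈Real.log (2 * L ^ (2 * A + 4)) / Real.log 2⌉₊ := ⟨_, rfl⟩
  have hQ1 : 1 ≤ 2 * L ^ (2 * A + 4) := by
    have : 1 ≤ L ^ (2 * A + 4) := one_le_pow₀ hL1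
    linarith
  have hlogQ : 0 ≤ Real.log (2 * L ^ (2 * A + 4)) / Real.log 2 := div_nonneg (Real.log_nonneg hQ1) hl2.le
  have hJ1 : 2 * L ^ (2 * A + 4) ≤ 2 ^ J := by
    have e1 : Real.log (2 * L ^ (2 * A + 4)) / Real.log 2 ≤ J := by rw [hJ]; exact Nat.le_ceil _
    rw [div_le_iff₀ hl2] at e1
    rw [← Real.log_le_log_iff (by linarith) (by positivity), Real.log_pow]
    exact e1
  have hJ2 : (J : ℝ) < Real.log (2 * L ^ (2 * A + 4)) / Real.log 2 + 1 := by
    rw [hJ]; exact Nat.ceil_lt_add_one hlogQ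
  have hJ3 : (2 : ℝ) ^ J ≤ 4 * L ^ (2 * A + 4) := by
    have e1 : (J : ℝ) * Real.log 2 ≤ Real.log (2 * L ^ (2 * A + 4)) + Real.log 2 := by
      have := mul_le_mul_of_nonneg_right hJ2.le hl2.le
      rw [add_mul, div_mul_cancel₀ _ hl2.ne', one_mul] at this
      exact this
    rw [← Real.log_mul (by linarith) (by norm_num), ← Real.log_pow] at e1
    have := (Real.log_le_log_iff (by positivity) (by positivity)).1 e1
    linarith
  have hJ4 : (J : ℝ) + 1 ≤ (4 * A + 14) * (1 + Real.log L) := by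
    have e1 : Real.log (2 * L ^ (2 * A + 4)) = Real.log 2 + (2 * A + 4) * Real.log L := by
      rw [Real.log_mul (by norm_num) (by positivity), Real.log_pow]
      push_cast
      ring
    have e2 : Real.log (2 * L ^ (2 * A + 4)) / Real.log 2 ≤ 1 + 2 * ((2 * A + 4) * Real.log L) := by
      rw [e1, add_div, div_self hl2.ne']
      have e3 : (2 * (A : ℝ) + 4) * Real.log L / Real.log 2 ≤ 2 * ((2 * A + 4) * Real.log L) := by
        rw [div_le_iff₀ hl2]
        have h0 : 0 ≤ 2 * ((2 * (A : ℝ) + 4) * Real.log L) := by positivity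
        have h1 := mul_le_mul_of_nonneg_left hl2'.le h0
        linarith
      linarith
    have e4 : (0 : ℝ) ≤ A := Nat.cast_nonneg A
    have e5 : 0 ≤ (A : ℝ) * Real.log L := mul_nonneg e4 hlogL
    have e6 : (4 * (A : ℝ) + 14) * (1 + Real.log L) = 4 * A + 14 + 4 * (A * Real.log L) + 14 * Real.log L := by
      ring
    have e7 : 2 * ((2 * (A : ℝ) + 4) * Real.log L) = 4 * (A * Real.log L) + 8 * Real.log L := by ring
    rw [e7] at e2
    rw [e6]
    linarith
  have hcast : ((2 ^ J * N : ℕ) : ℝ) = 2 ^ J * (N : ℝ) := by push_cast; ring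
  have hyL : y * L ^ (A + 3) = Real.sqrt x := by
    rw [hy]
    exact div_mul_cancel₀ _ (by positivity)
  have hup : ((2 ^ J * N : ℕ) : ℝ) ≤ 4 * (Real.sqrt x * L ^ (A + 1)) := by
    rw [hcast]
    calc (2 : ℝ) ^ J * N ≤ (4 * L ^ (2 * A + 4)) * y := mul_le_mul hJ3 hNy hN0.le (by positivity)
      _ = 4 * (Real.sqrt x * L ^ (A + 1)) := by
          rw [← hyL, show 2 * A + 4 = (A + 3) + (A + 1) by ring, pow_add]
          ring
  have hlow : Real.sqrt x * L ^ (A + 1) ≤ ((2 ^ J * N : ℕ) : ℝ) := by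
    rw [hcast]
    calc Real.sqrt x * L ^ (A + 1) = (2 * L ^ (2 * A + 4)) * (y / 2) := by
          rw [← hyL, show 2 * A + 4 = (A + 3) + (A + 1) by ring, pow_add]
          ring
      _ ≤ 2 ^ J * N := mul_le_mul hJ1 hyN (by positivity) (by positivity)
  have hNx : (2 ^ J * N) ^ 5 ≤ x ^ 3 := by
    have e1 : (((2 ^ J * N : ℕ) : ℝ)) ^ 5 ≤ (x : ℝ) ^ 3 := by
      calc (((2 ^ J * N : ℕ) : ℝ)) ^ 5 ≤ (4 * (Real.sqrt x * L ^ (A + 1))) ^ 5 :=
            pow_le_pow_left₀ (by positivity) hup 5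
        _ = 1024 * L ^ (5 * A + 5) * (Real.sqrt x * Real.sqrt x) ^ 2 * Real.sqrt x := by
            rw [show 5 * A + 5 = (A + 1) * 5 by ring, pow_mul]
            ring
        _ ≤ L ^ 4 * L ^ (5 * A + 5) * (Real.sqrt x * Real.sqrt x) ^ 2 * Real.sqrt x := by
            have : (1024 : ℝ) ≤ L ^ 4 := by
              calc (1024 : ℝ) ≤ 10 ^ 4 := by norm_num
                _ ≤ L ^ 4 := pow_le_pow_left₀ (by norm_num) hL10 4
            gcongr
        _ = L ^ (5 * A + 9) * (Real.sqrt x * Real.sqrt x) ^ 2 * Real.sqrt x := by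
            rw [← pow_add]
            congr 3
            ring
        _ ≤ Real.sqrt x * (Real.sqrt x * Real.sqrt x) ^ 2 * Real.sqrt x := by gcongr
        _ = (Real.sqrt x * Real.sqrt x) ^ 3 := by ring
        _ = (x : ℝ) ^ 3 := by rw [hss]
    exact_mod_cast e1
  have hlogN : L / 4 ≤ Real.log N := by
    have e1 := Real.log_le_log hx4pos hN4
    rw [Real.log_rpow hx0] at e1
    linarith
  -- the five sets
  obtain ⟨S0, hS0⟩ : ∃ S : Finset ℕ, S = Icc 1 ⌊(x : ℝ) / L ^ 2⌋₊ := ⟨_, rfl⟩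
  obtain ⟨S1, hS1⟩ : ∃ S : Finset ℕ, S = ordS a x (Real.sqrt x / L) := ⟨_, rfl⟩
  obtain ⟨S2, hS2⟩ : ∃ S : Finset ℕ, S = (Px x).filter (fun p => ∃ g : ℕ, G < g ∧ g ^ 2 ∣ p - 1) := ⟨_, rfl⟩
  obtain ⟨S3, hS3⟩ : ∃ S : Finset ℕ, S = (Px x).filter (fun p => V < ((p - 1).divisors.card : ℝ)) := ⟨_, rfl⟩
  obtain ⟨S4, hS4⟩ : ∃ S : Finset ℕ, S = (Px x).filter (fun p => ∃ m ∈ Icc N (2 ^ J * N), m ∣ p - 1 ∧
    (2 : ℝ) ^ m.primeFactors.card ≤ Y) := ⟨_, rfl⟩
  have hcover : ordS a x (Real.sqrt x * L ^ A) ⊆ S0 ∪ (S1 ∪ (S2 ∪ (S3 ∪ S4))) := by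
    intro p hp
    have hp' := hp
    rw [mem_ordS] at hp'
    obtain ⟨⟨hpx, hpp⟩, hpa, hpo⟩ := hp'
    rw [mem_union, mem_union, mem_union, mem_union]
    by_cases c0 : (p : ℝ) ≤ (x : ℝ) / L ^ 2
    · left
      rw [hS0, mem_Icc]
      exact ⟨hpp.one_le, Nat.le_floor c0⟩
    right
    by_cases c1 : (orderOf (a : ZMod p) : ℝ) ≤ Real.sqrt x / L
    · left
      rw [hS1, mem_ordS]
      exact ⟨⟨hpx, hpp⟩, hpa, c1⟩
    right
    by_cases c2 : ∃ g : ℕ, G < g ∧ g ^ 2 ∣ p - 1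
    · left
      rw [hS2, mem_filter, mem_Px]
      exact ⟨⟨hpx, hpp⟩, c2⟩
    right
    by_cases c3 : V < ((p - 1).divisors.card : ℝ)
    · left
      rw [hS3, mem_filter, mem_Px]
      exact ⟨⟨hpx, hpp⟩, c3⟩
    right
    push Not at c0 c1 c2 c3
    have : Fact p.Prime := ⟨hpp⟩
    have h0 : (a : ZMod p) ≠ 0 := by
      rw [Ne, ZMod.intCast_zmod_eq_zero_iff_dvd]
      exact hpa
    set T := orderOf (a : ZMod p) with hT
    have hTd : T ∣ p - 1 := orderOf_dvd_of_pow_eq_one (ZMod.pow_card_sub_one_eq_one h0)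
    have hp2 := hpp.two_le
    have hT0 : T ≠ 0 := by
      intro h
      rw [h, zero_dvd_iff] at hTd
      omega
    obtain ⟨n, hn⟩ := hTd
    have hn0 : n ≠ 0 := by
      rintro rfl
      omega
    have hTR : (0 : ℝ) < T := by exact_mod_cast Nat.pos_of_ne_zero hT0
    have hnT : (T : ℝ) * n = (p : ℝ) - 1 := by
      have : ((p - 1 : ℕ) : ℝ) = (T : ℝ) * n := by rw [hn]; push_cast; ring
      rw [← this, Nat.cast_sub hpp.one_le]
      push_cast
      ring
    have hpxR : (p : ℝ) ≤ x := by exact_mod_cast hpx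
    have hLA : 1 ≤ L ^ A := one_le_pow₀ hL1
    have hLA1 : 1 ≤ L ^ (A + 1) := one_le_pow₀ hL1
    -- bounds for `T`
    have hT1 : N ≤ T := by
      have e1 : y ≤ Real.sqrt x / L := by
        rw [hy]
        apply div_le_div_of_nonneg_left hsx.le hL0
        calc L = L ^ 1 := (pow_one L).symm
          _ ≤ L ^ (A + 3) := pow_le_pow_right₀ hL1 (by omega)
      have : (N : ℝ) ≤ T := by linarith
      exact_mod_cast this
    have hT2 : T ≤ 2 ^ J * N := by
      have e1 : Real.sqrt x * L ^ A ≤ Real.sqrt x * L ^ (A + 1) := by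
        apply mul_le_mul_of_nonneg_left _ hsx.le
        exact pow_le_pow_right₀ hL1 (by omega)
      have : (T : ℝ) ≤ ((2 ^ J * N : ℕ) : ℝ) := by linarith
      exact_mod_cast this
    have hn2 : n ≤ 2 ^ J * N := by
      have e1 : (n : ℝ) ≤ Real.sqrt x * L := by
        have e2 : (Real.sqrt x / L) * n ≤ x := by
          calc (Real.sqrt x / L) * n ≤ (T : ℝ) * n := by gcongr
            _ = (p : ℝ) - 1 := hnT
            _ ≤ x := by linarith
        have e3 : (n : ℝ) ≤ x / (Real.sqrt x / L) := by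
          rw [le_div_iff₀ (by positivity)]
          linarith
        have e4 : (x : ℝ) / (Real.sqrt x / L) = Real.sqrt x * L := by
          rw [div_div_eq_mul_div, div_eq_iff hsx.ne']
          calc (x : ℝ) * L = (Real.sqrt x * Real.sqrt x) * L := by rw [hss]
            _ = _ := by ring
        linarith
      have e5 : Real.sqrt x * L ≤ Real.sqrt x * L ^ (A + 1) := by
        apply mul_le_mul_of_nonneg_left _ hsx.le
        calc L = L ^ 1 := (pow_one L).symm
          _ ≤ L ^ (A + 1) := pow_le_pow_right₀ hL1 (by omega)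
      have : (n : ℝ) ≤ ((2 ^ J * N : ℕ) : ℝ) := by linarith
      exact_mod_cast this
    have hn1 : N ≤ n := by
      have e1 : (x : ℝ) / L ^ 3 ≤ (p : ℝ) - 1 := by
        have e2 : (x : ℝ) / L ^ 3 + 1 ≤ x / L ^ 2 := by
          have e3 : L ^ 3 ≤ x := by
            have e4 : Real.sqrt x ≤ x := by
              calc Real.sqrt x = Real.sqrt x * 1 := (mul_one _).symm
                _ ≤ Real.sqrt x * Real.sqrt x := by
                    apply mul_le_mul_of_nonneg_left _ hsx.le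
                    rw [Real.one_le_sqrt]; linarith
                _ = x := hss
            linarith
          have e5 : (x : ℝ) / L ^ 2 = (x / L ^ 3) * L := by field_simp
          have e6 : 1 ≤ (x : ℝ) / L ^ 3 := by rw [le_div_iff₀ (by positivity)]; linarith
          rw [e5]
          have e7 : (x : ℝ) / L ^ 3 * 10 ≤ x / L ^ 3 * L := mul_le_mul_of_nonneg_left hL10 (by linarith)
          linarith
        linarith
      have e2 : (T : ℝ) * n ≤ (Real.sqrt x * L ^ A) * n := by gcongr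
      have e3 : (x : ℝ) / L ^ 3 ≤ (Real.sqrt x * L ^ A) * n := by linarith
      have e4 : y ≤ n := by
        rw [hy, div_le_iff₀ (by positivity)]
        rw [div_le_iff₀ (by positivity)] at e3
        have e5 : Real.sqrt x * Real.sqrt x ≤ Real.sqrt x * ((n : ℝ) * L ^ (A + 3)) := by
          rw [hss]
          calc (x : ℝ) ≤ Real.sqrt x * L ^ A * n * L ^ 3 := e3
            _ = _ := by rw [pow_add]; ring
        exact le_of_mul_le_mul_left e5 hsx
      have : (N : ℝ) ≤ n := by linarith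
      exact_mod_cast this
    rw [hS4, mem_filter, mem_Px]
    refine ⟨⟨hpx, hpp⟩, ?_⟩
    have hk := hkey T n G V hT0 hn0 hG1 (fun g hg => by rw [← hn]; exact c2 g hg) (by rw [← hn]; exact c3)
    rcases hk with hk | hk
    · exact ⟨T, mem_Icc.2 ⟨hT1, hT2⟩, ⟨n, hn⟩, hk.trans hWY⟩
    · exact ⟨n, mem_Icc.2 ⟨hn1, hn2⟩, ⟨T, by rw [hn]; ring⟩, hk.trans hWY⟩
  -- the cardinalities
  have hxL : (0 : ℝ) ≤ x / L := by positivity
  have k0 : (S0.card : ℝ) ≤ ε' * (x / L) := by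
    rw [hS0, Nat.card_Icc, Nat.add_sub_cancel]
    have e1 := Nat.floor_le (show (0 : ℝ) ≤ (x : ℝ) / L ^ 2 by positivity)
    refine e1.trans ?_
    have e2 : (1 : ℝ) / L ≤ ε' := by
      have e3 : L ^ (-1 : ℝ) = 1 / L := by rw [Real.rpow_neg_one, one_div]
      rw [e3] at h1
      have e4 : 0 ≤ Real.log L * (1 / L) := by positivity
      have e5 : 1 * (1 + Real.log L) * (1 / L) = 1 / L + Real.log L * (1 / L) := by ring
      linarith
    calc (x : ℝ) / L ^ 2 = (1 / L) * (x / L) := by field_simp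
      _ ≤ _ := mul_le_mul_of_nonneg_right e2 hxL
  have k1 : (S1.card : ℝ) ≤ ε' * (x / L) := by
    rw [hS1]
    refine (B1_card a ha x _ (by positivity)).trans ?_
    rw [← hca]
    have e1 : 1 ≤ Real.sqrt x / L := by
      rw [le_div_iff₀ hL0, one_mul]
      calc L = L ^ 1 := (pow_one L).symm
        _ ≤ L ^ 3 := pow_le_pow_right₀ hL1 (by norm_num)
        _ ≤ Real.sqrt x := hP3
    have e2 : (16 * ca) * (1 / L) ≤ ε' := by
      have e3 : L ^ (-1 : ℝ) = 1 / L := by rw [Real.rpow_neg_one, one_div]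
      rw [e3] at h2
      have e4 : 0 ≤ (16 * ca) * Real.log L * (1 / L) := by positivity
      have e5 : 16 * ca * (1 + Real.log L) * (1 / L) = 16 * ca * (1 / L) + (16 * ca) * Real.log L * (1 / L) := by
        ring
      linarith
    calc ca * (Real.sqrt x / L + 1) ^ 2 ≤ ca * (2 * (Real.sqrt x / L)) ^ 2 := by
          apply mul_le_mul_of_nonneg_left _ hca0.le
          apply pow_le_pow_left₀ (by positivity)
          linarith
      _ = 4 * ca * (1 / L) * ((Real.sqrt x * Real.sqrt x) / L) := by field_simp; ring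
      _ = 4 * ca * (1 / L) * (x / L) := by rw [hss]
      _ ≤ (16 * ca) * (1 / L) * (x / L) := by
          have e6 : 0 ≤ ca * (1 / L) * (x / L) := by positivity
          have e7 : 4 * ca * (1 / L) * (x / L) = 4 * (ca * (1 / L) * (x / L)) := by ring
          have e8 : 16 * ca * (1 / L) * (x / L) = 16 * (ca * (1 / L) * (x / L)) := by ring
          linarith
      _ ≤ _ := mul_le_mul_of_nonneg_right e2 hxL
  have k2 : (S2.card : ℝ) ≤ ε' * (x / L) := by
    rw [hS2]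
    refine (B2_card x G hG1).trans ?_
    have e2 : L ^ (-(1 / 10) : ℝ) ≤ ε' := by
      have e4 : 0 ≤ Real.log L * L ^ (-(1 / 10) : ℝ) := by positivity
      have e5 : 1 * (1 + Real.log L) * L ^ (-(1 / 10) : ℝ) =
          L ^ (-(1 / 10) : ℝ) + Real.log L * L ^ (-(1 / 10) : ℝ) := by ring
      linarith
    have e3 : L ^ (11 / 10 : ℝ) = L / L ^ (-(1 / 10) : ℝ) := by
      rw [Real.rpow_neg hL0.le, div_inv_eq_mul]
      nth_rewrite 2 [← Real.rpow_one L]
      rw [← Real.rpow_add hL0]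
      norm_num
    calc (x : ℝ) / G ≤ x / L ^ (11 / 10 : ℝ) := div_le_div_of_nonneg_left hx0.le (by linarith) hGge
      _ = L ^ (-(1 / 10) : ℝ) * (x / L) := by
          rw [e3]
          field_simp
      _ ≤ _ := mul_le_mul_of_nonneg_right e2 hxL
  have k3 : (S3.card : ℝ) ≤ ε' * (x / L) := by
    rw [hS3]
    refine (hB3 x V (by omega) hV0).trans ?_
    have e2 : C3 * L ^ (-(1 / 20) : ℝ) ≤ ε' := by
      have e4 : 0 ≤ C3 * Real.log L * L ^ (-(1 / 20) : ℝ) := by positivity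
      have e5 : C3 * (1 + Real.log L) * L ^ (-(1 / 20) : ℝ) =
          C3 * L ^ (-(1 / 20) : ℝ) + C3 * Real.log L * L ^ (-(1 / 20) : ℝ) := by ring
      linarith
    have e3 : L ^ (21 / 20 : ℝ) = L / L ^ (-(1 / 20) : ℝ) := by
      rw [Real.rpow_neg hL0.le, div_inv_eq_mul]
      nth_rewrite 2 [← Real.rpow_one L]
      rw [← Real.rpow_add hL0]
      norm_num
    calc C3 * (x : ℝ) / V = C3 * L ^ (-(1 / 20) : ℝ) * (x / L) := by
          rw [hV, e3]
          field_simp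
      _ ≤ _ := mul_le_mul_of_nonneg_right e2 hxL
  have k4 : (S4.card : ℝ) ≤ ε' * (x / L) := by
    rw [hS4]
    refine (hB4 x N J Y (by omega) hN3 hNx hY0).trans ?_
    have e1 : Real.sqrt Y = Real.sqrt (Real.sqrt (2 * C5)) * L ^ (11 / 40 : ℝ) := by
      rw [hY, Real.sqrt_mul (by positivity), Real.sqrt_mul (Real.sqrt_nonneg _)]
      congr 1
      rw [Real.sqrt_eq_rpow, Real.sqrt_eq_rpow, ← Real.rpow_mul hL0.le, ← Real.rpow_mul hL0.le]
      norm_num
    have e2 : (Real.log N) ^ (s2 - 1) ≤ 4 * L ^ (-(2 / 7) : ℝ) := by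
      have hs := s2_le
      have hs0 := s2_pos
      calc (Real.log N) ^ (s2 - 1) ≤ (L / 4) ^ (s2 - 1) :=
            Real.rpow_le_rpow_of_nonpos (by positivity) hlogN (by linarith)
        _ = (4 : ℝ) ^ (1 - s2) * L ^ (s2 - 1) := by
            rw [Real.div_rpow hL0.le (by norm_num), div_eq_mul_inv, ← Real.rpow_neg (by norm_num), mul_comm]
            congr 2
            ring
        _ ≤ (4 : ℝ) ^ (1 : ℝ) * L ^ (-(2 / 7) : ℝ) := by
            apply mul_le_mul
            · exact Real.rpow_le_rpow_of_exponent_le (by norm_num) (by linarith)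
            · exact Real.rpow_le_rpow_of_exponent_le hL1 (by linarith)
            · positivity
            · positivity
        _ = _ := by rw [Real.rpow_one]
    have e3 : L ^ (11 / 40 : ℝ) * L ^ (-(2 / 7) : ℝ) = L ^ (-(3 / 280) : ℝ) := by
      rw [← Real.rpow_add hL0]; norm_num
    rw [e1]
    have hJp : (0 : ℝ) ≤ (J : ℝ) + 1 := by positivity
    calc C4 * x / L * (Real.sqrt (Real.sqrt (2 * C5)) * L ^ (11 / 40 : ℝ)) * (J + 1) * (Real.log N) ^ (s2 - 1) ≤
        C4 * x / L * (Real.sqrt (Real.sqrt (2 * C5)) * L ^ (11 / 40 : ℝ)) *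
          ((4 * A + 14) * (1 + Real.log L)) * (4 * L ^ (-(2 / 7) : ℝ)) := by
          apply mul_le_mul _ e2 (by positivity) (by positivity)
          exact mul_le_mul_of_nonneg_left hJ4 (by positivity)
      _ = C4 * Real.sqrt (Real.sqrt (2 * C5)) * (4 * A + 14) * 4 * (1 + Real.log L) *
          (L ^ (11 / 40 : ℝ) * L ^ (-(2 / 7) : ℝ)) * (x / L) := by ring
      _ ≤ _ := by
          rw [e3]
          exact mul_le_mul_of_nonneg_right h5 hxL
  have htot : ((ordS a x (Real.sqrt x * L ^ A)).card : ℝ) ≤ 5 * ε' * (x / L) := by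
    have e1 := card_le_card hcover
    have e2 := card_union_le S0 (S1 ∪ (S2 ∪ (S3 ∪ S4)))
    have e3 := card_union_le S1 (S2 ∪ (S3 ∪ S4))
    have e4 := card_union_le S2 (S3 ∪ S4)
    have e5 := card_union_le S3 S4
    have e6 : (ordS a x (Real.sqrt x * L ^ A)).card ≤ S0.card + (S1.card + (S2.card + (S3.card + S4.card))) := by
      omega
    have e7 : ((ordS a x (Real.sqrt x * L ^ A)).card : ℝ) ≤
        (S0.card : ℝ) + (S1.card + (S2.card + (S3.card + S4.card))) := by exact_mod_cast e6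
    linarith
  have hpi := Pool.Agent.R459.Eq.pi_lower' x (by omega)
  obtain ⟨hpi0, _, hpi2⟩ := hpi
  have e1 : (x : ℝ) / L ≤ 4 * (Nat.primeCounting x : ℝ) := by
    rw [div_le_div_iff₀ hpi0 hx0] at hpi2
    rw [div_le_iff₀ hL0]
    linarith
  calc _ ≤ 5 * ε' * (x / L) := htot
    _ ≤ 5 * ε' * (4 * (Nat.primeCounting x : ℝ)) := mul_le_mul_of_nonneg_left e1 (by positivity)
    _ = ε / 2 * (Nat.primeCounting x : ℝ) := by rw [hε']; ring
    _ ≤ _ := by
        apply mul_le_mul_of_nonneg_right _ hpi0.le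
        linarith

end Pool.Agent.KS6_33.EX
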