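import Pool.Graph.R_seed8.R318.PR.Weil2

/-! # Mixed character sums: the completely multiplicative function attached to `χ(P) ψ(R)` -/

set_option autoImplicit false
set_option linter.unusedSectionVars false

namespace Pool.Agent.KS6_33.EX

open Polynomial Finset Pool.Agent.H341R2.Sharp IntermediateField Pool.Agent.H435R3.Weil

section

variable {F : Type*} [Field F] [Fintype F] [DecidableEq F]

/-- `χ` of the resultant with `P` times `ψ` of the resultant with `R` -/
noncomputable def lam2 (χ ψ : MulChar F ℂ) (P R h : F[X]) : ℂ :=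
  χ (resultant h P h.natDegree P.natDegree) * ψ (resultant h R h.natDegree R.natDegree)

theorem lam2_one (χ ψ : MulChar F ℂ) (P R : F[X]) : lam2 χ ψ P R 1 = 1 := by
  unfold lam2
  rw [natDegree_one]
  have h1 : ∀ Q : F[X], resultant (1 : F[X]) Q 0 Q.natDegree = 1 := by
    intro Q
    rw [resultant_zero_left_deg]
    simp
  rw [h1, h1]
  simp

theorem lam2_mul (χ ψ : MulChar F ℂ) (P R : F[X]) (g h : F[X]) (hg : g.Monic) (hh : h.Monic) :
    lam2 χ ψ P R (g * h) = lam2 χ ψ P R g * lam2 χ ψ P R h := by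
  unfold lam2
  rw [hg.natDegree_mul hh, resultant_mul_left _ _ _ _ le_rfl, resultant_mul_left _ _ _ _ le_rfl,
    map_mul, map_mul]
  ring

/-- vanishing in degree at least `deg P + deg R` -/
theorem AL2_eq_zero (χ ψ : MulChar F ℂ) (P R r : F[X]) (hP : P.Monic) (hR : R.Monic) (hr : r.Monic)
    (hev : Even r.natDegree) (hlam0 : lam2 χ ψ P R r ≠ 0) (hlam1 : lam2 χ ψ P R r ≠ 1)
    (n : ℕ) (hn : P.natDegree + R.natDegree ≤ n) : AL (lam2 χ ψ P R) n = 0 := by
  classical
  set f := P * R with hf0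
  have hf : f.Monic := hP.mul hR
  have hfd : f.natDegree = P.natDegree + R.natDegree := hP.natDegree_mul hR
  set d := f.natDegree with hd
  have hn' : d ≤ n := by rw [hfd]; exact hn
  set m := r.natDegree with hm
  have hcopP : IsCoprime P r := by
    by_contra hc
    have h1 : resultant r P = 0 := by
      rw [resultant_eq_zero_iff]
      exact ⟨Or.inl hr.ne_zero, fun h => hc h.symm⟩
    apply hlam0
    unfold lam2
    rw [h1]
    have : χ 0 = 0 := MulChar.map_zero χ
    rw [this, zero_mul]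
  have hcopR : IsCoprime R r := by
    by_contra hc
    have h1 : resultant r R = 0 := by
      rw [resultant_eq_zero_iff]
      exact ⟨Or.inl hr.ne_zero, fun h => hc h.symm⟩
    apply hlam0
    unfold lam2
    rw [h1]
    have : ψ 0 = 0 := MulChar.map_zero ψ
    rw [this, mul_zero]
  have hcop : IsCoprime f r := IsCoprime.mul_left hcopP hcopR
  let Φ : F[X] → F[X] := fun h => f * (h /ₘ f) + (r * h) %ₘ f
  have hΦ : ∀ h ∈ Mon F n, Φ h ∈ Mon F n := by
    intro h hh
    rw [mem_Mon] at hh ⊢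
    have hdeg1 : ((r * h) %ₘ f).degree < f.degree := degree_modByMonic_lt _ hf
    have hfdeg : f.degree ≤ h.degree := by
      rw [degree_eq_natDegree hf.ne_zero, degree_eq_natDegree hh.1.ne_zero, hh.2]
      exact_mod_cast hn'
    have hmq : (h /ₘ f).Monic := by
      rw [Monic, leadingCoeff_divByMonic_of_monic hf hfdeg]
      exact hh.1
    have hfq : (f * (h /ₘ f)).Monic := hf.mul hmq
    have hnd : (f * (h /ₘ f)).natDegree = n := by
      rw [hf.natDegree_mul hmq, natDegree_divByMonic _ hf, hh.2]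
      omega
    have hdeg2 : ((r * h) %ₘ f).degree < (f * (h /ₘ f)).degree := by
      refine hdeg1.trans_le ?_
      rw [degree_eq_natDegree hf.ne_zero, degree_eq_natDegree hfq.ne_zero, hnd]
      exact_mod_cast hn'
    refine ⟨hfq.add_of_left hdeg2, ?_⟩
    change (f * (h /ₘ f) + (r * h) %ₘ f).natDegree = n
    rw [natDegree_add_eq_left_of_degree_lt hdeg2, hnd]
  have hinj : Set.InjOn Φ (Mon F n) := by
    intro g hg h hh hgh
    have hg' := mem_Mon.1 (mem_coe.1 hg)
    have hh' := mem_Mon.1 (mem_coe.1 hh)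
    have e1 : g /ₘ f = h /ₘ f ∧ (r * g) %ₘ f = (r * h) %ₘ f := by
      have hu1 := div_modByMonic_unique (f := Φ g) (g := f) (g /ₘ f) ((r * g) %ₘ f) hf
        ⟨by change (r * g) %ₘ f + f * (g /ₘ f) = f * (g /ₘ f) + (r * g) %ₘ f; ring,
          degree_modByMonic_lt _ hf⟩
      have hu2 := div_modByMonic_unique (f := Φ h) (g := f) (h /ₘ f) ((r * h) %ₘ f) hf
        ⟨by change (r * h) %ₘ f + f * (h /ₘ f) = f * (h /ₘ f) + (r * h) %ₘ f; ring,
          degree_modByMonic_lt _ hf⟩
      constructor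
      · rw [← hu1.1, ← hu2.1, hgh]
      · rw [← hu1.2, ← hu2.2, hgh]
    have e2 : f ∣ r * (g - h) := by
      have : (r * (g - h)) %ₘ f = 0 := by
        rw [mul_sub, sub_modByMonic, e1.2, sub_self]
      exact (modByMonic_eq_zero_iff_dvd hf).1 this
    have e3 : f ∣ g - h := hcop.dvd_of_dvd_mul_left e2
    have e4 : g - h = g %ₘ f - h %ₘ f := by
      have h1 := modByMonic_add_div g f
      have h2 := modByMonic_add_div h f
      calc g - h = (g %ₘ f + f * (g /ₘ f)) - (h %ₘ f + f * (h /ₘ f)) := by rw [h1, h2]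
        _ = g %ₘ f - h %ₘ f := by rw [e1.1]; ring
    have e5 : (g - h).degree < f.degree := by
      rw [e4]
      exact (degree_sub_le _ _).trans_lt
        (max_lt (degree_modByMonic_lt _ hf) (degree_modByMonic_lt _ hf))
    have e6 : g - h = 0 := eq_zero_of_dvd_of_degree_lt e3 e5
    exact sub_eq_zero.1 e6
  have hlamΦ : ∀ h ∈ Mon F n, lam2 χ ψ P R (Φ h) = lam2 χ ψ P R r * lam2 χ ψ P R h := by
    intro h hh
    have hΦh := mem_Mon.1 (hΦ h hh)
    rw [mem_Mon] at hh
    set t : F[X] := (r * h) /ₘ f - h /ₘ f with ht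
    have e1 : r * h = Φ h + f * t := by
      have h1 := modByMonic_add_div (r * h) f
      calc r * h = (r * h) %ₘ f + f * ((r * h) /ₘ f) := h1.symm
        _ = Φ h + f * t := by
          change _ = f * (h /ₘ f) + (r * h) %ₘ f + f * ((r * h) /ₘ f - h /ₘ f)
          ring
    have e2 : t.natDegree + d ≤ n + m := by
      have h1 : ((r * h) /ₘ f).natDegree = m + n - d := by
        rw [natDegree_divByMonic _ hf, hr.natDegree_mul hh.1, hh.2]
      have h2 : (h /ₘ f).natDegree = n - d := by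
        rw [natDegree_divByMonic _ hf, hh.2]
      have h3 := natDegree_sub_le ((r * h) /ₘ f) (h /ₘ f)
      rw [h1, h2] at h3
      have h4 : max (m + n - d) (n - d) ≤ m + n - d := max_le le_rfl (by omega)
      have h5 : t.natDegree ≤ m + n - d := h3.trans h4
      omega
    have eP := res_shift P hP r h (Φ h) (R * t) n m rfl hh.2 hΦh.2 (by rw [e1, hf0]; ring)
      (by
        have := natDegree_mul_le (p := R) (q := t)
        omega)
    have eR := res_shift R hR r h (Φ h) (P * t) n m rfl hh.2 hΦh.2 (by rw [e1, hf0]; ring)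
      (by
        have := natDegree_mul_le (p := P) (q := t)
        omega)
    have hsgn : ∀ k : ℕ, ((-1 : F)) ^ (k * m) = 1 := by
      intro k
      obtain ⟨j, hj⟩ := hev
      have : k * m = 2 * (k * j) := by rw [hj]; ring
      rw [this, pow_mul]
      simp
    rw [hsgn, one_mul] at eP eR
    unfold lam2
    rw [hΦh.2, hh.2, eP, eR, map_mul, map_mul, ← hm]
    ring
  have himg : (Mon F n).image Φ = Mon F n := by
    apply eq_of_subset_of_card_le
    · intro g hg
      obtain ⟨h, hh, rfl⟩ := mem_image.1 hg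
      exact hΦ h hh
    · rw [card_image_of_injOn hinj]
  have hsum : AL (lam2 χ ψ P R) n = lam2 χ ψ P R r * AL (lam2 χ ψ P R) n := by
    unfold AL
    conv_lhs => rw [← himg, sum_image hinj]
    rw [sum_congr rfl hlamΦ, mul_sum]
  have h1 : (1 - lam2 χ ψ P R r) * AL (lam2 χ ψ P R) n = 0 := by linear_combination hsum
  rcases mul_eq_zero.1 h1 with h2 | h2
  · exact absurd (sub_eq_zero.1 h2).symm hlam1
  · exact h2

end

section

variable {F E : Type} [Field F] [Fintype F] [DecidableEq F] [Field E] [Fintype E] [DecidableEq E]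
  [Algebra F E]

theorem TL2_char (χ ψ : MulChar F ℂ) (P R : F[X]) :
    TL (lam2 χ ψ P R) (Module.finrank F E) = ∑ x : E, χ (Algebra.norm F (aeval x P)) *
      ψ (Algebra.norm F (aeval x R)) := by
  rw [TL_eq_sum (E := E)]
  refine sum_congr rfl fun x _ => ?_
  rw [norm_aeval, norm_aeval, map_pow, map_pow, ← mul_pow]
  rfl

end

/-! ## twisted sums over a finite field, a bound that depends on the order of the twist -/

section

variable {E : Type} [Field E] [Fintype E] [DecidableEq E]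

/-- a simple factor of `P (c X ^ s)` -/
theorem comp_factor (P : E[X]) (v : E) (hv0 : v ≠ 0) (R : E[X]) (hPR : P = (X - C v) * R)
    (hRv : R.eval v ≠ 0) (s : ℕ) (hs : (s : E) ≠ 0) (c : E) (hc : c ≠ 0) :
    ∃ Q : E[X], Irreducible Q ∧ Q ∣ P.comp (C c * X ^ s) ∧ ¬ Q ^ 2 ∣ P.comp (C c * X ^ s) := by
  have hs0 : s ≠ 0 := by rintro rfl; simp at hs
  set A : E[X] := C c * X ^ s - C v with hA
  have hdeg : A.natDegree = s := by
    rw [hA]
    compute_degree!
    simpa [hs0] using hc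
  have hA0 : A ≠ 0 := by
    intro h
    rw [h, natDegree_zero] at hdeg
    exact hs0 hdeg.symm
  have hAu : ¬ IsUnit A := by
    intro h
    have := natDegree_eq_zero_of_isUnit h
    omega
  obtain ⟨Q, hQ, hQA⟩ := WfDvdMonoid.exists_irreducible_factor hAu hA0
  have hcomp : P.comp (C c * X ^ s) = A * R.comp (C c * X ^ s) := by
    rw [hPR, mul_comp, sub_comp, X_comp, C_comp]
  -- A is separable
  have hsep : A.Separable := by
    rw [hA]
    -- derivative is c s X^(s-1)
    have hd : derivative (C c * X ^ s - C v : E[X]) = C (c * s) * X ^ (s - 1) := by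
      rw [derivative_sub, derivative_C, sub_zero, derivative_C_mul_X_pow]
    rw [Separable, hd]
    -- X * derivative = s (A + v)
    refine ⟨-C v⁻¹, C (v⁻¹ * (s : E)⁻¹) * X, ?_⟩
    have e1 : (X : E[X]) * X ^ (s - 1) = X ^ s := by
      rw [← pow_succ']
      congr 1
      omega
    have e2 : C (v⁻¹ * (s : E)⁻¹) * X * (C (c * s) * X ^ (s - 1)) = C (v⁻¹ * c) * X ^ s := by
      calc C (v⁻¹ * (s : E)⁻¹) * X * (C (c * s) * X ^ (s - 1)) =
          (C (v⁻¹ * (s : E)⁻¹) * C (c * s)) * (X * X ^ (s - 1)) := by ring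
        _ = C (v⁻¹ * c) * X ^ s := by
          rw [e1, ← C_mul]
          congr 2
          field_simp
    rw [e2]
    have e3 : -C v⁻¹ * (C c * X ^ s - C v) + C (v⁻¹ * c) * X ^ s = C v⁻¹ * C v := by
      rw [C_mul]
      ring
    rw [e3, ← C_mul, inv_mul_cancel₀ hv0, C_1]
  have hcop : IsCoprime A (R.comp (C c * X ^ s)) := by
    -- R = (X - v) R1 + R(v)
    obtain ⟨R1, hR1⟩ : ∃ R1 : E[X], R = (X - C v) * R1 + C (R.eval v) := by
      obtain ⟨R1, hR1⟩ := dvd_iff_isRoot.2 (show IsRoot (R - C (R.eval v)) v by simp)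
      exact ⟨R1, by rw [← hR1]; ring⟩
    have e1 : R.comp (C c * X ^ s) = A * R1.comp (C c * X ^ s) + C (R.eval v) := by
      conv_lhs => rw [hR1]
      rw [add_comp, mul_comp, sub_comp, X_comp, C_comp, C_comp]
    refine ⟨-(C (R.eval v)⁻¹ * R1.comp (C c * X ^ s)), C (R.eval v)⁻¹, ?_⟩
    rw [e1]
    have e2 : C (R.eval v)⁻¹ * C (R.eval v) = (1 : E[X]) := by
      rw [← C_mul, inv_mul_cancel₀ hRv, C_1]
    linear_combination e2
  refine ⟨Q, hQ, ?_, ?_⟩
  · rw [hcomp]
    exact hQA.mul_right _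
  · rw [hcomp]
    intro h2
    have hQcop : IsCoprime (Q ^ 2) (R.comp (C c * X ^ s)) :=
      IsCoprime.pow_left (hcop.of_isCoprime_of_dvd_left hQA)
    have h3 : Q ^ 2 ∣ A := hQcop.dvd_of_dvd_mul_right h2
    have h4 := hsep.squarefree
    have h5 := h4 Q (by rwa [← sq])
    exact hQ.not_isUnit h5

/-- sums over `P (c y ^ s)` -/
theorem comp_sum (t : ℕ) (ht : 2 ≤ t) (htE : t ∣ Fintype.card E - 1) (χ : MulChar E ℂ) (hχ1 : χ ≠ 1)
    (hχ : χ ^ t = 1) (P : E[X]) (hP : P.Monic) (v : E) (hv0 : v ≠ 0) (R : E[X])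
    (hPR : P = (X - C v) * R) (hRv : R.eval v ≠ 0) (s : ℕ) (hs : (s : E) ≠ 0) (c : E) (hc : c ≠ 0) :
    ‖∑ y : E, χ (P.eval (c * y ^ s))‖ ≤ (P.natDegree * s : ℕ) * Real.sqrt (Fintype.card E) := by
  obtain ⟨Q, hQ, hQ1, hQ2⟩ := comp_factor P v hv0 R hPR hRv s hs c hc
  have hs0 : s ≠ 0 := by rintro rfl; simp at hs
  set G : E[X] := P.comp (C c * X ^ s) with hG
  have hdG : G.natDegree = P.natDegree * s := by
    rw [hG, natDegree_comp]
    congr 1
    rw [natDegree_C_mul_X_pow s c hc]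
  have hlc : G.leadingCoeff = c ^ P.natDegree := by
    rw [hG, leadingCoeff_comp (by rw [natDegree_C_mul_X_pow s c hc]; exact hs0), hP.leadingCoeff,
      one_mul, leadingCoeff_C_mul_X_pow]
  have hl0 : c ^ P.natDegree ≠ 0 := pow_ne_zero _ hc
  set G1 : E[X] := C (c ^ P.natDegree)⁻¹ * G with hG1
  have hG1m : G1.Monic := by
    rw [Monic, hG1, leadingCoeff_mul, leadingCoeff_C, hlc, inv_mul_cancel₀ hl0]
  have hu : IsUnit (C (c ^ P.natDegree)⁻¹ : E[X]) := by
    rw [isUnit_C]
    exact isUnit_iff_ne_zero.2 (inv_ne_zero hl0)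
  have hGG : G = C (c ^ P.natDegree) * G1 := by
    rw [hG1, ← mul_assoc, ← C_mul, mul_inv_cancel₀ hl0, C_1, one_mul]
  have hw := Pool.Agent.R318.PR.weil2 t ht htE χ hχ1 hχ G1 Q hG1m hQ (hQ1.mul_left _)
    (fun h => hQ2 ((hu.dvd_mul_left).1 h))
  have hdG1 : G1.natDegree = P.natDegree * s := by
    rw [hG1, natDegree_C_mul (inv_ne_zero hl0), hdG]
  rw [hdG1] at hw
  have e1 : ∑ y : E, χ (P.eval (c * y ^ s)) = χ (c ^ P.natDegree) * ∑ y : E, χ (G1.eval y) := by
    rw [mul_sum]
    apply sum_congr rfl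
    intro y _
    rw [← map_mul, ← eval_C_mul, ← hGG, hG, eval_comp]
    simp
  rw [e1, norm_mul]
  have h3 : ‖χ (c ^ P.natDegree)‖ ≤ 1 := WELE.mc_norm_le_one χ _
  calc _ ≤ 1 * ((P.natDegree * s : ℕ) * Real.sqrt (Fintype.card E)) :=
        mul_le_mul h3 hw (norm_nonneg _) zero_le_one
    _ = _ := one_mul _

/-- the twisted sum, with a bound that depends on the order `s` of the twist -/
theorem twist_weak (t : ℕ) (ht : 2 ≤ t) (htE : t ∣ Fintype.card E - 1) (χ : MulChar E ℂ) (hχ1 : χ ≠ 1)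
    (hχ : χ ^ t = 1) (P : E[X]) (hP : P.Monic) (v : E) (hv0 : v ≠ 0) (R : E[X])
    (hPR : P = (X - C v) * R) (hRv : R.eval v ≠ 0) (s : ℕ) (hs : (s : E) ≠ 0) (ψ : MulChar E ℂ)
    (hψ : ψ ^ s = 1) :
    ‖∑ x : E, χ (P.eval x) * ψ x‖ ≤ (P.natDegree * s + 1 : ℕ) * Real.sqrt (Fintype.card E) := by
  have hs0 : s ≠ 0 := by rintro rfl; simp at hs
  set S : ℂ := ∑ x : E, χ (P.eval x) * ψ x with hS
  have hcard : 2 ≤ Fintype.card E := Fintype.one_lt_card
  have hcR : (2 : ℝ) ≤ Fintype.card E := by exact_mod_cast hcard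
  have hsq1 : 1 ≤ Real.sqrt (Fintype.card E) := by
    rw [Real.one_le_sqrt]; linarith
  -- double sum
  have h1 : ∑ c : E, ψ c * ∑ y : E, χ (P.eval (c * y ^ s)) =
      (∑ c : E, ψ c) * χ (P.eval 0) + ((Fintype.card E : ℂ) - 1) * S := by
    have h2 : ∑ c : E, ψ c * ∑ y : E, χ (P.eval (c * y ^ s)) =
        ∑ y : E, ∑ c : E, ψ c * χ (P.eval (c * y ^ s)) := by
      rw [sum_comm]
      exact sum_congr rfl fun c _ => mul_sum _ _ _
    rw [h2, ← add_sum_erase univ _ (mem_univ (0 : E))]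
    congr 1
    · rw [sum_mul]
      apply sum_congr rfl
      intro c _
      rw [zero_pow hs0, mul_zero]
    · have h3 : ∀ y ∈ (univ : Finset E).erase 0, ∑ c : E, ψ c * χ (P.eval (c * y ^ s)) = S := by
        intro y hy
        have hy0 : y ≠ 0 := (mem_erase.1 hy).1
        have hys : y ^ s ≠ 0 := pow_ne_zero _ hy0
        rw [hS]
        refine Fintype.sum_equiv (Equiv.mulRight₀ (y ^ s) hys) _ _ fun c => ?_
        rw [Equiv.mulRight₀_apply, map_mul, mul_comm (ψ c)]
        congr 1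
        have h4 : ψ (y ^ s) = 1 := by
          rw [map_pow, ← MulChar.pow_apply' _ hs0, hψ, MulChar.one_apply]
          exact isUnit_iff_ne_zero.2 hy0
        rw [h4, mul_one]
      rw [sum_congr rfl h3, sum_const, card_erase_of_mem (mem_univ _), card_univ, nsmul_eq_mul]
      push_cast [Nat.cast_sub (by omega : 1 ≤ Fintype.card E)]
      ring
  have hψn : ∀ c : E, ‖ψ c‖ ≤ 1 := fun c => WELE.mc_norm_le_one ψ c
  have h5 : ‖∑ c : E, ψ c * ∑ y : E, χ (P.eval (c * y ^ s))‖ ≤
      ((Fintype.card E : ℝ) - 1) * ((P.natDegree * s : ℕ) * Real.sqrt (Fintype.card E)) := by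
    rw [← add_sum_erase univ _ (mem_univ (0 : E))]
    have h6 : ψ 0 * ∑ y : E, χ (P.eval (0 * y ^ s)) = 0 := by
      rw [MulChar.map_zero, zero_mul]
    rw [h6, zero_add]
    refine (norm_sum_le _ _).trans ?_
    calc ∑ c ∈ (univ : Finset E).erase 0, ‖ψ c * ∑ y : E, χ (P.eval (c * y ^ s))‖ ≤
        ∑ c ∈ (univ : Finset E).erase 0, ((P.natDegree * s : ℕ) * Real.sqrt (Fintype.card E)) := by
          apply sum_le_sum
          intro c hc
          have hc0 : c ≠ 0 := (mem_erase.1 hc).1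
          rw [norm_mul]
          calc _ ≤ 1 * ((P.natDegree * s : ℕ) * Real.sqrt (Fintype.card E)) :=
                mul_le_mul (hψn c) (comp_sum t ht htE χ hχ1 hχ P hP v hv0 R hPR hRv s hs c hc0)
                  (norm_nonneg _) zero_le_one
            _ = _ := one_mul _
      _ = _ := by
          rw [sum_const, card_erase_of_mem (mem_univ _), card_univ, nsmul_eq_mul,
            Nat.cast_sub (by omega : 1 ≤ Fintype.card E)]
          push_cast
          ring
  have h7 : ‖(∑ c : E, ψ c) * χ (P.eval 0)‖ ≤ (Fintype.card E : ℝ) - 1 := by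
    rw [norm_mul]
    have h8 : ‖∑ c : E, ψ c‖ ≤ (Fintype.card E : ℝ) - 1 := by
      rw [← add_sum_erase univ _ (mem_univ (0 : E)), MulChar.map_zero, zero_add]
      refine (norm_sum_le _ _).trans ?_
      calc ∑ c ∈ (univ : Finset E).erase 0, ‖ψ c‖ ≤ ∑ c ∈ (univ : Finset E).erase 0, (1 : ℝ) :=
            sum_le_sum fun c _ => hψn c
        _ = _ := by
            rw [sum_const, card_erase_of_mem (mem_univ _), card_univ, nsmul_eq_mul, mul_one,
              Nat.cast_sub (by omega : 1 ≤ Fintype.card E)]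
            push_cast
            ring
    calc _ ≤ ((Fintype.card E : ℝ) - 1) * 1 :=
          mul_le_mul h8 (WELE.mc_norm_le_one χ _) (norm_nonneg _) (by linarith)
      _ = _ := mul_one _
  have h8 : ((Fintype.card E : ℂ) - 1) * S =
      ∑ c : E, ψ c * ∑ y : E, χ (P.eval (c * y ^ s)) - (∑ c : E, ψ c) * χ (P.eval 0) := by
    rw [h1]; ring
  have h9 : ((Fintype.card E : ℝ) - 1) * ‖S‖ ≤ ((Fintype.card E : ℝ) - 1) *
      ((P.natDegree * s + 1 : ℕ) * Real.sqrt (Fintype.card E)) := by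
    have h10 : ‖((Fintype.card E : ℂ) - 1) * S‖ = ((Fintype.card E : ℝ) - 1) * ‖S‖ := by
      rw [norm_mul]
      congr 1
      have : ((Fintype.card E : ℂ) - 1) = (((Fintype.card E : ℝ) - 1 : ℝ) : ℂ) := by push_cast; ring
      rw [this, Complex.norm_real, Real.norm_eq_abs, abs_of_nonneg (by linarith)]
    rw [← h10, h8]
    refine (norm_sub_le _ _).trans ((add_le_add h5 h7).trans ?_)
    push_cast
    nlinarith
  exact le_of_mul_le_mul_left h9 (by linarith)

end

end Pool.Agent.KS6_33.EX
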