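import Pool.Agent.KS6_33.EX.WA

/-! # Weil's bound for mixed sums `∑ χ(P(x)) ψ(x)` -/

set_option autoImplicit false
set_option linter.unusedSectionVars false

namespace Pool.Agent.KS6_33.EX

open Polynomial Finset Pool.Agent.H341R2.Sharp IntermediateField Pool.Agent.H435R3.Weil

variable {F : Type} [Field F] [Fintype F] [DecidableEq F]

/-- in an extension of degree divisible by `deg Q` the polynomial has a simple root -/
theorem simple_root_ext (P Q : F[X]) (hP0 : P ≠ 0) (hQ : Irreducible Q) (hQP : Q ∣ P)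
    (hQ2 : ¬ Q ^ 2 ∣ P) (hQX : Q.eval 0 ≠ 0) (E : Type) [Field E] [Fintype E] [Algebra F E]
    (hdvd : Q.natDegree ∣ Module.finrank F E) :
    ∃ v : E, v ≠ 0 ∧ ∃ R : E[X], P.map (algebraMap F E) = (X - C v) * R ∧ R.eval v ≠ 0 := by
  classical
  have hcardE : (Nat.card F) ^ Module.finrank F E = Fintype.card E := by
    rw [Nat.card_eq_fintype_card, Module.card_eq_pow_finrank (K := F) (V := E)]
  have hsplit : (Q.map (algebraMap F E)).Splits := by
    have h4 : Q ∣ X ^ (Nat.card F) ^ Module.finrank F E - X :=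
      (hQ.natDegree_dvd_iff_dvd_X_pow_card_pow_sub_X).1 hdvd
    have h5 : (Q.map (algebraMap F E)) ∣ (X ^ (Nat.card F) ^ Module.finrank F E - X : E[X]) := by
      have := Polynomial.map_dvd (algebraMap F E) h4
      simpa using this
    rw [hcardE] at h5
    have h6 : (X ^ Fintype.card E - X : E[X]).Splits := by
      rw [splits_iff_card_roots, FiniteField.roots_X_pow_card_sub_X,
        FiniteField.X_pow_card_sub_X_natDegree_eq _ Fintype.one_lt_card]
      rfl
    exact h6.of_dvd (FiniteField.X_pow_card_sub_X_ne_zero _ Fintype.one_lt_card) h5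
  have hdegQ : (Q.map (algebraMap F E)).degree ≠ 0 := by
    rw [degree_map]
    exact (degree_pos_of_irreducible hQ).ne'
  obtain ⟨v, hv⟩ := hsplit.exists_eval_eq_zero hdegQ
  obtain ⟨g, hg⟩ := hQP
  have hQg : IsCoprime Q g := by
    rw [hQ.coprime_iff_not_dvd]
    intro h
    apply hQ2
    rw [hg, pow_two]
    exact mul_dvd_mul_left Q h
  have hgv : (g.map (algebraMap F E)).eval v ≠ 0 := by
    intro h0
    have h1 := hQg.map (Polynomial.mapRingHom (algebraMap F E))
    obtain ⟨u, w, huw⟩ := h1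
    have h2 := congrArg (eval v) huw
    simp only [coe_mapRingHom, eval_add, eval_mul, eval_one] at h2
    rw [hv, h0] at h2
    simp at h2
  have hv0 : v ≠ 0 := by
    rintro rfl
    apply hQX
    have h1 : algebraMap F E (Q.eval 0) = 0 := by
      rw [← hv, eval_zero_map]
    exact (map_eq_zero_iff _ (algebraMap F E).injective).1 h1
  obtain ⟨Q1, hQ1⟩ := dvd_iff_isRoot.2 (show IsRoot (Q.map (algebraMap F E)) v from hv)
  have hsep : (Q.map (algebraMap F E)).Separable :=
    (PerfectField.separable_of_irreducible hQ).map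
  have hQ1v : Q1.eval v ≠ 0 := by
    intro h0
    obtain ⟨Q2, hQ2'⟩ := dvd_iff_isRoot.2 (show IsRoot Q1 v from h0)
    have h1 := hsep.squarefree (X - C v) ⟨Q2, by rw [hQ1, hQ2']; ring⟩
    exact (irreducible_X_sub_C v).not_isUnit h1
  refine ⟨v, hv0, Q1 * g.map (algebraMap F E), ?_, ?_⟩
  · rw [hg, Polynomial.map_mul, hQ1]
    ring
  · rw [eval_mul]
    exact mul_ne_zero hQ1v hgv

/-- the bound in extensions, with a constant that does not depend on the extension -/
theorem T2_bound (t : ℕ) (ht : 2 ≤ t) (htF : t ∣ Fintype.card F - 1) (χ ψ : MulChar F ℂ)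
    (hχ1 : χ ≠ 1) (hχ : χ ^ t = 1) (P Q : F[X]) (hP : P.Monic) (hQ : Irreducible Q)
    (hQP : Q ∣ P) (hQ2 : ¬ Q ^ 2 ∣ P) (hQX : Q.eval 0 ≠ 0) :
    ∃ K : ℝ, 0 ≤ K ∧ ∀ m : ℕ, 1 ≤ m → Q.natDegree ∣ m →
      ‖TL (lam2 χ ψ P X) m‖ ≤ K * (Real.sqrt (Fintype.card F)) ^ m ∧
      ∃ (E : Type) (_ : Field E) (_ : Fintype E) (_ : DecidableEq E) (_ : Algebra F E),
        Module.finrank F E = m ∧ Fintype.card E = Fintype.card F ^ m ∧
        ‖∑ x : E, χ (Algebra.norm F (aeval x P)) * ψ (Algebra.norm F (aeval x (X : F[X])))‖ ≤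
          K * (Real.sqrt (Fintype.card F)) ^ m := by
  classical
  set s := orderOf ψ with hs
  have hspos : 0 < s := orderOf_pos ψ
  have hsdvd : s ∣ Fintype.card F - 1 := MulChar.orderOf_dvd_card_sub_one F ψ
  refine ⟨(P.natDegree * s + 1 : ℕ), by positivity, fun m hm hQm => ?_⟩
  obtain ⟨p, hp⟩ := CharP.exists F
  have : Fact (Nat.Prime p) := ⟨CharP.char_is_prime F p⟩
  have : NeZero m := ⟨by omega⟩
  let E := FiniteField.Extension F p m
  let _ : Fintype E := Fintype.ofFinite E
  have hfr : Module.finrank F E = m := FiniteField.finrank_extension F p m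
  have hcard : Fintype.card E = Fintype.card F ^ m := by
    rw [Module.card_eq_pow_finrank (K := F) (V := E), hfr]
  have htE : t ∣ Fintype.card E - 1 := by
    refine htF.trans ?_
    rw [hcard]
    simpa using Nat.sub_dvd_pow_sub_pow (Fintype.card F) 1 m
  obtain ⟨v, hv0, R, hPR, hRv⟩ := simple_root_ext P Q hP.ne_zero hQ hQP hQ2 hQX E (by rw [hfr]; exact hQm)
  have hsE : (s : E) ≠ 0 := by
    have h1 : (s : F) ≠ 0 := by
      intro h0
      have h2 : (p : ℕ) ∣ s := (CharP.cast_eq_zero_iff F p s).1 h0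
      have h3 : p ∣ Fintype.card F - 1 := h2.trans hsdvd
      have h4 : p ∣ Fintype.card F := by
        have h5 : ((Fintype.card F : ℕ) : F) = 0 := by
          rw [Nat.cast_card_eq_zero]
        exact (CharP.cast_eq_zero_iff F p _).1 h5
      have h6 : 1 ≤ Fintype.card F := Fintype.card_pos
      have h7 : p ∣ 1 := by
        have := (Nat.dvd_sub h4 h3)
        rwa [Nat.sub_sub_self h6] at this
      exact (Fact.out (p := p.Prime)).one_lt.ne' (Nat.dvd_one.1 h7)
    intro h0
    apply h1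
    have : algebraMap F E (s : F) = 0 := by rw [map_natCast]; exact h0
    exact (map_eq_zero_iff _ (algebraMap F E).injective).1 this
  have h1 := twist_weak (E := E) t ht htE (normChar F E χ) (normChar_ne_one F E χ hχ1)
    (normChar_pow F E χ t (by omega) hχ) (P.map (algebraMap F E)) (hP.map _) v hv0 R hPR hRv s hsE
    (normChar F E ψ) (normChar_pow F E ψ s (by omega) (pow_orderOf_eq_one ψ))
  rw [natDegree_map] at h1
  have h2 : Real.sqrt (Fintype.card E) = (Real.sqrt (Fintype.card F)) ^ m := by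
    rw [hcard]
    push_cast
    rw [Real.sqrt_eq_iff_mul_self_eq (by positivity) (by positivity), ← mul_pow,
      Real.mul_self_sqrt (by positivity)]
  rw [h2] at h1
  have h3 : ∀ x : E, normChar F E χ ((P.map (algebraMap F E)).eval x) * normChar F E ψ x =
      χ (Algebra.norm F (aeval x P)) * ψ (Algebra.norm F (aeval x (X : F[X]))) := by
    intro x
    rw [eval_map_algebraMap, normChar_apply, normChar_apply, aeval_X]
  simp_rw [h3] at h1
  refine ⟨?_, E, inferInstance, inferInstance, inferInstance, inferInstance, hfr, hcard, h1⟩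
  have h4 := TL2_char (E := E) χ ψ P X
  rw [hfr] at h4
  rw [h4]
  exact h1

theorem exists_r3 (t : ℕ) (ht : 2 ≤ t) (htF : t ∣ Fintype.card F - 1) (χ ψ : MulChar F ℂ)
    (hχ1 : χ ≠ 1) (hχ : χ ^ t = 1) (P Q : F[X]) (hP : P.Monic) (hQ : Irreducible Q)
    (hQP : Q ∣ P) (hQ2 : ¬ Q ^ 2 ∣ P) (hQX : Q.eval 0 ≠ 0) :
    ∃ r : F[X], r.Monic ∧ Even r.natDegree ∧ lam2 χ ψ P X r ≠ 0 ∧ lam2 χ ψ P X r ≠ 1 := by
  obtain ⟨K, hK, hb⟩ := T2_bound t ht htF χ ψ hχ1 hχ P Q hP hQ hQP hQ2 hQX
  set R : F[X] := X with hRdef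
  have hR : R.Monic := monic_X
  set q := Fintype.card F with hq
  have hq2 : 2 ≤ q := Fintype.one_lt_card
  set d := P.natDegree + R.natDegree with hd
  set e := Q.natDegree with he
  have he1 : 1 ≤ e := hQ.natDegree_pos
  -- the degree of the extension
  obtain ⟨k0, hk0⟩ : ∃ k : ℕ, K + d + 1 < k := exists_nat_gt _
  obtain ⟨k, hkdef⟩ : ∃ k : ℕ, k = e * k0 := ⟨_, rfl⟩
  have hk : K + d + 1 < k := by
    refine hk0.trans_le ?_
    have : k0 ≤ k := by rw [hkdef]; exact Nat.le_mul_of_pos_left _ (by omega)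
    exact_mod_cast this
  have hk1 : 1 ≤ k := by
    have : (0 : ℝ) < k := by have : (0 : ℝ) ≤ d := Nat.cast_nonneg d; linarith
    exact_mod_cast this
  obtain ⟨-, E, i1, i2, i3, i4, hfr, hcard, hbE⟩ := hb (2 * k) (by omega)
    ⟨2 * k0, by rw [hkdef]; ring⟩
  have hsq : (Real.sqrt q) ^ (2 * k) = (q : ℝ) ^ k := by
    rw [pow_mul, Real.sq_sqrt (by positivity)]
  rw [hsq] at hbE
  have hlt : k < q ^ k := Nat.lt_pow_self (by omega)
  have hfd : FiniteDimensional F E := Module.finite_of_finrank_pos (by rw [hfr]; omega)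
  have hex : ∃ x : E, χ (Algebra.norm F (aeval x P)) * ψ (Algebra.norm F (aeval x R)) ≠ 0 ∧
      χ (Algebra.norm F (aeval x P)) * ψ (Algebra.norm F (aeval x R)) ≠ 1 := by
    by_contra hno
    push Not at hno
    have h1 : ∀ x : E, (1 : ℝ) - (if aeval x (P * R) = 0 then 1 else 0) ≤
        (χ (Algebra.norm F (aeval x P)) * ψ (Algebra.norm F (aeval x R))).re := by
      intro x
      by_cases h0 : aeval x (P * R) = 0
      · rw [if_pos h0]
        by_cases h2 : χ (Algebra.norm F (aeval x P)) * ψ (Algebra.norm F (aeval x R)) = 0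
        · rw [h2]; simp
        · rw [hno x h2]; simp
      · rw [if_neg h0]
        rw [map_mul, mul_eq_zero, not_or] at h0
        have h2 : ∀ (ω : MulChar F ℂ) (z : E), z ≠ 0 → ω (Algebra.norm F z) ≠ 0 := by
          intro ω z hz
          have hu : IsUnit (Algebra.norm F z) :=
            isUnit_iff_ne_zero.2 ((Algebra.norm_ne_zero_iff).2 hz)
          exact (hu.map ω).ne_zero
        have h3 : χ (Algebra.norm F (aeval x P)) * ψ (Algebra.norm F (aeval x R)) ≠ 0 :=
          mul_ne_zero (h2 _ _ h0.1) (h2 _ _ h0.2)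
        rw [hno x h3]
        simp
    have h2 := Finset.sum_le_sum (s := univ) (fun x _ => h1 x)
    rw [sum_sub_distrib] at h2
    have hPR : (P * R).Monic := hP.mul hR
    have h3 : ∑ x : E, (if aeval x (P * R) = 0 then (1 : ℝ) else 0) ≤ d := by
      rw [sum_boole]
      have h4 : (univ.filter fun x : E => aeval x (P * R) = 0) ⊆ ((P * R).aroots E).toFinset := by
        intro x hx
        rw [mem_filter] at hx
        rw [Multiset.mem_toFinset, mem_aroots]
        exact ⟨hPR.ne_zero, hx.2⟩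
      have h5 := card_le_card h4
      have h6 := (Multiset.toFinset_card_le ((P * R).aroots E)).trans
        ((card_roots' _).trans (natDegree_map_le (p := P * R) (f := algebraMap F E)))
      rw [hP.natDegree_mul hR] at h6
      exact_mod_cast h5.trans h6
    have h4 : ∑ x : E, (1 : ℝ) = (q : ℝ) ^ k * (q : ℝ) ^ k := by
      rw [sum_const, card_univ, hcard, nsmul_eq_mul, mul_one]
      push_cast
      rw [← pow_add, two_mul]
    have h5 : ∑ x : E, (χ (Algebra.norm F (aeval x P)) *
          ψ (Algebra.norm F (aeval x R))).re ≤ K * (q : ℝ) ^ k := by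
      rw [← Complex.re_sum]
      exact (Complex.re_le_norm _).trans hbE
    rw [h4] at h2
    have h6 : (k : ℝ) < (q : ℝ) ^ k := by exact_mod_cast hlt
    have h7 : (0 : ℝ) ≤ d := Nat.cast_nonneg d
    have h8 : (q : ℝ) ^ k * (q : ℝ) ^ k - d ≤ K * (q : ℝ) ^ k := by linarith
    have h9 : (1 : ℝ) ≤ (q : ℝ) ^ k := one_le_pow₀ (by exact_mod_cast (by omega : 1 ≤ q))
    nlinarith
  obtain ⟨x, hx0, hx1⟩ := hex
  have hxi : IsIntegral F x := Algebra.IsIntegral.isIntegral x
  set M := minpoly F x with hM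
  have hMm : M.Monic := minpoly.monic hxi
  have hdvd : M.natDegree ∣ Module.finrank F E := (finrank_div x).2
  have hval : lam2 χ ψ P R (M ^ (Module.finrank F E / M.natDegree)) =
      χ (Algebra.norm F (aeval x P)) * ψ (Algebra.norm F (aeval x R)) := by
    rw [l_pow _ (lam2_one χ ψ P R) (fun g h hg hh => lam2_mul χ ψ P R g h hg hh) M hMm,
      norm_aeval, norm_aeval, map_pow, map_pow, ← mul_pow]
    rfl
  refine ⟨M ^ (Module.finrank F E / M.natDegree), hMm.pow _, ?_, ?_, ?_⟩
  · rw [hMm.natDegree_pow, Nat.div_mul_cancel hdvd, hfr]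
    exact even_two_mul k
  · rw [hval]; exact hx0
  · rw [hval]; exact hx1

/-- Weil's bound for mixed sums, for a monic polynomial with an irreducible factor different from `X` of
multiplicity one -/
theorem weil3 (t : ℕ) (ht : 2 ≤ t) (htF : t ∣ Fintype.card F - 1) (χ ψ : MulChar F ℂ)
    (hχ1 : χ ≠ 1) (hχ : χ ^ t = 1) (P Q : F[X]) (hP : P.Monic) (hQ : Irreducible Q)
    (hQP : Q ∣ P) (hQ2 : ¬ Q ^ 2 ∣ P) (hQX : Q.eval 0 ≠ 0) :
    ‖∑ x : F, χ (P.eval x) * ψ x‖ ≤ (P.natDegree + 1 : ℕ) * Real.sqrt (Fintype.card F) := by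
  classical
  obtain ⟨K, hK, hb⟩ := T2_bound t ht htF χ ψ hχ1 hχ P Q hP hQ hQP hQ2 hQX
  obtain ⟨r, hr, hev, hr0, hr1⟩ := exists_r3 t ht htF χ ψ hχ1 hχ P Q hP hQ hQP hQ2 hQX
  have hd' : P.natDegree + (X : F[X]).natDegree = P.natDegree + 1 := by simp
  set d := P.natDegree + 1 with hd
  set l := lam2 χ ψ P X with hl
  have hl1 : l 1 = 1 := lam2_one χ ψ P X
  have hlm : ∀ g h : F[X], g.Monic → h.Monic → l (g * h) = l g * l h :=
    fun g h hg hh => lam2_mul χ ψ P X g h hg hh
  have hA : ∀ n, d ≤ n → AL l n = 0 := fun n hn =>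
    AL2_eq_zero χ ψ P X r hP monic_X hr hev hr0 hr1 n (by rw [hd']; exact hn)
  set a : ℂ[X] := ∑ n ∈ range d, C (AL l n) * X ^ n with ha
  have hcoeff : ∀ n, a.coeff n = AL l n := by
    intro n
    rw [ha, finsetSum_coeff]
    simp_rw [coeff_C_mul_X_pow]
    by_cases hn : n < d
    · rw [sum_eq_single n]
      · simp
      · intro m _ hm
        rw [if_neg (Ne.symm hm)]
      · intro h
        exact absurd (mem_range.2 hn) h
    · rw [hA n (by omega)]
      rw [sum_eq_zero]
      intro m hm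
      rw [mem_range] at hm
      rw [if_neg (by omega)]
  have hdeg : a.natDegree ≤ d := by
    rw [natDegree_le_iff_coeff_eq_zero]
    intro n hn
    rw [hcoeff, hA n (by omega)]
  have hq0 : 0 < Real.sqrt (Fintype.card F) := Real.sqrt_pos.2 (by exact_mod_cast Fintype.card_pos)
  have hmain := Pool.Agent.R318.PR.coeff_one_bound_k Q.natDegree hQ.natDegree_pos a
    (by rw [hcoeff, AL_zero l hl1]) (fun m => TL l m)
    (Real.sqrt (Fintype.card F)) K hq0 hK
    (fun m hm hm' => (hb m hm hm').1)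
    (by
      intro n
      rw [hcoeff]
      have := n_mul_AL l hl1 hlm n
      simp_rw [hcoeff]
      exact this)
    d hdeg
  rw [hcoeff] at hmain
  have h1 := n_mul_AL l hl1 hlm 1
  rw [Icc_self, sum_singleton, Nat.sub_self, AL_zero l hl1] at h1
  have h2 := TL2_char (F := F) (E := F) χ ψ P X
  rw [Module.finrank_self] at h2
  have h3 : AL l 1 = ∑ x : F, χ (P.eval x) * ψ x := by
    have : AL l 1 = TL l 1 := by simpa using h1
    rw [this, hl, h2]
    simp
  rw [h3] at hmain
  exact hmain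

end Pool.Agent.KS6_33.EX
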