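import Pool.Agent.KS6_33.EX.WB
import Pool.Graph.R_seed8.R318.PR.Red

/-! # Mixed sums `∑ χ(F(c x)) ψ(x)` for an integer polynomial with a simple nonzero root -/

set_option autoImplicit false

namespace Pool.Agent.KS6_33.EX

open Polynomial

/-- the reduction of an integer polynomial -/
noncomputable def ev (F : ℤ[X]) (p : ℕ) (x : ZMod p) : ZMod p := (F.map (Int.castRingHom (ZMod p))).eval x

lemma ev_int (F : ℤ[X]) (p : ℕ) (n : ℤ) : ev F p (n : ZMod p) = ((F.eval n : ℤ) : ZMod p) := by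
  unfold ev
  rw [eval_intCast_map]
  rfl

theorem weilM (F : ℤ[X]) (z : ℂ) (hz : z ≠ 0) (h0 : aeval z F = 0) (h1 : aeval z (derivative F) ≠ 0) :
    ∃ M : ℕ, M ≠ 0 ∧ ∀ (p : ℕ) [Fact p.Prime], ¬ p ∣ M →
      (∀ χ ψ : DirichletCharacter ℂ p, χ ≠ 1 → ∀ c : ZMod p, c ≠ 0 →
        ‖∑ x : ZMod p, χ (ev F p (c * x)) * ψ x‖ ≤ (F.natDegree + 1 : ℕ) * Real.sqrt p) ∧
      (Finset.univ.filter (fun x : ZMod p => ev F p x = 0)).card ≤ F.natDegree := by
  classical
  have hF0 : F ≠ 0 := by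
    rintro rfl
    simp at h1
  -- split off the powers of `X`
  obtain ⟨F1, hF1, hF1X⟩ := exists_eq_pow_rootMultiplicity_mul_and_not_dvd F hF0 0
  set e := rootMultiplicity 0 F with he
  rw [C_0, sub_zero] at hF1 hF1X
  have hF1c : F1.coeff 0 ≠ 0 := fun h => hF1X (X_dvd_iff.2 h)
  have hF10 : F1 ≠ 0 := by
    rintro rfl
    simp at hF1c
  have hz1 : aeval z F1 = 0 := by
    rw [hF1, map_mul, map_pow, aeval_X] at h0
    exact (mul_eq_zero.1 h0).resolve_left (pow_ne_zero _ hz)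
  have hz2 : aeval z (derivative F1) ≠ 0 := by
    intro h2
    apply h1
    rw [hF1, derivative_mul, map_add, map_mul, map_mul, hz1, h2, mul_zero, mul_zero, add_zero]
  have hdeg1 : F1.natDegree ≤ F.natDegree := by
    rw [hF1, natDegree_mul (pow_ne_zero _ X_ne_zero) hF10]
    omega
  obtain ⟨M, hM, h⟩ := Pool.Agent.R318.PR.red F1 z hz1 hz2
  refine ⟨M * (F1.coeff 0).natAbs, mul_ne_zero hM (Int.natAbs_ne_zero.2 hF1c), fun p hp hpM => ?_⟩
  have hpM1 : ¬ p ∣ M := fun h2 => hpM (h2.mul_right _)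
  have hpc : ¬ p ∣ (F1.coeff 0).natAbs := fun h2 => hpM (h2.mul_left _)
  obtain ⟨hlc, Q, hQ, hQF, hQ2⟩ := h p hpM1
  set φ := Int.castRingHom (ZMod p) with hφ
  have hlc' : φ F1.leadingCoeff ≠ 0 := by simpa [hφ] using hlc
  have hdeg : (F1.map φ).natDegree = F1.natDegree := natDegree_map_of_leadingCoeff_ne_zero φ hlc'
  have hFm0 : F1.map φ ≠ 0 := by
    intro h2
    have := leadingCoeff_map_of_leadingCoeff_ne_zero φ hlc'
    rw [h2, leadingCoeff_zero] at this
    exact hlc' this.symm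
  have hmapF : F.map φ = X ^ e * F1.map φ := by
    conv_lhs => rw [hF1]
    rw [Polynomial.map_mul, Polynomial.map_pow, map_X]
  have hQ0 : Q.eval 0 ≠ 0 := by
    intro h2
    obtain ⟨g, hg⟩ := hQF
    have h3 : (F1.map φ).eval 0 = 0 := by rw [hg, eval_mul, h2, zero_mul]
    rw [← coeff_zero_eq_eval_zero, coeff_map] at h3
    have h4 : ((F1.coeff 0 : ℤ) : ZMod p) = 0 := h3
    rw [ZMod.intCast_zmod_eq_zero_iff_dvd] at h4
    exact hpc (Int.natCast_dvd.1 h4)
  have hpcard : Fintype.card (ZMod p) = p := ZMod.card p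
  constructor
  · intro χ ψ hχ c hc
    set ℓ := (F1.map φ).leadingCoeff with hℓ
    have hℓ0 : ℓ ≠ 0 := leadingCoeff_ne_zero.2 hFm0
    set P : (ZMod p)[X] := C ℓ⁻¹ * F1.map φ with hP
    have hPm : P.Monic := by
      rw [hP, Monic, leadingCoeff_mul, leadingCoeff_C, ← hℓ, inv_mul_cancel₀ hℓ0]
    have hFP : F1.map φ = C ℓ * P := by
      rw [hP, ← mul_assoc, ← C_mul, mul_inv_cancel₀ hℓ0, C_1, one_mul]
    have hu : IsUnit (C ℓ⁻¹) := by
      rw [isUnit_C]
      exact isUnit_iff_ne_zero.2 (inv_ne_zero hℓ0)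
    have hQP : Q ∣ P := hQF.mul_left _
    have hQP2 : ¬ Q ^ 2 ∣ P := by
      intro h2
      exact hQ2 ((hu.dvd_mul_left).1 h2)
    have hPd : P.natDegree = F1.natDegree := by
      rw [hP, natDegree_C_mul (inv_ne_zero hℓ0), hdeg]
    have hord : orderOf χ ∣ Fintype.card (ZMod p) - 1 := MulChar.orderOf_dvd_card_sub_one (ZMod p) χ
    have hord0 : orderOf χ ≠ 1 := fun h2 => hχ (orderOf_eq_one_iff.1 h2)
    have hord1 : 0 < orderOf χ := orderOf_pos χ
    have hw := weil3 (orderOf χ) (by omega) hord χ (χ ^ e * ψ) hχ (pow_orderOf_eq_one χ) P Q hPm hQ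
      hQP hQP2 hQ0
    rw [hPd, hpcard] at hw
    have e1 : ∑ x : ZMod p, χ (ev F p (c * x)) * ψ x =
        (ψ c)⁻¹ * χ ℓ * ∑ x : ZMod p, χ (P.eval x) * (χ ^ e * ψ) x := by
      have e2 : ∑ x : ZMod p, χ (P.eval x) * (χ ^ e * ψ) x =
          ∑ x : ZMod p, χ (P.eval (c * x)) * (χ ^ e * ψ) (c * x) := by
        symm
        exact Fintype.sum_equiv (Equiv.mulLeft₀ c hc) _ _ fun x => by rw [Equiv.mulLeft₀_apply]
      rw [e2, Finset.mul_sum]
      apply Finset.sum_congr rfl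
      intro x _
      by_cases hx : x = 0
      · rw [hx, MulChar.map_zero, mul_zero, mul_zero, MulChar.map_zero, mul_zero, mul_zero]
      · have hcx : c * x ≠ 0 := mul_ne_zero hc hx
        have h2 : ev F p (c * x) = (c * x) ^ e * (ℓ * P.eval (c * x)) := by
          unfold ev
          rw [← hφ, hmapF, hFP, eval_mul, eval_mul, eval_pow, eval_X, eval_C]
        have h3 : (χ ^ e * ψ) (c * x) = χ (c * x) ^ e * (ψ c * ψ x) := by
          rw [MulChar.mul_apply]
          congr 1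
          · have hu : IsUnit (c * x) := isUnit_iff_ne_zero.2 hcx
            obtain ⟨u, hu⟩ := hu
            rw [← hu, MulChar.pow_apply_coe]
          · rw [map_mul]
        have h4 : ψ c ≠ 0 := by
          have hu : IsUnit c := isUnit_iff_ne_zero.2 hc
          exact (hu.map ψ).ne_zero
        rw [h2, h3, map_mul, map_mul, map_pow]
        field_simp
    rw [e1, norm_mul, norm_mul]
    have h3 : ‖χ ℓ‖ ≤ 1 := DirichletCharacter.norm_le_one χ _
    have h4 : ‖(ψ c)⁻¹‖ ≤ 1 := by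
      have hu : IsUnit c := isUnit_iff_ne_zero.2 hc
      obtain ⟨u, hu⟩ := hu
      rw [norm_inv, ← hu, DirichletCharacter.unit_norm_eq_one ψ u, inv_one]
    have h5 : (((F1.natDegree + 1 : ℕ) : ℝ)) ≤ ((F.natDegree + 1 : ℕ) : ℝ) := by
      exact_mod_cast (by omega : F1.natDegree + 1 ≤ F.natDegree + 1)
    calc ‖(ψ c)⁻¹‖ * ‖χ ℓ‖ * ‖∑ x : ZMod p, χ (P.eval x) * (χ ^ e * ψ) x‖ ≤
        1 * 1 * ((F1.natDegree + 1 : ℕ) * Real.sqrt p) := by
          apply mul_le_mul _ hw (norm_nonneg _) (by norm_num)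
          exact mul_le_mul h4 h3 (norm_nonneg _) zero_le_one
      _ ≤ _ := by
          rw [one_mul, one_mul]
          exact mul_le_mul_of_nonneg_right h5 (Real.sqrt_nonneg _)
  · have hFm : F.map φ ≠ 0 := by
      rw [hmapF]
      exact mul_ne_zero (pow_ne_zero _ X_ne_zero) hFm0
    have h3 : (Finset.univ.filter (fun x : ZMod p => ev F p x = 0)) ⊆ (F.map φ).roots.toFinset := by
      intro x hx
      rw [Finset.mem_filter] at hx
      rw [Multiset.mem_toFinset, mem_roots hFm, IsRoot.def]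
      exact hx.2
    refine (Finset.card_le_card h3).trans ((Multiset.toFinset_card_le _).trans
      ((card_roots' _).trans natDegree_map_le))

end Pool.Agent.KS6_33.EX
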