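import Pool.Agent.KS6_33.EX.WC

/-! # Sums along the powers of an element modulo two primes -/

set_option autoImplicit false

namespace Pool.Agent.KS6_33.EX

open Finset

/-- the geometric sum -/
noncomputable def DK (K : ℕ) (w : ℂ) : ℂ := ∑ k ∈ range K, w ^ k

lemma DK_le (K : ℕ) (w : ℂ) (hw : ‖w‖ = 1) : ‖DK K w‖ ≤ K := by
  unfold DK
  refine (norm_sum_le _ _).trans ?_
  simp [norm_pow, hw]

lemma geom_zero (L : ℕ) (u : ℂ) (hu : u ^ L = 1) (hu1 : u ≠ 1) : ∑ k ∈ range L, u ^ k = 0 := by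
  have h := mul_neg_geom_sum u L
  rw [hu, sub_self] at h
  have : (1 - u) ≠ 0 := sub_ne_zero.2 (Ne.symm hu1)
  exact (mul_eq_zero.1 h).resolve_left this

lemma norm_zeta (L j : ℕ) (hj0 : 0 < j) (hjL : j < L) :
    4 * (min (j : ℝ) ((L : ℝ) - j)) / L ≤ ‖Complex.exp (2 * Real.pi * Complex.I / L) ^ j - 1‖ := by
  have hL0 : (0 : ℝ) < L := by exact_mod_cast (by omega : 0 < L)
  have hj0' : (0 : ℝ) < j := by exact_mod_cast hj0
  have hjL' : (j : ℝ) < L := by exact_mod_cast hjL
  have e1 : Complex.exp (2 * Real.pi * Complex.I / L) ^ j =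
      Complex.exp (Complex.I * ((2 * Real.pi * j / L : ℝ) : ℂ)) := by
    rw [← Complex.exp_nat_mul]
    congr 1
    push_cast
    field_simp
  rw [e1, Complex.norm_exp_I_mul_ofReal_sub_one]
  have e2 : 2 * Real.pi * j / L / 2 = Real.pi * j / L := by ring
  rw [e2]
  have hpi := Real.pi_pos
  have h1 : 2 * (min (j : ℝ) ((L : ℝ) - j)) / L ≤ Real.sin (Real.pi * j / L) := by
    rcases le_total ((j : ℝ)) ((L : ℝ) - j) with h | h
    · rw [min_eq_left h]
      have h2 : Real.pi * j / L ≤ Real.pi / 2 := by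
        rw [div_le_div_iff₀ hL0 (by norm_num)]
        nlinarith
      have h3 := Real.mul_le_sin (x := Real.pi * j / L) (by positivity) h2
      calc 2 * (j : ℝ) / L = 2 / Real.pi * (Real.pi * j / L) := by field_simp
        _ ≤ _ := h3
    · rw [min_eq_right h]
      have h0 : (0 : ℝ) ≤ (L : ℝ) - j := by linarith
      have h2 : Real.pi * ((L : ℝ) - j) / L ≤ Real.pi / 2 := by
        rw [div_le_div_iff₀ hL0 (by norm_num)]
        nlinarith
      have h3 := Real.mul_le_sin (x := Real.pi * ((L : ℝ) - j) / L) (by positivity) h2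
      have e3 : Real.sin (Real.pi * ((L : ℝ) - j) / L) = Real.sin (Real.pi * j / L) := by
        rw [← Real.sin_pi_sub]
        congr 1
        field_simp
        ring
      rw [e3] at h3
      calc 2 * ((L : ℝ) - j) / L = 2 / Real.pi * (Real.pi * ((L : ℝ) - j) / L) := by field_simp
        _ ≤ _ := h3
  calc 4 * (min (j : ℝ) ((L : ℝ) - j)) / L = 2 * (2 * (min (j : ℝ) ((L : ℝ) - j)) / L) := by ring
    _ ≤ 2 * Real.sin (Real.pi * j / L) := by linarith
    _ ≤ _ := by
      rw [Real.norm_eq_abs]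
      exact le_abs_self _

lemma sum_DK (L K : ℕ) (hL : 0 < L) :
    ∑ j ∈ range L, ‖DK K (Complex.exp (2 * Real.pi * Complex.I / L) ^ j)‖ ≤
      K + L * (1 + Real.log L) := by
  set ζ := Complex.exp (2 * Real.pi * Complex.I / L) with hζ
  have hprim : IsPrimitiveRoot ζ L := Complex.isPrimitiveRoot_exp L (by omega)
  have hLR : (0 : ℝ) < L := by exact_mod_cast hL
  have hζn : ‖ζ‖ = 1 := hprim.norm'_eq_one (by omega)
  obtain ⟨L', rfl⟩ : ∃ L', L = L' + 1 := ⟨L - 1, by omega⟩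
  rw [sum_range_succ']
  have h0 : ‖DK K (ζ ^ 0)‖ ≤ K := DK_le K _ (by rw [pow_zero, norm_one])
  have h1 : ∀ j ∈ range L', ‖DK K (ζ ^ (j + 1))‖ ≤ ((L' + 1 : ℕ) : ℝ) / 2 *
      (1 / ((j : ℝ) + 1) + 1 / (((L' - 1 - j : ℕ) : ℝ) + 1)) := by
    intro j hj
    rw [mem_range] at hj
    have hj1 : j + 1 < L' + 1 := by omega
    have h2 := norm_zeta (L' + 1) (j + 1) (by omega) hj1
    have h3 : (((L' - 1 - j : ℕ) : ℝ) + 1) = ((L' + 1 : ℕ) : ℝ) - ((j + 1 : ℕ) : ℝ) := by
      rw [Nat.cast_sub (by omega), Nat.cast_sub (by omega)]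
      push_cast
      ring
    have hja : (0 : ℝ) < ((j + 1 : ℕ) : ℝ) := by positivity
    have hjb : (0 : ℝ) < ((L' + 1 : ℕ) : ℝ) - ((j + 1 : ℕ) : ℝ) := by
      rw [← h3]; positivity
    set m := min (((j + 1 : ℕ) : ℝ)) (((L' + 1 : ℕ) : ℝ) - ((j + 1 : ℕ) : ℝ)) with hm
    have hm0 : 0 < m := lt_min hja hjb
    have hne : (0 : ℝ) < ‖ζ ^ (j + 1) - 1‖ := lt_of_lt_of_le (by positivity) h2
    have hne' : ζ ^ (j + 1) - 1 ≠ 0 := norm_pos_iff.1 hne
    have h4 : DK K (ζ ^ (j + 1)) = ((ζ ^ (j + 1)) ^ K - 1) / (ζ ^ (j + 1) - 1) := by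
      unfold DK
      exact geom_sum_eq (sub_ne_zero.1 hne') K
    rw [h4, norm_div]
    have h5 : ‖(ζ ^ (j + 1)) ^ K - 1‖ ≤ 2 := by
      refine (norm_sub_le _ _).trans ?_
      rw [norm_pow, norm_pow, hζn, one_pow, one_pow, norm_one]
      norm_num
    have h6 : ‖(ζ ^ (j + 1)) ^ K - 1‖ / ‖ζ ^ (j + 1) - 1‖ ≤ 2 / (4 * m / ((L' + 1 : ℕ) : ℝ)) := by
      apply div_le_div₀ (by norm_num) h5 (by positivity) h2
    refine h6.trans ?_
    have e1 : 2 / (4 * m / ((L' + 1 : ℕ) : ℝ)) = ((L' + 1 : ℕ) : ℝ) / 2 * (1 / m) := by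
      field_simp
      norm_num
    rw [e1]
    apply mul_le_mul_of_nonneg_left _ (by positivity)
    rw [h3]
    have e2 : ((j : ℝ) + 1) = ((j + 1 : ℕ) : ℝ) := by push_cast; ring
    rw [e2]
    rcases min_choice (((j + 1 : ℕ) : ℝ)) (((L' + 1 : ℕ) : ℝ) - ((j + 1 : ℕ) : ℝ)) with h | h
    · rw [hm, h]
      have : 0 ≤ 1 / (((L' + 1 : ℕ) : ℝ) - ((j + 1 : ℕ) : ℝ)) := by positivity
      linarith
    · rw [hm, h]
      have : 0 ≤ 1 / ((j + 1 : ℕ) : ℝ) := by positivity
      linarith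
  have h2 : ∑ j ∈ range L', (1 / ((j : ℝ) + 1)) ≤ 1 + Real.log ((L' + 1 : ℕ) : ℝ) := by
    rcases Nat.eq_zero_or_pos L' with h | h
    · subst h
      simp
    · have h3 := harmonic_le_one_add_log L'
      have h4 : ((harmonic L' : ℚ) : ℝ) = ∑ j ∈ range L', (1 / ((j : ℝ) + 1)) := by
        unfold harmonic
        push_cast
        apply sum_congr rfl
        intro i _
        rw [one_div]
      rw [h4] at h3
      refine h3.trans ?_
      have h5 : (0 : ℝ) < L' := by exact_mod_cast h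
      have : Real.log (L' : ℝ) ≤ Real.log ((L' + 1 : ℕ) : ℝ) := by
        apply Real.log_le_log h5
        push_cast
        linarith
      linarith
  have h3 : ∑ j ∈ range L', (1 / (((L' - 1 - j : ℕ) : ℝ) + 1)) = ∑ j ∈ range L', (1 / ((j : ℝ) + 1)) :=
    sum_range_reflect (fun j => 1 / ((j : ℝ) + 1)) L'
  calc ∑ j ∈ range L', ‖DK K (ζ ^ (j + 1))‖ + ‖DK K (ζ ^ 0)‖ ≤
      ∑ j ∈ range L', ((L' + 1 : ℕ) : ℝ) / 2 *
      (1 / ((j : ℝ) + 1) + 1 / (((L' - 1 - j : ℕ) : ℝ) + 1)) + K := add_le_add (sum_le_sum h1) h0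
    _ = ((L' + 1 : ℕ) : ℝ) * ∑ j ∈ range L', (1 / ((j : ℝ) + 1)) + K := by
        rw [← mul_sum, sum_add_distrib, h3]
        ring
    _ ≤ ((L' + 1 : ℕ) : ℝ) * (1 + Real.log ((L' + 1 : ℕ) : ℝ)) + K := by
        have := mul_le_mul_of_nonneg_left h2 hLR.le
        linarith
    _ = _ := by ring

/-- a function on the residues whose sums with all characters are at most `B` -/
def Bd (p : ℕ) [NeZero p] (h : ZMod p → ℂ) (B : ℝ) : Prop :=
  ∀ χ : DirichletCharacter ℂ p, ‖∑ y : ZMod p, h y * χ y‖ ≤ B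

lemma inv_formula (p : ℕ) [NeZero p] (h : ZMod p → ℂ) (x : ZMod p) (hx : IsUnit x) :
    h x = (∑ χ : DirichletCharacter ℂ p, (∑ y : ZMod p, h y * χ y) * χ x⁻¹) / (Nat.totient p : ℂ) := by
  have h1 : ∑ χ : DirichletCharacter ℂ p, (∑ y : ZMod p, h y * χ y) * χ x⁻¹ =
      (Nat.totient p : ℂ) * h x := by
    calc ∑ χ : DirichletCharacter ℂ p, (∑ y : ZMod p, h y * χ y) * χ x⁻¹ =
        ∑ χ : DirichletCharacter ℂ p, ∑ y : ZMod p, h y * (χ x⁻¹ * χ y) := by
          apply sum_congr rfl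
          intro χ _
          rw [sum_mul]
          apply sum_congr rfl
          intro y _
          ring
      _ = ∑ y : ZMod p, h y * ∑ χ : DirichletCharacter ℂ p, χ x⁻¹ * χ y := by
          rw [sum_comm]
          apply sum_congr rfl
          intro y _
          rw [mul_sum]
      _ = _ := by
          rw [sum_eq_single x]
          · rw [DirichletCharacter.sum_char_inv_mul_char_eq ℂ hx, if_pos rfl]
            ring
          · intro y _ hy
            rw [DirichletCharacter.sum_char_inv_mul_char_eq ℂ hx, if_neg (Ne.symm hy), mul_zero]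
          · intro hx'
            exact absurd (mem_univ x) hx'
  have h2 : (Nat.totient p : ℂ) ≠ 0 := by
    exact_mod_cast (Nat.totient_pos.2 (NeZero.pos p)).ne'
  rw [h1]
  field_simp

lemma inv_pow_unit (p : ℕ) (a : ZMod p) (ha : IsUnit a) (k : ℕ) : (a⁻¹) ^ k = (a ^ k)⁻¹ := by
  obtain ⟨u, hu⟩ := ha
  rw [← hu, ZMod.inv_coe_unit, ← Units.val_pow_eq_pow_val, ← Units.val_pow_eq_pow_val,
    ZMod.inv_coe_unit, inv_pow]

section

variable (p q : ℕ) [NeZero p] [NeZero q] (a : ZMod p) (b : ZMod q)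

/-- the value of a pair of characters -/
noncomputable def wv (c : DirichletCharacter ℂ p × DirichletCharacter ℂ q) : ℂ := c.1 a⁻¹ * c.2 b⁻¹

lemma count_fibre (ha : IsUnit a) (hb : IsUnit b) (L : ℕ) (hL : L = Nat.lcm (orderOf a) (orderOf b))
    (hL0 : 0 < L) (j : ℕ) :
    (((univ.filter (fun c => wv p q a b c = Complex.exp (2 * Real.pi * Complex.I / L) ^ j)).card : ℕ) : ℝ)
      = (Nat.totient p : ℝ) * (Nat.totient q : ℝ) / L := by
  classical
  set ζ := Complex.exp (2 * Real.pi * Complex.I / L) with hζ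
  have hprim : IsPrimitiveRoot ζ L := Complex.isPrimitiveRoot_exp L (by omega)
  have hζ0 : ζ ≠ 0 := hprim.ne_zero (by omega)
  have haL : a ^ L = 1 := by
    rw [← orderOf_dvd_iff_pow_eq_one, hL]
    exact Nat.dvd_lcm_left _ _
  have hbL : b ^ L = 1 := by
    rw [← orderOf_dvd_iff_pow_eq_one, hL]
    exact Nat.dvd_lcm_right _ _
  have hinva : ∀ k : ℕ, (a⁻¹) ^ k = (a ^ k)⁻¹ := by
    intro k
    exact inv_pow_unit p a ha k
  have hinvb : ∀ k : ℕ, (b⁻¹) ^ k = (b ^ k)⁻¹ := by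
    intro k
    exact inv_pow_unit q b hb k
  have hwk : ∀ (c : DirichletCharacter ℂ p × DirichletCharacter ℂ q) (k : ℕ),
      (wv p q a b c) ^ k = c.1 (a ^ k)⁻¹ * c.2 (b ^ k)⁻¹ := by
    intro c k
    unfold wv
    rw [mul_pow, ← map_pow, ← map_pow, hinva, hinvb]
  have hwL : ∀ c : DirichletCharacter ℂ p × DirichletCharacter ℂ q, (wv p q a b c) ^ L = 1 := by
    intro c
    rw [hwk, haL, hbL]
    simp
  have h1 : ∀ c : DirichletCharacter ℂ p × DirichletCharacter ℂ q,
      ∑ k ∈ range L, (wv p q a b c * (ζ ^ j)⁻¹) ^ k =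
        if wv p q a b c = ζ ^ j then (L : ℂ) else 0 := by
    intro c
    have hζj : ζ ^ j ≠ 0 := pow_ne_zero _ hζ0
    split_ifs with h
    · rw [h, mul_inv_cancel₀ hζj]
      simp
    · apply geom_zero
      · rw [mul_pow, hwL, inv_pow, ← pow_mul, mul_comm j L, pow_mul, hprim.pow_eq_one, one_pow,
          inv_one, one_mul]
      · intro h2
        apply h
        field_simp at h2
        exact h2
  have h2 : ∑ c : DirichletCharacter ℂ p × DirichletCharacter ℂ q,
      ∑ k ∈ range L, (wv p q a b c * (ζ ^ j)⁻¹) ^ k =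
      (Nat.totient p : ℂ) * (Nat.totient q : ℂ) := by
    rw [sum_comm]
    have h3 : ∀ k ∈ range L, ∑ c : DirichletCharacter ℂ p × DirichletCharacter ℂ q,
        (wv p q a b c * (ζ ^ j)⁻¹) ^ k =
        if k = 0 then (Nat.totient p : ℂ) * (Nat.totient q : ℂ) else 0 := by
      intro k hk
      rw [mem_range] at hk
      have h4 : ∑ c : DirichletCharacter ℂ p × DirichletCharacter ℂ q,
          (wv p q a b c * (ζ ^ j)⁻¹) ^ k =
          ((ζ ^ j)⁻¹) ^ k * ((∑ χ : DirichletCharacter ℂ p, χ (a ^ k)⁻¹) *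
            (∑ χ : DirichletCharacter ℂ q, χ (b ^ k)⁻¹)) := by
        rw [Fintype.sum_prod_type, sum_mul_sum, mul_sum]
        apply sum_congr rfl
        intro χ _
        rw [mul_sum]
        apply sum_congr rfl
        intro η _
        rw [mul_pow, hwk]
        ring
      rw [h4, DirichletCharacter.sum_characters_eq, DirichletCharacter.sum_characters_eq]
      by_cases hk0 : k = 0
      · subst hk0
        simp
      · rw [if_neg hk0]
        by_cases h5 : (a ^ k)⁻¹ = 1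
        · by_cases h6 : (b ^ k)⁻¹ = 1
          · exfalso
            have h8 : a ^ k = 1 := by
              have hu : IsUnit (a ^ k) := ha.pow k
              have := ZMod.mul_inv_of_unit _ hu
              rw [h5, mul_one] at this
              exact this
            have h9 : b ^ k = 1 := by
              have hu : IsUnit (b ^ k) := hb.pow k
              have := ZMod.mul_inv_of_unit _ hu
              rw [h6, mul_one] at this
              exact this
            have h10 : L ∣ k := by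
              rw [hL]
              exact Nat.lcm_dvd (orderOf_dvd_of_pow_eq_one h8) (orderOf_dvd_of_pow_eq_one h9)
            have := Nat.le_of_dvd (by omega) h10
            omega
          · rw [if_neg h6, mul_zero, mul_zero]
        · rw [if_neg h5, zero_mul, mul_zero]
    rw [sum_congr rfl h3, sum_ite_eq' (range L) 0]
    rw [if_pos (mem_range.2 hL0)]
  rw [sum_congr rfl (fun c _ => h1 c), ← sum_filter, sum_const, nsmul_eq_mul] at h2
  have hL0' : (L : ℝ) ≠ 0 := by exact_mod_cast (by omega : L ≠ 0)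
  rw [eq_div_iff hL0']
  have h5 : (((univ.filter (fun c => wv p q a b c = ζ ^ j)).card : ℂ)) * (L : ℂ) =
      (Nat.totient p : ℂ) * (Nat.totient q : ℂ) := h2
  exact_mod_cast h5

theorem pair_sum (ha : IsUnit a) (hb : IsUnit b) (L : ℕ) (hL : L = Nat.lcm (orderOf a) (orderOf b))
    (hL0 : 0 < L) (h : ZMod p → ℂ) (g : ZMod q → ℂ) (B C : ℝ) (hB0 : 0 ≤ B) (hC0 : 0 ≤ C)
    (hB : Bd p h B) (hC : Bd q g C) (K : ℕ) :
    ‖∑ k ∈ range K, h (a ^ k) * g (b ^ k)‖ ≤ B * C * ((K : ℝ) / L + (1 + Real.log L)) := by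
  classical
  set ζ := Complex.exp (2 * Real.pi * Complex.I / L) with hζ
  have : NeZero L := ⟨by omega⟩
  have hprim : IsPrimitiveRoot ζ L := Complex.isPrimitiveRoot_exp L (by omega)
  have hp0 : (0 : ℝ) < Nat.totient p := by exact_mod_cast Nat.totient_pos.2 (NeZero.pos p)
  have hq0 : (0 : ℝ) < Nat.totient q := by exact_mod_cast Nat.totient_pos.2 (NeZero.pos q)
  have hLR : (0 : ℝ) < L := by exact_mod_cast hL0
  have hinva : ∀ k : ℕ, (a⁻¹) ^ k = (a ^ k)⁻¹ := by
    intro k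
    exact inv_pow_unit p a ha k
  have hinvb : ∀ k : ℕ, (b⁻¹) ^ k = (b ^ k)⁻¹ := by
    intro k
    exact inv_pow_unit q b hb k
  have haL : a ^ L = 1 := by
    rw [← orderOf_dvd_iff_pow_eq_one, hL]
    exact Nat.dvd_lcm_left _ _
  have hbL : b ^ L = 1 := by
    rw [← orderOf_dvd_iff_pow_eq_one, hL]
    exact Nat.dvd_lcm_right _ _
  have hwk : ∀ (c : DirichletCharacter ℂ p × DirichletCharacter ℂ q) (k : ℕ),
      (wv p q a b c) ^ k = c.1 (a ^ k)⁻¹ * c.2 (b ^ k)⁻¹ := by
    intro c k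
    unfold wv
    rw [mul_pow, ← map_pow, ← map_pow, hinva, hinvb]
  have hwL : ∀ c : DirichletCharacter ℂ p × DirichletCharacter ℂ q, (wv p q a b c) ^ L = 1 := by
    intro c
    rw [hwk, haL, hbL]
    simp
  -- the expansion
  have h1 : ∑ k ∈ range K, h (a ^ k) * g (b ^ k) =
      (∑ c : DirichletCharacter ℂ p × DirichletCharacter ℂ q,
        (∑ y : ZMod p, h y * c.1 y) * (∑ y : ZMod q, g y * c.2 y) * DK K (wv p q a b c)) /
        ((Nat.totient p : ℂ) * (Nat.totient q : ℂ)) := by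
    rw [eq_div_iff (by exact_mod_cast (mul_pos hp0 hq0).ne')]
    rw [sum_mul]
    have h2 : ∀ k ∈ range K, h (a ^ k) * g (b ^ k) * ((Nat.totient p : ℂ) * (Nat.totient q : ℂ)) =
        ∑ c : DirichletCharacter ℂ p × DirichletCharacter ℂ q,
        (∑ y : ZMod p, h y * c.1 y) * (∑ y : ZMod q, g y * c.2 y) * (wv p q a b c) ^ k := by
      intro k _
      have e1 := inv_formula p h (a ^ k) (ha.pow k)
      have e2 := inv_formula q g (b ^ k) (hb.pow k)
      rw [eq_div_iff (by exact_mod_cast hp0.ne')] at e1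
      rw [eq_div_iff (by exact_mod_cast hq0.ne')] at e2
      calc h (a ^ k) * g (b ^ k) * ((Nat.totient p : ℂ) * (Nat.totient q : ℂ)) =
          (h (a ^ k) * (Nat.totient p : ℂ)) * (g (b ^ k) * (Nat.totient q : ℂ)) := by ring
        _ = _ := by
          rw [e1, e2, Fintype.sum_prod_type, sum_mul_sum]
          apply sum_congr rfl
          intro χ _
          apply sum_congr rfl
          intro η _
          rw [hwk]
          ring
    rw [sum_congr rfl h2, sum_comm]
    apply sum_congr rfl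
    intro c _
    rw [← mul_sum]
    rfl
  rw [h1, norm_div]
  have h3 : ‖((Nat.totient p : ℂ) * (Nat.totient q : ℂ))‖ = (Nat.totient p : ℝ) * (Nat.totient q : ℝ) := by
    rw [norm_mul, Complex.norm_natCast, Complex.norm_natCast]
  rw [h3, div_le_iff₀ (mul_pos hp0 hq0)]
  have h4 : ‖∑ c : DirichletCharacter ℂ p × DirichletCharacter ℂ q,
        (∑ y : ZMod p, h y * c.1 y) * (∑ y : ZMod q, g y * c.2 y) * DK K (wv p q a b c)‖ ≤
      B * C * ∑ c : DirichletCharacter ℂ p × DirichletCharacter ℂ q, ‖DK K (wv p q a b c)‖ := by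
    refine (norm_sum_le _ _).trans ?_
    rw [mul_sum]
    apply sum_le_sum
    intro c _
    rw [norm_mul, norm_mul]
    exact mul_le_mul_of_nonneg_right (mul_le_mul (hB c.1) (hC c.2) (norm_nonneg _) hB0) (norm_nonneg _)
  refine h4.trans ?_
  have h5 : ∑ c : DirichletCharacter ℂ p × DirichletCharacter ℂ q, ‖DK K (wv p q a b c)‖ =
      (Nat.totient p : ℝ) * (Nat.totient q : ℝ) / L * ∑ j ∈ range L, ‖DK K (ζ ^ j)‖ := by
    have h6 : ∀ c ∈ (univ : Finset (DirichletCharacter ℂ p × DirichletCharacter ℂ q)),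
        wv p q a b c ∈ (range L).image (fun j => ζ ^ j) := by
      intro c _
      obtain ⟨i, hi, hi2⟩ := hprim.eq_pow_of_pow_eq_one (hwL c)
      exact mem_image.2 ⟨i, mem_range.2 hi, hi2⟩
    rw [← sum_fiberwise_of_maps_to h6]
    rw [sum_image (by
      intro i hi j hj hij
      exact hprim.pow_inj (mem_range.1 (mem_coe.1 hi)) (mem_range.1 (mem_coe.1 hj)) hij)]
    rw [mul_sum]
    apply sum_congr rfl
    intro j _
    rw [← count_fibre p q a b ha hb L hL hL0 j]
    rw [sum_congr rfl (fun c hc => by rw [(mem_filter.1 hc).2]), sum_const, nsmul_eq_mul]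
  rw [h5]
  have h6 := sum_DK L K hL0
  rw [← hζ] at h6
  calc B * C * ((Nat.totient p : ℝ) * (Nat.totient q : ℝ) / L * ∑ j ∈ range L, ‖DK K (ζ ^ j)‖) ≤
      B * C * ((Nat.totient p : ℝ) * (Nat.totient q : ℝ) / L * (K + L * (1 + Real.log L))) := by
        gcongr
    _ = _ := by
        field_simp

end

end Pool.Agent.KS6_33.EX
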