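import Pool.Agent.KS6_33.EX.WC
import Pool.Agent.KS6_33.EX.XA
import Pool.Graph.R_seed8.R318.PR.FinB

/-! # The Fourier coefficients of the events along `F(c a ^ k)` -/

set_option autoImplicit false

namespace Pool.Agent.KS6_33.EX

open Finset Polynomial Pool.Agent.R459.Eq Pool.Agent.H730R2.AA Pool.Agent.R318.PR

/-- the centered event -/
noncomputable def hh (F : ℤ[X]) (c : ℤ) (p : ℕ) (f : ℤ → ℝ) (μ : ℝ) (y : ZMod p) : ℂ :=
  ((f (F.eval (c * (y.val : ℤ))) - μ : ℝ) : ℂ)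

lemma hh_pow (F : ℤ[X]) (c a : ℤ) (p : ℕ) [NeZero p] (f : ℤ → ℝ) (hper : Per p f) (μ : ℝ) (k : ℕ) :
    hh F c p f μ ((a : ZMod p) ^ k) = ((f (F.eval (c * a ^ k)) - μ : ℝ) : ℂ) := by
  unfold hh
  congr 2
  apply hper
  refine dvd_trans ?_ (sub_dvd_eval_sub _ _ F)
  rw [← mul_sub]
  apply Dvd.dvd.mul_left
  rw [← ZMod.intCast_eq_intCast_iff_dvd_sub]
  push_cast
  rw [ZMod.natCast_val, ZMod.cast_id]

lemma bd_gen (p : ℕ) [Fact p.Prime] (F : ℤ[X]) (d : ℕ)
    (hW : ∀ χ ψ : DirichletCharacter ℂ p, χ ≠ 1 → ∀ c : ZMod p, c ≠ 0 →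
        ‖∑ x : ZMod p, χ (ev F p (c * x)) * ψ x‖ ≤ (d + 1 : ℕ) * Real.sqrt p)
    (hz : (Finset.univ.filter (fun x : ZMod p => ev F p x = 0)).card ≤ d)
    (f : ℤ → ℝ) (hf : ∀ n, 0 ≤ f n ∧ f n ≤ 1) (μ T : ℝ)
    (hμ0 : 0 ≤ μ) (hμ2 : μ ≤ 2) (hT : 1 ≤ T)
    (β : DirichletCharacter ℂ p → ℂ) (hβ : ∑ χ ∈ NT p, ‖β χ‖ ≤ T)
    (hexp : ∀ n : ℤ, ¬ (p : ℤ) ∣ n → (f n : ℂ) = (μ : ℂ) + ∑ χ ∈ NT p, β χ * χ ((n : ℤ) : ZMod p))
    (c : ℤ) (hc : ¬ (p : ℤ) ∣ c) :
    Bd p (hh F c p f μ) (3 * (d + 1) * T * Real.sqrt p) := by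
  classical
  intro ψ
  have hpp := Fact.out (p := p.Prime)
  have hp1 : (1 : ℝ) ≤ p := by exact_mod_cast hpp.one_le
  have hs1 : 1 ≤ Real.sqrt p := by rw [Real.one_le_sqrt]; exact hp1
  have hc0 : (c : ZMod p) ≠ 0 := by
    rw [Ne, ZMod.intCast_zmod_eq_zero_iff_dvd]
    exact hc
  have hcast : ∀ y : ZMod p, ((F.eval (c * (y.val : ℤ)) : ℤ) : ZMod p) = ev F p ((c : ZMod p) * y) := by
    intro y
    rw [← ev_int]
    push_cast
    rw [ZMod.natCast_val, ZMod.cast_id]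
  -- the pointwise difference
  have h1 : ∀ y : ZMod p, ‖hh F c p f μ y * ψ y -
      (∑ χ ∈ NT p, β χ * χ (ev F p ((c : ZMod p) * y))) * ψ y‖ ≤
      (if ev F p ((c : ZMod p) * y) = 0 then 2 else 0) := by
    intro y
    rw [← sub_mul, norm_mul]
    have hψ : ‖ψ y‖ ≤ 1 := DirichletCharacter.norm_le_one ψ y
    split_ifs with hy
    · have h3 : ∑ χ ∈ NT p, β χ * χ (ev F p ((c : ZMod p) * y)) = 0 := by
        apply sum_eq_zero
        intro χ _
        rw [hy, MulChar.map_zero, mul_zero]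
      rw [h3, sub_zero]
      unfold hh
      have h4 : ‖((f (F.eval (c * (y.val : ℤ))) - μ : ℝ) : ℂ)‖ ≤ 2 := by
        rw [Complex.norm_real, Real.norm_eq_abs, abs_le]
        have := hf (F.eval (c * (y.val : ℤ)))
        constructor <;> linarith [this.1, this.2]
      calc _ ≤ 2 * 1 := mul_le_mul h4 hψ (norm_nonneg _) (by norm_num)
        _ = 2 := by norm_num
    · have h2 : ¬ (p : ℤ) ∣ F.eval (c * (y.val : ℤ)) := by
        rw [← ZMod.intCast_zmod_eq_zero_iff_dvd, hcast]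
        exact hy
      have h3 := hexp _ h2
      unfold hh
      rw [Complex.ofReal_sub, h3, hcast]
      simp
  have h2 : ‖∑ y : ZMod p, (hh F c p f μ y * ψ y -
      (∑ χ ∈ NT p, β χ * χ (ev F p ((c : ZMod p) * y))) * ψ y)‖ ≤ 2 * d := by
    refine (norm_sum_le _ _).trans ((sum_le_sum fun y _ => h1 y).trans ?_)
    rw [← sum_filter, sum_const, nsmul_eq_mul]
    have h3 : (univ.filter (fun y : ZMod p => ev F p ((c : ZMod p) * y) = 0)).card ≤ d := by
      refine le_trans ?_ hz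
      apply card_le_card_of_injOn (fun y => (c : ZMod p) * y)
      · intro y hy
        have hy' := (mem_filter.1 (mem_coe.1 hy)).2
        exact mem_coe.2 (mem_filter.2 ⟨mem_univ _, hy'⟩)
      · intro y _ z _ hyz
        exact mul_left_cancel₀ hc0 hyz
    have h4 : ((univ.filter (fun y : ZMod p => ev F p ((c : ZMod p) * y) = 0)).card : ℝ) ≤ d := by
      exact_mod_cast h3
    linarith
  have h3 : ‖∑ y : ZMod p, (∑ χ ∈ NT p, β χ * χ (ev F p ((c : ZMod p) * y))) * ψ y‖ ≤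
      T * ((d + 1 : ℕ) * Real.sqrt p) := by
    have e : ∑ y : ZMod p, (∑ χ ∈ NT p, β χ * χ (ev F p ((c : ZMod p) * y))) * ψ y =
        ∑ χ ∈ NT p, β χ * ∑ y : ZMod p, χ (ev F p ((c : ZMod p) * y)) * ψ y := by
      simp only [sum_mul, mul_sum]
      rw [sum_comm]
      apply sum_congr rfl
      intro χ _
      apply sum_congr rfl
      intro y _
      ring
    rw [e]
    refine (norm_sum_le _ _).trans ?_
    calc ∑ χ ∈ NT p, ‖β χ * ∑ y : ZMod p, χ (ev F p ((c : ZMod p) * y)) * ψ y‖ ≤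
        ∑ χ ∈ NT p, ‖β χ‖ * ((d + 1 : ℕ) * Real.sqrt p) := by
          apply sum_le_sum
          intro χ hχ
          have hχ1 : χ ≠ 1 := by
            simp only [NT, mem_filter] at hχ
            exact hχ.2
          rw [norm_mul]
          exact mul_le_mul_of_nonneg_left (hW χ ψ hχ1 _ hc0) (norm_nonneg _)
      _ = (∑ χ ∈ NT p, ‖β χ‖) * ((d + 1 : ℕ) * Real.sqrt p) := by rw [sum_mul]
      _ ≤ _ := mul_le_mul_of_nonneg_right hβ (by positivity)
  have h4 : ∑ y : ZMod p, hh F c p f μ y * ψ y =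
      ∑ y : ZMod p, (hh F c p f μ y * ψ y -
      (∑ χ ∈ NT p, β χ * χ (ev F p ((c : ZMod p) * y))) * ψ y) +
      ∑ y : ZMod p, (∑ χ ∈ NT p, β χ * χ (ev F p ((c : ZMod p) * y))) * ψ y := by
    rw [← sum_add_distrib]
    apply sum_congr rfl
    intro y _
    ring
  rw [h4]
  refine (norm_add_le _ _).trans ((add_le_add h2 h3).trans ?_)
  push_cast
  have hd0 : (0 : ℝ) ≤ d := Nat.cast_nonneg _
  have h7 : (1 : ℝ) ≤ T * Real.sqrt p := one_le_mul_of_one_le_of_one_le hT hs1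
  have h8 : 2 * (d : ℝ) * 1 ≤ 2 * (d + 1) * (T * Real.sqrt p) :=
    mul_le_mul (by linarith) h7 (by norm_num) (by positivity)
  calc 2 * (d : ℝ) + T * ((d + 1) * Real.sqrt p) ≤ 2 * (d + 1) * (T * Real.sqrt p) + T * ((d + 1) * Real.sqrt p) := by
        linarith
    _ = _ := by ring

/-- an event modulo `p` with an expansion in characters -/
structure Ev (p : ℕ) (f : ℤ → ℝ) (μ : ℝ) : Prop where
  mem : ∀ n, 0 ≤ f n ∧ f n ≤ 1
  per : Per p f
  mu0 : 0 ≤ μ
  mu2 : μ ≤ 2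
  ex : ∃ β : DirichletCharacter ℂ p → ℂ, ∑ χ ∈ NT p, ‖β χ‖ ≤ ((p - 1).divisors.card : ℝ) ∧
    ∀ n : ℤ, ¬ (p : ℤ) ∣ n → (f n : ℂ) = (μ : ℂ) + ∑ χ ∈ NT p, β χ * χ ((n : ℤ) : ZMod p)

lemma tau_one (p : ℕ) (hpp : p.Prime) : (1 : ℝ) ≤ ((p - 1).divisors.card : ℝ) := by
  have h3 : 0 < (p - 1).divisors.card := by
    rw [card_pos, Nat.nonempty_divisors]
    have := hpp.two_le
    omega
  exact_mod_cast h3

lemma bd_ev (p : ℕ) [Fact p.Prime] (F : ℤ[X]) (d : ℕ)
    (hW : ∀ χ ψ : DirichletCharacter ℂ p, χ ≠ 1 → ∀ c : ZMod p, c ≠ 0 →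
        ‖∑ x : ZMod p, χ (ev F p (c * x)) * ψ x‖ ≤ (d + 1 : ℕ) * Real.sqrt p)
    (hz : (Finset.univ.filter (fun x : ZMod p => ev F p x = 0)).card ≤ d)
    (f : ℤ → ℝ) (μ : ℝ) (hE : Ev p f μ) (c : ℤ) (hc : ¬ (p : ℤ) ∣ c) :
    Bd p (hh F c p f μ) (3 * (d + 1) * ((p - 1).divisors.card : ℝ) * Real.sqrt p) := by
  obtain ⟨β, h1, h2⟩ := hE.ex
  exact bd_gen p F d hW hz f hE.mem μ _ hE.mu0 hE.mu2 (tau_one p (Fact.out)) β h1 h2 c hc

/-! ## the three events -/

lemma ev_sq (p : ℕ) (hpp : p.Prime) (hp : p ≠ 2) (D : ℤ) (hD : ¬ (p : ℤ) ∣ D) :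
    Ev p (ind D p) (cc D p) := by
  classical
  have : Fact p.Prime := ⟨hpp⟩
  obtain ⟨β, h1, h2, _⟩ := expand p hp D hD
  have hcc := cc_mem D p
  refine ⟨ind_mem D p, ind_per D p, hcc.1, hcc.2, β, ?_, ?_⟩
  · refine le_trans ?_ h2
    apply sum_le_sum_of_subset_of_nonneg
    · intro χ _
      exact mem_univ _
    · intro χ _ _
      exact norm_nonneg _
  · intro n hn
    obtain ⟨m, hm⟩ := natres p hpp.pos n
    rw [ind_per D p n m hm]
    have e1 : ((n : ℤ) : ZMod p) = ((m : ℕ) : ZMod p) := by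
      have := (ZMod.intCast_eq_intCast_iff_dvd_sub (m : ℤ) n p).2 hm
      rw [← this]
      simp
    have hm' : ¬ p ∣ m := by
      intro h
      apply hn
      have := dvd_add hm (Int.natCast_dvd_natCast.2 h)
      rwa [sub_add_cancel] at this
    have h3 := h1 m
    rw [if_neg hm'] at h3
    rw [e1]
    unfold cc
    rw [← h3]
    unfold ind
    split_ifs <;> simp

open Pool.Agent.H730R2.AA.Exp in
lemma ev_pri (p : ℕ) (hpp : p.Prime) : Ev p (pri p) (rho p) := by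
  classical
  have : Fact p.Prime := ⟨hpp⟩
  refine ⟨pri_mem p, pri_per p, ox_rho0 p, (ox_rho1 p).trans (by norm_num), fun χ => fc gen χ, ?_, ?_⟩
  · refine le_trans ?_ fc_gen_sum
    apply sum_le_sum_of_subset_of_nonneg
    · intro χ _
      exact mem_univ _
    · intro χ _ _
      exact norm_nonneg _
  · intro n hn
    have hu : IsUnit ((n : ℤ) : ZMod p) := by
      rw [isUnit_iff_ne_zero, Ne, ZMod.intCast_zmod_eq_zero_iff_dvd]
      exact hn
    obtain ⟨a, ha⟩ := hu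
    have h1 := fc_inv gen a
    rw [← add_sum_erase univ _ (mem_univ (1 : DirichletCharacter ℂ p)), fc_gen_one,
      MulChar.one_apply_coe, mul_one] at h1
    have h2 : (univ : Finset (DirichletCharacter ℂ p)).erase 1 = NT p := by
      unfold NT
      ext χ
      simp
    rw [h2] at h1
    rw [← ha, h1]
    unfold pri gen
    rw [← ha, orderOf_units]
    split_ifs <;> simp

open Pool.Agent.H730R2.AA.Exp in
lemma ev_qu (p : ℕ) (hpp : p.Prime) (hp : p ≠ 2) (D : ℤ) (hD : ¬ (p : ℤ) ∣ D) :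
    Ev p (qu D p) (1 / 2) := by
  classical
  have : Fact p.Prime := ⟨hpp⟩
  have hdiv : (1 : ℝ) ≤ ((p - 1).divisors.card : ℝ) := tau_one p hpp
  refine ⟨qu_mem D p, qu_per D p, by norm_num, by norm_num,
    (fun χ => if χ = qc p then qc p ((D : ℤ) : ZMod p) / 2 else 0), ?_, ?_⟩
  · refine le_trans ?_ hdiv
    have hq : qc p ∈ NT p := by
      simp only [NT, mem_filter]
      exact ⟨mem_univ _, qc_ne hp⟩
    rw [sum_eq_single (qc p)]
    · beta_reduce
      rw [if_pos rfl, norm_div]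
      have := DirichletCharacter.norm_le_one (qc p) ((D : ℤ) : ZMod p)
      rw [Complex.norm_ofNat]
      linarith
    · intro χ _ h
      beta_reduce
      rw [if_neg h, norm_zero]
    · intro h
      exact absurd hq h
  · intro n hn
    have hq : qc p ∈ NT p := by
      simp only [NT, mem_filter]
      exact ⟨mem_univ _, qc_ne hp⟩
    rw [sum_eq_single (qc p)]
    · beta_reduce
      rw [if_pos rfl]
      have e1 : qc p ((D : ℤ) : ZMod p) / 2 * qc p ((n : ℤ) : ZMod p) =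
          qc p (((D * n : ℤ)) : ZMod p) / 2 := by
        push_cast
        rw [map_mul]
        ring
      rw [e1]
      have hDn : (((D * n : ℤ)) : ZMod p) ≠ 0 := by
        rw [Ne, ZMod.intCast_zmod_eq_zero_iff_dvd]
        intro h
        rcases (Nat.prime_iff_prime_int.1 hpp).dvd_or_dvd h with h | h
        · exact hD h
        · exact hn h
      have e2 : qc p (((D * n : ℤ)) : ZMod p) =
          ((quadraticChar (ZMod p) (((D * n : ℤ)) : ZMod p) : ℤ) : ℂ) := by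
        unfold qc
        rw [MulChar.ringHomComp_apply]
        rfl
      rw [e2]
      unfold qu
      split_ifs with hsq
      · rw [(quadraticChar_one_iff_isSquare hDn).2 hsq]
        push_cast
        norm_num
      · have : quadraticChar (ZMod p) (((D * n : ℤ)) : ZMod p) = -1 :=
          quadraticChar_neg_one_iff_not_isSquare.2 hsq
        rw [this]
        push_cast
        norm_num
    · intro χ _ h
      beta_reduce
      rw [if_neg h, zero_mul]
    · intro h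
      exact absurd hq h

end Pool.Agent.KS6_33.EX
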