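import Pool.Agent.KS6_33.EX.XB
import Pool.Agent.KS6_33.EX.EB

/-! # The second moment along `F(c a ^ k)` -/

set_option autoImplicit false

namespace Pool.Agent.KS6_33.EX

open Finset Polynomial Pool.Agent.R459.Eq Pool.Agent.H730R2.AA Pool.Agent.R318.PR

/-- pairs of primes with a large common divisor of `p - 1` and `q - 1` -/
lemma pairs_gcd (x G : ℕ) (hG : 1 ≤ G) :
    ((((Px x) ×ˢ (Px x)).filter (fun c => G < Nat.gcd (c.1 - 1) (c.2 - 1))).card : ℝ) ≤ (x : ℝ) ^ 2 / G := by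
  classical
  have hG0 : (0 : ℝ) < G := by exact_mod_cast hG
  have h1 : ((Px x) ×ˢ (Px x)).filter (fun c => G < Nat.gcd (c.1 - 1) (c.2 - 1)) ⊆
      (Ioc G (G + x)).biUnion (fun g => ((Px x).filter (fun p => g ∣ p - 1)) ×ˢ
        ((Px x).filter (fun p => g ∣ p - 1))) := by
    rintro ⟨p, q⟩ hc
    rw [mem_filter, mem_product] at hc
    obtain ⟨⟨hp, hq⟩, hg⟩ := hc
    simp only at hp hq hg
    rw [mem_biUnion]
    refine ⟨Nat.gcd (p - 1) (q - 1), ?_, ?_⟩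
    · rw [mem_Ioc]
      refine ⟨hg, ?_⟩
      rw [mem_Px] at hp
      have h2 := Nat.le_of_dvd (by have := hp.2.two_le; omega) (Nat.gcd_dvd_left (p - 1) (q - 1))
      omega
    · rw [mem_product, mem_filter, mem_filter]
      exact ⟨⟨hp, Nat.gcd_dvd_left _ _⟩, ⟨hq, Nat.gcd_dvd_right _ _⟩⟩
  have h2 : ∀ g ∈ Ioc G (G + x), ((((Px x).filter (fun p => g ∣ p - 1)) ×ˢ
        ((Px x).filter (fun p => g ∣ p - 1))).card : ℝ) ≤ (x : ℝ) ^ 2 * ((g : ℝ) ^ 2)⁻¹ := by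
    intro g hg
    rw [mem_Ioc] at hg
    have hg0 : (0 : ℝ) < g := by exact_mod_cast (by omega : 0 < g)
    have h3 : ((Px x).filter (fun p => g ∣ p - 1)).card ≤ x / g := by
      rw [← Nat.Ioc_filter_dvd_card_eq_div]
      apply card_le_card_of_injOn (fun p => p - 1)
      · intro p hp
        have hp' := mem_filter.1 (mem_coe.1 hp)
        rw [mem_Px] at hp'
        have := hp'.1.2.two_le
        refine mem_coe.2 (mem_filter.2 ⟨mem_Ioc.2 ?_, hp'.2⟩)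
        dsimp only
        omega
      · intro p hp q hq hpq
        have hp' := mem_filter.1 (mem_coe.1 hp)
        have hq' := mem_filter.1 (mem_coe.1 hq)
        rw [mem_Px] at hp' hq'
        have := hp'.1.2.two_le
        have := hq'.1.2.two_le
        dsimp only at hpq
        omega
    have h4 : (((Px x).filter (fun p => g ∣ p - 1)).card : ℝ) ≤ (x : ℝ) / g :=
      le_trans (by exact_mod_cast h3) Nat.cast_div_le
    rw [card_product]
    push_cast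
    calc _ ≤ ((x : ℝ) / g) * (x / g) := mul_le_mul h4 h4 (Nat.cast_nonneg _) (by positivity)
      _ = _ := by field_simp
  have h3 := (card_le_card h1).trans card_biUnion_le
  have h4 : ((((Px x) ×ˢ (Px x)).filter (fun c => G < Nat.gcd (c.1 - 1) (c.2 - 1))).card : ℝ) ≤
      ∑ g ∈ Ioc G (G + x), ((((Px x).filter (fun p => g ∣ p - 1)) ×ˢ
        ((Px x).filter (fun p => g ∣ p - 1))).card : ℝ) := by exact_mod_cast h3
  refine h4.trans ((sum_le_sum h2).trans ?_)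
  rw [← mul_sum]
  have h5 := sum_Ioc_inv_sq_le_sub (α := ℝ) (k := G) (n := G + x) (by omega) (by omega)
  have h6 : (0 : ℝ) ≤ ((G + x : ℕ) : ℝ)⁻¹ := by positivity
  rw [div_eq_mul_inv]
  apply mul_le_mul_of_nonneg_left _ (by positivity)
  linarith

/-- one pair of primes -/
lemma one_pair (a c : ℤ) (F : ℤ[X]) (d x G K : ℕ) (R : ℝ) (hR : 0 < R) (hG : 1 ≤ G) (p q : ℕ)
    (hp : p.Prime) (hq : q.Prime) (hpx : p ≤ x) (hqx : q ≤ x) (hpa : ¬ (p : ℤ) ∣ a) (hqa : ¬ (q : ℤ) ∣ a)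
    (hpR : R ≤ (orderOf (a : ZMod p) : ℝ)) (hqR : R ≤ (orderOf (a : ZMod q) : ℝ))
    (hgcd : Nat.gcd (p - 1) (q - 1) ≤ G) (f g : ℤ → ℝ) (μ ν : ℝ) (hf : Per p f) (hg : Per q g)
    (B C : ℝ) (hB0 : 0 ≤ B) (hC0 : 0 ≤ C)
    (hB : haveI := NeZero.mk hp.ne_zero; Bd p (hh F c p f μ) B)
    (hC : haveI := NeZero.mk hq.ne_zero; Bd q (hh F c q g ν) C) :
    |∑ k ∈ range K, (f (F.eval (c * a ^ k)) - μ) * (g (F.eval (c * a ^ k)) - ν)| ≤
      B * C * (K * G / R ^ 2 + (1 + 2 * Real.log x)) := by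
  haveI : Fact p.Prime := ⟨hp⟩
  haveI : Fact q.Prime := ⟨hq⟩
  have h0 : (a : ZMod p) ≠ 0 := by
    rw [Ne, ZMod.intCast_zmod_eq_zero_iff_dvd]
    exact hpa
  have h0' : (a : ZMod q) ≠ 0 := by
    rw [Ne, ZMod.intCast_zmod_eq_zero_iff_dvd]
    exact hqa
  have hT : 0 < orderOf (a : ZMod p) := by
    have : (0 : ℝ) < (orderOf (a : ZMod p) : ℝ) := lt_of_lt_of_le hR hpR
    exact_mod_cast this
  have hT' : 0 < orderOf (a : ZMod q) := by
    have : (0 : ℝ) < (orderOf (a : ZMod q) : ℝ) := lt_of_lt_of_le hR hqR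
    exact_mod_cast this
  obtain ⟨L, hL⟩ : ∃ L, L = Nat.lcm (orderOf (a : ZMod p)) (orderOf (a : ZMod q)) := ⟨_, rfl⟩
  have hL0 : 0 < L := by rw [hL]; exact Nat.lcm_pos hT hT'
  have hTd : orderOf (a : ZMod p) ∣ p - 1 := orderOf_dvd_of_pow_eq_one (ZMod.pow_card_sub_one_eq_one h0)
  have hTd' : orderOf (a : ZMod q) ∣ q - 1 := orderOf_dvd_of_pow_eq_one (ZMod.pow_card_sub_one_eq_one h0')
  have hp2 := hp.two_le
  have hq2 := hq.two_le
  have hgg : Nat.gcd (orderOf (a : ZMod p)) (orderOf (a : ZMod q)) ≤ G := by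
    refine le_trans (Nat.le_of_dvd ?_ (Nat.gcd_dvd_gcd_of_dvd_left _ hTd |>.trans (Nat.gcd_dvd_gcd_of_dvd_right _ hTd'))) hgcd
    exact Nat.gcd_pos_of_pos_left _ (by omega)
  have hGL := Nat.gcd_mul_lcm (orderOf (a : ZMod p)) (orderOf (a : ZMod q))
  rw [← hL] at hGL
  have hL1 : (1 : ℝ) ≤ L := by exact_mod_cast hL0
  have hLx : L ≤ x ^ 2 := by
    have h1 : orderOf (a : ZMod p) ≤ x := (Nat.le_of_dvd (by omega) hTd).trans (by omega)
    have h2 : orderOf (a : ZMod q) ≤ x := (Nat.le_of_dvd (by omega) hTd').trans (by omega)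
    have h3 : L ≤ orderOf (a : ZMod p) * orderOf (a : ZMod q) := by
      rw [hL]
      exact Nat.le_of_dvd (Nat.mul_pos hT hT') (Nat.lcm_dvd_mul _ _)
    calc L ≤ orderOf (a : ZMod p) * orderOf (a : ZMod q) := h3
      _ ≤ x * x := Nat.mul_le_mul h1 h2
      _ = x ^ 2 := (sq x).symm
  have hx1 : (1 : ℝ) ≤ x := by exact_mod_cast (by omega : 1 ≤ x)
  have hlog : Real.log L ≤ 2 * Real.log x := by
    have h1 : Real.log L ≤ Real.log ((x : ℝ) ^ 2) := Real.log_le_log (by linarith) (by exact_mod_cast hLx)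
    rw [Real.log_pow] at h1
    exact_mod_cast h1
  have hKL : (K : ℝ) / L ≤ K * G / R ^ 2 := by
    have hG0 : (0 : ℝ) < G := by exact_mod_cast hG
    rw [div_le_div_iff₀ (by linarith) (by positivity), mul_assoc]
    apply mul_le_mul_of_nonneg_left _ (Nat.cast_nonneg _)
    calc R ^ 2 = R * R := sq R
      _ ≤ (orderOf (a : ZMod p) : ℝ) * (orderOf (a : ZMod q) : ℝ) := mul_le_mul hpR hqR hR.le (by positivity)
      _ = ((Nat.gcd (orderOf (a : ZMod p)) (orderOf (a : ZMod q)) * L : ℕ) : ℝ) := by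
          rw [hGL]; push_cast; ring
      _ ≤ (G : ℝ) * L := by
          push_cast
          apply mul_le_mul_of_nonneg_right _ (by linarith)
          exact_mod_cast hgg
  have key := pair_sum p q (a : ZMod p) (a : ZMod q) (isUnit_iff_ne_zero.2 h0) (isUnit_iff_ne_zero.2 h0')
    L hL hL0 (hh F c p f μ) (hh F c q g ν) B C hB0 hC0 hB hC K
  have e1 : ∑ k ∈ range K, hh F c p f μ ((a : ZMod p) ^ k) * hh F c q g ν ((a : ZMod q) ^ k) =
      ((∑ k ∈ range K, (f (F.eval (c * a ^ k)) - μ) * (g (F.eval (c * a ^ k)) - ν) : ℝ) : ℂ) := by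
    push_cast
    apply sum_congr rfl
    intro k _
    rw [hh_pow F c a p f hf μ k, hh_pow F c a q g hg ν k]
    push_cast
    ring
  rw [e1, Complex.norm_real, Real.norm_eq_abs] at key
  refine key.trans ?_
  apply mul_le_mul_of_nonneg_left _ (mul_nonneg hB0 hC0)
  linarith

/-- the second moment -/
theorem variance_exp (a c : ℤ) (F : ℤ[X]) (d x G K : ℕ) (R : ℝ) (hR : 0 < R) (hG : 1 ≤ G) (S : Finset ℕ)
    (hS : ∀ p ∈ S, p ≤ x ∧ p.Prime ∧ ¬ (p : ℤ) ∣ a ∧ ¬ (p : ℤ) ∣ c ∧ R ≤ (orderOf (a : ZMod p) : ℝ))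
    (f : ℕ → ℤ → ℝ) (μ : ℕ → ℝ) (hE : ∀ p ∈ S, Ev p (f p) (μ p))
    (hW : ∀ (p : ℕ) [Fact p.Prime], p ∈ S →
      (∀ χ ψ : DirichletCharacter ℂ p, χ ≠ 1 → ∀ c : ZMod p, c ≠ 0 →
        ‖∑ x : ZMod p, χ (ev F p (c * x)) * ψ x‖ ≤ (d + 1 : ℕ) * Real.sqrt p) ∧
      (Finset.univ.filter (fun x : ZMod p => ev F p x = 0)).card ≤ d)
    (Y : ℝ) (hY : ∑ p ∈ Px x, ((p - 1).divisors.card : ℝ) ≤ Y) :
    ∑ k ∈ range K, (∑ p ∈ S, (f p (F.eval (c * a ^ k)) - μ p)) ^ 2 ≤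
      4 * K * x + 4 * K * (x ^ 2 / G) + 9 * (d + 1) ^ 2 * x * Y ^ 2 * (K * G / R ^ 2 + (1 + 2 * Real.log x)) := by
  classical
  obtain ⟨Z, hZ⟩ : ∃ Z : ℝ, Z = K * G / R ^ 2 + (1 + 2 * Real.log x) := ⟨_, rfl⟩
  obtain ⟨B, hB⟩ : ∃ B : ℕ → ℝ, B = fun p => 3 * (d + 1) * ((p - 1).divisors.card : ℝ) * Real.sqrt x := ⟨_, rfl⟩
  have hlogx : 0 ≤ Real.log x := Real.log_natCast_nonneg x
  have hZ0 : 0 ≤ Z := by
    rw [hZ]
    positivity
  have hB0 : ∀ p, 0 ≤ B p := by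
    intro p
    rw [hB]
    positivity
  have hSP : S ⊆ Px x := by
    intro p hp
    rw [mem_Px]
    exact ⟨(hS p hp).1, (hS p hp).2.1⟩
  have habs : ∀ p ∈ S, ∀ n : ℤ, |f p n - μ p| ≤ 2 := by
    intro p hp n
    have h1 := (hE p hp).mem n
    have h2 := (hE p hp).mu0
    have h3 := (hE p hp).mu2
    rw [abs_le]
    constructor <;> linarith [h1.1, h1.2]
  have htriv : ∀ p ∈ S, ∀ q ∈ S,
      |∑ k ∈ range K, (f p (F.eval (c * a ^ k)) - μ p) * (f q (F.eval (c * a ^ k)) - μ q)| ≤ 4 * K := by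
    intro p hp q hq
    refine (abs_sum_le_sum_abs _ _).trans ?_
    calc ∑ k ∈ range K, |(f p (F.eval (c * a ^ k)) - μ p) * (f q (F.eval (c * a ^ k)) - μ q)| ≤
        ∑ k ∈ range K, (4 : ℝ) := by
          apply sum_le_sum
          intro k _
          rw [abs_mul]
          calc _ ≤ (2 : ℝ) * 2 := mul_le_mul (habs p hp _) (habs q hq _) (abs_nonneg _) (by norm_num)
            _ = 4 := by norm_num
      _ = 4 * K := by rw [sum_const, card_range, nsmul_eq_mul, mul_comm]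
  have hpair : ∀ p ∈ S, ∀ q ∈ S,
      |∑ k ∈ range K, (f p (F.eval (c * a ^ k)) - μ p) * (f q (F.eval (c * a ^ k)) - μ q)| ≤
        (if p = q then 4 * (K : ℝ) else 0) + (if G < Nat.gcd (p - 1) (q - 1) then 4 * (K : ℝ) else 0) +
        B p * B q * Z := by
    intro p hp q hq
    have hBZ : 0 ≤ B p * B q * Z := mul_nonneg (mul_nonneg (hB0 p) (hB0 q)) hZ0
    have hK0 : (0 : ℝ) ≤ 4 * K := by positivity
    by_cases h1 : p = q
    · rw [if_pos h1]
      refine (htriv p hp q hq).trans ?_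
      split_ifs <;> linarith
    by_cases h2 : G < Nat.gcd (p - 1) (q - 1)
    · rw [if_pos h2]
      refine (htriv p hp q hq).trans ?_
      split_ifs <;> linarith
    rw [if_neg h1, if_neg h2, add_zero, zero_add, hZ]
    push Not at h2
    obtain ⟨hpx, hpp, hpa, hpc, hpR⟩ := hS p hp
    obtain ⟨hqx, hqq, hqa, hqc, hqR⟩ := hS q hq
    haveI : Fact p.Prime := ⟨hpp⟩
    haveI : Fact q.Prime := ⟨hqq⟩
    have hsp : Real.sqrt p ≤ Real.sqrt x := Real.sqrt_le_sqrt (by exact_mod_cast hpx)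
    have hsq : Real.sqrt q ≤ Real.sqrt x := Real.sqrt_le_sqrt (by exact_mod_cast hqx)
    have b1 := bd_ev p F d (hW p hp).1 (hW p hp).2 (f p) (μ p) (hE p hp) c hpc
    have b2 := bd_ev q F d (hW q hq).1 (hW q hq).2 (f q) (μ q) (hE q hq) c hqc
    have b1' : Bd p (hh F c p (f p) (μ p)) (B p) := by
      intro ψ
      refine (b1 ψ).trans ?_
      rw [hB]
      exact mul_le_mul_of_nonneg_left hsp (by positivity)
    have b2' : Bd q (hh F c q (f q) (μ q)) (B q) := by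
      intro ψ
      refine (b2 ψ).trans ?_
      rw [hB]
      exact mul_le_mul_of_nonneg_left hsq (by positivity)
    exact one_pair a c F d x G K R hR hG p q hpp hqq hpx hqx hpa hqa hpR hqR h2 (f p) (f q) (μ p) (μ q)
      (hE p hp).per (hE q hq).per (B p) (B q) (hB0 p) (hB0 q) b1' b2'
  -- expand the square
  have e1 : ∑ k ∈ range K, (∑ p ∈ S, (f p (F.eval (c * a ^ k)) - μ p)) ^ 2 =
      ∑ p ∈ S, ∑ q ∈ S, ∑ k ∈ range K, (f p (F.eval (c * a ^ k)) - μ p) * (f q (F.eval (c * a ^ k)) - μ q) := by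
    calc ∑ k ∈ range K, (∑ p ∈ S, (f p (F.eval (c * a ^ k)) - μ p)) ^ 2 =
        ∑ k ∈ range K, ∑ p ∈ S, ∑ q ∈ S,
          (f p (F.eval (c * a ^ k)) - μ p) * (f q (F.eval (c * a ^ k)) - μ q) := by
          apply sum_congr rfl
          intro k _
          rw [sq, sum_mul_sum]
      _ = _ := by
          rw [sum_comm]
          apply sum_congr rfl
          intro p _
          rw [sum_comm]
  rw [e1]
  have e2 : ∑ p ∈ S, ∑ q ∈ S, ∑ k ∈ range K,
      (f p (F.eval (c * a ^ k)) - μ p) * (f q (F.eval (c * a ^ k)) - μ q) ≤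
      ∑ p ∈ S, ∑ q ∈ S, ((if p = q then 4 * (K : ℝ) else 0) +
        (if G < Nat.gcd (p - 1) (q - 1) then 4 * (K : ℝ) else 0) + B p * B q * Z) := by
    apply sum_le_sum
    intro p hp
    apply sum_le_sum
    intro q hq
    exact (le_abs_self _).trans (hpair p hp q hq)
  refine e2.trans ?_
  have e3 : ∑ p ∈ S, ∑ q ∈ S, ((if p = q then 4 * (K : ℝ) else 0) +
        (if G < Nat.gcd (p - 1) (q - 1) then 4 * (K : ℝ) else 0) + B p * B q * Z) =
      ∑ p ∈ S, ∑ q ∈ S, (if p = q then 4 * (K : ℝ) else 0) +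
      ∑ p ∈ S, ∑ q ∈ S, (if G < Nat.gcd (p - 1) (q - 1) then 4 * (K : ℝ) else 0) +
      (∑ p ∈ S, B p) ^ 2 * Z := by
    rw [sq, sum_mul_sum, sum_mul]
    simp only [sum_mul, sum_add_distrib]
  rw [e3]
  have hSx : (S.card : ℝ) ≤ x := by
    have h1 : S.card ≤ (Icc 1 x).card := by
      apply card_le_card
      intro p hp
      rw [mem_Icc]
      exact ⟨(hS p hp).2.1.one_le, (hS p hp).1⟩
    rw [Nat.card_Icc, Nat.add_sub_cancel] at h1
    exact_mod_cast h1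
  have f1 : ∑ p ∈ S, ∑ q ∈ S, (if p = q then 4 * (K : ℝ) else 0) ≤ 4 * K * x := by
    have h1 : ∀ p ∈ S, ∑ q ∈ S, (if p = q then 4 * (K : ℝ) else 0) = 4 * K := by
      intro p hp
      rw [sum_ite_eq, if_pos hp]
    rw [sum_congr rfl h1, sum_const, nsmul_eq_mul, mul_comm]
    exact mul_le_mul_of_nonneg_left hSx (by positivity)
  have f2 : ∑ p ∈ S, ∑ q ∈ S, (if G < Nat.gcd (p - 1) (q - 1) then 4 * (K : ℝ) else 0) ≤
      4 * K * (x ^ 2 / G) := by
    have h1 : ∑ p ∈ S, ∑ q ∈ S, (if G < Nat.gcd (p - 1) (q - 1) then 4 * (K : ℝ) else 0) =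
        (((S ×ˢ S).filter (fun c => G < Nat.gcd (c.1 - 1) (c.2 - 1))).card : ℝ) * (4 * K) := by
      rw [← sum_product', ← sum_filter, sum_const, nsmul_eq_mul]
    rw [h1, mul_comm]
    apply mul_le_mul_of_nonneg_left _ (by positivity)
    refine le_trans ?_ (pairs_gcd x G hG)
    have h2 : (S ×ˢ S).filter (fun c => G < Nat.gcd (c.1 - 1) (c.2 - 1)) ⊆
        ((Px x) ×ˢ (Px x)).filter (fun c => G < Nat.gcd (c.1 - 1) (c.2 - 1)) :=
      filter_subset_filter _ (product_subset_product hSP hSP)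
    exact_mod_cast card_le_card h2
  have f3 : (∑ p ∈ S, B p) ^ 2 * Z ≤ 9 * (d + 1) ^ 2 * x * Y ^ 2 * Z := by
    apply mul_le_mul_of_nonneg_right _ hZ0
    have h1 : ∑ p ∈ S, B p ≤ 3 * (d + 1) * Real.sqrt x * Y := by
      calc ∑ p ∈ S, B p ≤ ∑ p ∈ Px x, B p :=
            sum_le_sum_of_subset_of_nonneg hSP fun p _ _ => hB0 p
        _ = 3 * (d + 1) * Real.sqrt x * ∑ p ∈ Px x, ((p - 1).divisors.card : ℝ) := by
            rw [hB, mul_sum]
            apply sum_congr rfl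
            intro p _
            ring
        _ ≤ _ := mul_le_mul_of_nonneg_left hY (by positivity)
    have h2 : 0 ≤ ∑ p ∈ S, B p := sum_nonneg fun p _ => hB0 p
    calc (∑ p ∈ S, B p) ^ 2 ≤ (3 * (d + 1) * Real.sqrt x * Y) ^ 2 := pow_le_pow_left₀ h2 h1 2
      _ = 9 * (d + 1) ^ 2 * (Real.sqrt x) ^ 2 * Y ^ 2 := by ring
      _ = _ := by rw [Real.sq_sqrt (Nat.cast_nonneg _)]
  rw [← hZ]
  linarith

end Pool.Agent.KS6_33.EX
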