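import Pool.Agent.KS6_33.EX.XC
import Pool.Agent.KS6_33.EX.ED

/-! # One `x` -/

set_option autoImplicit false

namespace Pool.Agent.KS6_33.EX

open Finset Filter Polynomial Pool.Agent.R459.Eq Pool.Agent.H730R2.AA Pool.Agent.R318.PR

/-- the Weil bounds and the number of zeros -/
def WB (F : ℤ[X]) (d p : ℕ) : Prop := ∀ [Fact p.Prime],
  (∀ χ ψ : DirichletCharacter ℂ p, χ ≠ 1 → ∀ c : ZMod p, c ≠ 0 →
    ‖∑ x : ZMod p, χ (ev F p (c * x)) * ψ x‖ ≤ (d + 1 : ℕ) * Real.sqrt p) ∧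
  (Finset.univ.filter (fun x : ZMod p => ev F p x = 0)).card ≤ d

/-- the eventual inequalities -/
lemma ev_all (B : ℕ) (κ : ℝ) (hκ : 0 < κ) : ∃ X : ℕ, 9 ≤ X ∧ ∀ x : ℕ, X ≤ x →
    (Real.log x) ^ B ≤ x ∧ (x : ℝ) * (Real.log x) ^ (B + 1) ≤ (x : ℝ) ^ (1 + κ) := by
  have h1 := ev_log_pow ((B : ℕ) : ℝ) 1 (by norm_num)
  have h2 := ev_log_pow ((B + 1 : ℕ) : ℝ) κ hκ
  obtain ⟨X, hX⟩ := eventually_atTop.1 (h1.and (h2.and (eventually_ge_atTop 9)))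
  refine ⟨max X 9, le_max_right _ _, fun x hx => ?_⟩
  obtain ⟨h3, h4, h5⟩ := hX x ((le_max_left _ _).trans hx)
  rw [Real.rpow_natCast] at h3 h4
  rw [Real.rpow_one] at h3
  refine ⟨h3, ?_⟩
  have hx0 : (0 : ℝ) < x := by exact_mod_cast (by omega : 0 < x)
  rw [Real.rpow_add hx0, Real.rpow_one]
  exact mul_le_mul_of_nonneg_left h4 hx0.le

/-- the bound for the second moment, simplified -/
lemma var_simp (B K : ℕ) (x : ℕ) (Q κ : ℝ) (hQ : 0 ≤ Q) (hx9 : 9 ≤ x)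
    (h1 : (Real.log x) ^ B ≤ x) (h2 : (x : ℝ) * (Real.log x) ^ (B + 1) ≤ (x : ℝ) ^ (1 + κ))
    (hK : (x : ℝ) ^ (1 + κ) ≤ K) (G : ℕ) (hG1 : (Real.log x) ^ B ≤ G) (hG2 : (G : ℝ) ≤ 2 * (Real.log x) ^ B) :
    4 * K * x + 4 * K * (x ^ 2 / G) + Q * x * (x : ℝ) ^ 2 *
      (K * G / (Real.sqrt x * (Real.log x) ^ B) ^ 2 + (1 + 2 * Real.log x)) ≤
    (8 + 5 * Q) * (K * (x ^ 2 / (Real.log x) ^ B)) := by
  have hxR : (9 : ℝ) ≤ x := by exact_mod_cast hx9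
  have hx0 : (0 : ℝ) < x := by linarith
  obtain ⟨L, hL⟩ : ∃ L, L = Real.log x := ⟨_, rfl⟩
  rw [← hL] at h1 h2 hG1 hG2 ⊢
  have hL1 : 1 ≤ L := by
    rw [hL, Real.le_log_iff_exp_le hx0]
    linarith [Real.exp_one_lt_d9]
  have hL0 : 0 < L := by linarith
  have hLB : 0 < L ^ B := pow_pos hL0 B
  have hG0 : (0 : ℝ) < G := by linarith
  have hK0 : (0 : ℝ) ≤ K := Nat.cast_nonneg K
  have e1 : 4 * K * x ≤ 4 * (K * ((x : ℝ) ^ 2 / L ^ B)) := by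
    have h3 : (x : ℝ) ≤ x ^ 2 / L ^ B := by
      rw [le_div_iff₀ hLB, sq]
      exact mul_le_mul_of_nonneg_left h1 hx0.le
    calc 4 * K * (x : ℝ) = 4 * (K * x) := by ring
      _ ≤ _ := mul_le_mul_of_nonneg_left (mul_le_mul_of_nonneg_left h3 hK0) (by norm_num)
  have e2 : 4 * K * ((x : ℝ) ^ 2 / G) ≤ 4 * (K * (x ^ 2 / L ^ B)) := by
    have h3 : (x : ℝ) ^ 2 / G ≤ x ^ 2 / L ^ B := div_le_div_of_nonneg_left (by positivity) hLB hG1
    calc 4 * K * ((x : ℝ) ^ 2 / G) = 4 * (K * (x ^ 2 / G)) := by ring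
      _ ≤ _ := mul_le_mul_of_nonneg_left (mul_le_mul_of_nonneg_left h3 hK0) (by norm_num)
  have e3 : (x : ℝ) * x ^ 2 * (K * G / (Real.sqrt x * L ^ B) ^ 2) ≤ 2 * (K * (x ^ 2 / L ^ B)) := by
    have h3 : (Real.sqrt x * L ^ B) ^ 2 = x * (L ^ B * L ^ B) := by
      rw [mul_pow, Real.sq_sqrt hx0.le, sq (L ^ B)]
    rw [h3]
    calc (x : ℝ) * x ^ 2 * (K * G / (x * (L ^ B * L ^ B))) = (K * (x ^ 2 / L ^ B)) * (G / L ^ B) := by
          field_simp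
      _ ≤ (K * (x ^ 2 / L ^ B)) * 2 := by
          apply mul_le_mul_of_nonneg_left _ (by positivity)
          rw [div_le_iff₀ hLB]
          exact hG2
      _ = _ := by ring
  have e4 : (x : ℝ) * x ^ 2 * (1 + 2 * L) ≤ 3 * (K * (x ^ 2 / L ^ B)) := by
    have h3 : (x : ℝ) * L ≤ K / L ^ B := by
      rw [le_div_iff₀ hLB]
      calc (x : ℝ) * L * L ^ B = x * L ^ (B + 1) := by ring
        _ ≤ K := h2.trans hK
    calc (x : ℝ) * x ^ 2 * (1 + 2 * L) ≤ (x : ℝ) * x ^ 2 * (3 * L) := by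
          apply mul_le_mul_of_nonneg_left _ (by positivity)
          linarith
      _ = 3 * (x ^ 2 * (x * L)) := by ring
      _ ≤ 3 * (x ^ 2 * (K / L ^ B)) := by
          apply mul_le_mul_of_nonneg_left _ (by norm_num)
          exact mul_le_mul_of_nonneg_left h3 (by positivity)
      _ = _ := by ring
  have e5 : Q * x * (x : ℝ) ^ 2 * (K * G / (Real.sqrt x * L ^ B) ^ 2 + (1 + 2 * L)) =
      Q * ((x : ℝ) * x ^ 2 * (K * G / (Real.sqrt x * L ^ B) ^ 2) + (x : ℝ) * x ^ 2 * (1 + 2 * L)) := by ring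
  rw [e5]
  have e6 := mul_le_mul_of_nonneg_left (add_le_add e3 e4) hQ
  have e7 : Q * (2 * (K * ((x : ℝ) ^ 2 / L ^ B)) + 3 * (K * (x ^ 2 / L ^ B))) =
      5 * Q * (K * (x ^ 2 / L ^ B)) := by ring
  rw [e7] at e6
  have e8 : (8 + 5 * Q) * (K * ((x : ℝ) ^ 2 / L ^ B)) =
      8 * (K * ((x : ℝ) ^ 2 / L ^ B)) + 5 * Q * (K * ((x : ℝ) ^ 2 / L ^ B)) := by ring
  rw [e8]
  linarith

theorem one_exp (a : ℤ) (ha : 2 ≤ |a|) (F : ℤ[X]) (d M : ℕ) (hM : M ≠ 0)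
    (hW : ∀ p : ℕ, p.Prime → ¬ p ∣ M → WB F d p)
    (f : ℕ → ℤ → ℝ) (μ : ℕ → ℝ) (hE : ∀ p : ℕ, p.Prime → ¬ p ∣ M → Ev p (f p) (μ p)) (δ : ℝ)
    (havg : ∀ ε : ℝ, 0 < ε → ∃ X : ℕ, ∀ x : ℕ, X ≤ x →
      |∑ p ∈ GP M x, μ p - δ * Nat.primeCounting x| ≤ ε * Nat.primeCounting x)
    (A : ℕ) (ε κ : ℝ) (hε : 0 < ε) (hκ : 0 < κ) :
    ∃ (C : ℝ) (X₀ : ℕ), 0 < C ∧ 9 ≤ X₀ ∧ ∀ (x K : ℕ) (c : ℤ), X₀ ≤ x → (x : ℝ) ^ (1 + κ) ≤ K → c ≠ 0 →
      (c.natAbs.primeFactors.card : ℝ) ≤ 2 * Real.sqrt x → ∀ E : Finset ℕ, E ⊆ range K →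
      (∀ k ∈ E, ε * (Nat.primeCounting x : ℝ) <
        |∑ p ∈ GP M x, f p (F.eval (c * a ^ k)) - δ * Nat.primeCounting x|) →
      (E.card : ℝ) ≤ C * (K / (Real.log x) ^ A) := by
  classical
  obtain ⟨B, hB⟩ : ∃ B, B = A + 2 := ⟨_, rfl⟩
  obtain ⟨Ct, hCt, htau⟩ := tau_shifted
  obtain ⟨X1, hX1⟩ := small_orders a ha B (ε / 16) (by positivity)
  obtain ⟨X2, hX2⟩ := havg (ε / 8) (by positivity)
  obtain ⟨X3, hX34, hX3⟩ := small_ev (2 * (a.natAbs.primeFactors.card : ℝ)) (ε / 8) (by positivity)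
  obtain ⟨X4, hX44, hX4⟩ := small2 2 (ε / 8) (by positivity)
  obtain ⟨X5, hX59, hX5⟩ := ev_all B κ hκ
  obtain ⟨Q, hQ⟩ : ∃ Q : ℝ, Q = 9 * (d + 1) ^ 2 * Ct ^ 2 := ⟨_, rfl⟩
  have hQ0 : 0 ≤ Q := by rw [hQ]; positivity
  refine ⟨64 * (8 + 5 * Q) / ε ^ 2, X1 + X2 + X3 + X4 + X5, by positivity, by omega, ?_⟩
  intro x K c hx hxK hc hcx E hEK hbad
  have hx9 : 9 ≤ x := by omega
  have hxR : (9 : ℝ) ≤ x := by exact_mod_cast hx9
  have hx0 : (0 : ℝ) < x := by linarith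
  have g1 := hX1 x (by omega)
  have g2 := hX2 x (by omega)
  have g3 := hX3 x (by omega)
  have g4 := hX4 x (by omega)
  obtain ⟨g5, g6⟩ := hX5 x (by omega)
  obtain ⟨hpi, _, hpi2⟩ := pi_lower' x (by omega)
  have hL1 : 1 ≤ Real.log x := by
    rw [Real.le_log_iff_exp_le hx0]
    linarith [Real.exp_one_lt_d9]
  have hL0 : 0 < Real.log x := by linarith
  have hLB : 0 < (Real.log x) ^ B := pow_pos hL0 B
  obtain ⟨R, hR⟩ : ∃ R : ℝ, R = Real.sqrt x * (Real.log x) ^ B := ⟨_, rfl⟩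
  have hR0 : 0 < R := by rw [hR]; exact mul_pos (Real.sqrt_pos.2 hx0) hLB
  obtain ⟨S, hS⟩ : ∃ S : Finset ℕ, S = (GP M x).filter (fun p : ℕ => ¬ (p : ℤ) ∣ a ∧ ¬ (p : ℤ) ∣ c ∧
    R ≤ (orderOf (a : ZMod p) : ℝ)) := ⟨_, rfl⟩
  have hSG : S ⊆ GP M x := by rw [hS]; exact filter_subset _ _
  have hSmem : ∀ p ∈ S, p ≤ x ∧ p.Prime ∧ ¬ p ∣ M ∧ ¬ (p : ℤ) ∣ a ∧ ¬ (p : ℤ) ∣ c ∧
      R ≤ (orderOf (a : ZMod p) : ℝ) := by
    intro p hp
    rw [hS, mem_filter, mem_GP] at hp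
    exact ⟨hp.1.1, hp.1.2.1, hp.1.2.2, hp.2⟩
  have ha0 : a ≠ 0 := by
    rintro rfl
    simp at ha
  -- the other primes are few
  have hother : ((GP M x \ S).card : ℝ) ≤ (a.natAbs.primeFactors.card : ℝ) + (2 * Real.sqrt x +
      ε / 16 * Nat.primeCounting x) := by
    have h1 : GP M x \ S ⊆ a.natAbs.primeFactors ∪ (c.natAbs.primeFactors ∪ ordS a x R) := by
      intro p hp
      rw [Finset.mem_sdiff, hS, mem_filter, mem_GP] at hp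
      obtain ⟨⟨hpx, hpp, hpM⟩, hnot⟩ := hp
      rw [mem_union, mem_union]
      by_cases h1 : (p : ℤ) ∣ a
      · left
        exact Nat.mem_primeFactors.2 ⟨hpp, Int.natCast_dvd.1 h1, Int.natAbs_ne_zero.2 ha0⟩
      by_cases h2 : (p : ℤ) ∣ c
      · right; left
        exact Nat.mem_primeFactors.2 ⟨hpp, Int.natCast_dvd.1 h2, Int.natAbs_ne_zero.2 hc⟩
      right; right
      rw [mem_ordS]
      refine ⟨⟨hpx, hpp⟩, h1, ?_⟩
      by_contra hcon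
      push Not at hcon
      exact hnot ⟨⟨hpx, hpp, hpM⟩, h1, h2, hcon.le⟩
    have h2 := (card_le_card h1).trans ((card_union_le _ _).trans (add_le_add_right (card_union_le _ _) _))
    have h3 : ((GP M x \ S).card : ℝ) ≤ (a.natAbs.primeFactors.card : ℝ) +
        ((c.natAbs.primeFactors.card : ℝ) + ((ordS a x R).card : ℝ)) := by exact_mod_cast h2
    rw [hR] at h3
    linarith
  -- the large deviations
  have hlarge : ∀ k ∈ E, (ε / 2 * (Nat.primeCounting x : ℝ)) ^ 2 ≤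
      (∑ p ∈ S, (f p (F.eval (c * a ^ k)) - μ p)) ^ 2 := by
    intro k hk
    rw [← sq_abs (∑ p ∈ S, (f p (F.eval (c * a ^ k)) - μ p))]
    apply pow_le_pow_left₀ (by positivity)
    have h1 := hbad k hk
    have h2 : ∑ p ∈ GP M x, f p (F.eval (c * a ^ k)) - δ * Nat.primeCounting x =
        ∑ p ∈ S, (f p (F.eval (c * a ^ k)) - μ p) +
        ∑ p ∈ GP M x \ S, (f p (F.eval (c * a ^ k)) - μ p) +
        (∑ p ∈ GP M x, μ p - δ * Nat.primeCounting x) := by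
      have h3 := sum_sdiff hSG (f := fun p => f p (F.eval (c * a ^ k)) - μ p)
      rw [sum_sub_distrib (s := GP M x)] at h3
      linarith
    have h4 : |∑ p ∈ GP M x \ S, (f p (F.eval (c * a ^ k)) - μ p)| ≤ 2 * ((GP M x \ S).card : ℝ) := by
      refine (abs_sum_le_sum_abs _ _).trans ?_
      calc ∑ p ∈ GP M x \ S, |f p (F.eval (c * a ^ k)) - μ p| ≤ ∑ p ∈ GP M x \ S, (2 : ℝ) := by
            apply sum_le_sum
            intro p hp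
            rw [Finset.mem_sdiff, mem_GP] at hp
            have h5 := hE p hp.1.2.1 hp.1.2.2
            have h6 := h5.mem (F.eval (c * a ^ k))
            have h7 := h5.mu0
            have h8 := h5.mu2
            rw [abs_le]
            constructor <;> linarith [h6.1, h6.2]
        _ = _ := by rw [sum_const, nsmul_eq_mul, mul_comm]
    rw [h2] at h1
    have h5 := (abs_add_le (∑ p ∈ S, (f p (F.eval (c * a ^ k)) - μ p) +
        ∑ p ∈ GP M x \ S, (f p (F.eval (c * a ^ k)) - μ p))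
        (∑ p ∈ GP M x, μ p - δ * Nat.primeCounting x)).trans
        (add_le_add_left (abs_add_le (∑ p ∈ S, (f p (F.eval (c * a ^ k)) - μ p))
        (∑ p ∈ GP M x \ S, (f p (F.eval (c * a ^ k)) - μ p))) _)
    have h6 : 0 ≤ Real.sqrt x * Real.log x := by positivity
    have h7 : 0 ≤ Real.sqrt x := Real.sqrt_nonneg _
    have h8 : 2 * (2 * Real.sqrt x * (1 + Real.log x)) = 4 * Real.sqrt x + 4 * (Real.sqrt x * Real.log x) := by
      ring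
    rw [h8] at g4
    linarith
  -- the second moment
  obtain ⟨G, hG⟩ : ∃ G : ℕ, G = ⌈(Real.log x) ^ B⌉₊ := ⟨_, rfl⟩
  have hLB1 : 1 ≤ (Real.log x) ^ B := one_le_pow₀ hL1
  have hG1 : (Real.log x) ^ B ≤ G := by rw [hG]; exact Nat.le_ceil _
  have hG2 : (G : ℝ) ≤ 2 * (Real.log x) ^ B := by
    have := Nat.ceil_lt_add_one (a := (Real.log x) ^ B) hLB.le
    rw [hG]
    linarith
  have hG3 : 1 ≤ G := by
    have : (1 : ℝ) ≤ G := by linarith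
    exact_mod_cast this
  have hvar := variance_exp a c F d x G K R hR0 hG3 S (fun p hp => by
      obtain ⟨h1, h2, _, h4, h5, h6⟩ := hSmem p hp
      exact ⟨h1, h2, h4, h5, h6⟩) f μ (fun p hp => hE p (hSmem p hp).2.1 (hSmem p hp).2.2.1)
      (fun p _ hp => hW p (hSmem p hp).2.1 (hSmem p hp).2.2.1) (Ct * x) (htau x hx9)
  have hvar2 : 4 * K * x + 4 * K * (x ^ 2 / G) + 9 * (d + 1) ^ 2 * x * (Ct * x) ^ 2 *
      (K * G / R ^ 2 + (1 + 2 * Real.log x)) ≤ (8 + 5 * Q) * (K * (x ^ 2 / (Real.log x) ^ B)) := by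
    have h1 := var_simp B K x Q κ hQ0 hx9 g5 g6 hxK G hG1 hG2
    rw [← hR] at h1
    refine le_trans (le_of_eq ?_) h1
    rw [hQ]
    ring
  have hcheb : (E.card : ℝ) * (ε / 2 * (Nat.primeCounting x : ℝ)) ^ 2 ≤
      (8 + 5 * Q) * (K * (x ^ 2 / (Real.log x) ^ B)) := by
    refine le_trans ?_ (hvar.trans hvar2)
    calc (E.card : ℝ) * (ε / 2 * (Nat.primeCounting x : ℝ)) ^ 2 =
        ∑ k ∈ E, (ε / 2 * (Nat.primeCounting x : ℝ)) ^ 2 := by rw [sum_const, nsmul_eq_mul]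
      _ ≤ ∑ k ∈ E, (∑ p ∈ S, (f p (F.eval (c * a ^ k)) - μ p)) ^ 2 := sum_le_sum hlarge
      _ ≤ _ := sum_le_sum_of_subset_of_nonneg hEK fun k _ _ => sq_nonneg _
  have hpi3 : (1 / (Nat.primeCounting x : ℝ)) ^ 2 ≤ (4 * Real.log x / x) ^ 2 :=
    pow_le_pow_left₀ (by positivity) hpi2 2
  have h1 : (E.card : ℝ) ≤ (8 + 5 * Q) * (K * (x ^ 2 / (Real.log x) ^ B)) * (4 / ε ^ 2) *
      (1 / (Nat.primeCounting x : ℝ)) ^ 2 := by
    have h2 : (8 + 5 * Q) * (K * (x ^ 2 / (Real.log x) ^ B)) * (4 / ε ^ 2) *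
      (1 / (Nat.primeCounting x : ℝ)) ^ 2 =
      ((8 + 5 * Q) * (K * (x ^ 2 / (Real.log x) ^ B))) / (ε / 2 * (Nat.primeCounting x : ℝ)) ^ 2 := by
      field_simp
      ring
    rw [h2, le_div_iff₀ (by positivity)]
    exact hcheb
  refine h1.trans ?_
  calc (8 + 5 * Q) * (K * (x ^ 2 / (Real.log x) ^ B)) * (4 / ε ^ 2) * (1 / (Nat.primeCounting x : ℝ)) ^ 2 ≤
      (8 + 5 * Q) * (K * (x ^ 2 / (Real.log x) ^ B)) * (4 / ε ^ 2) * (4 * Real.log x / x) ^ 2 :=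
        mul_le_mul_of_nonneg_left hpi3 (by positivity)
    _ = 64 * (8 + 5 * Q) / ε ^ 2 * (K / (Real.log x) ^ A) := by
        rw [hB, pow_add]
        field_simp
        ring

end Pool.Agent.KS6_33.EX
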