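import Pool.Agent.KS6_33.EX.XD

/-! # All `x` -/

set_option autoImplicit false

namespace Pool.Agent.KS6_33.EX

open Finset Filter Polynomial Pool.Agent.R459.Eq Pool.Agent.H730R2.AA Pool.Agent.R318.PR
open Pool.Agent.H730R2.AA.Grid

theorem all_exp (a : ℤ) (ha : 2 ≤ |a|) (F : ℤ[X]) (d M : ℕ) (hM : M ≠ 0)
    (hW : ∀ p : ℕ, p.Prime → ¬ p ∣ M → WB F d p)
    (f : ℕ → ℤ → ℝ) (μ : ℕ → ℝ) (hE : ∀ p : ℕ, p.Prime → ¬ p ∣ M → Ev p (f p) (μ p)) (δ : ℝ)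
    (havg : ∀ ε : ℝ, 0 < ε → ∃ X : ℕ, ∀ x : ℕ, X ≤ x →
      |∑ p ∈ GP M x, μ p - δ * Nat.primeCounting x| ≤ ε * Nat.primeCounting x)
    (N : ℤ → ℕ → ℕ) (hN : ∀ v, Monotone (N v)) (K₀ : ℝ)
    (hNK : ∀ v x, |(N v x : ℝ) - ∑ p ∈ GP M x, f p (F.eval v)| ≤ K₀)
    (A : ℕ) (ε κ : ℝ) (hε : 0 < ε) (hκ : 0 < κ) :
    ∃ (C : ℝ) (X₀ : ℕ), 0 < C ∧ 9 ≤ X₀ ∧ ∀ (X K : ℕ) (c : ℤ), X₀ ≤ X → c ≠ 0 →
      (c.natAbs.primeFactors.card : ℝ) ≤ Real.sqrt X → ∀ E : Finset ℕ, E ⊆ range K →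
      (∀ k ∈ E, ∃ x : ℕ, X ≤ x ∧ (x : ℝ) ^ (1 + κ) ≤ K ∧ ε * (Nat.primeCounting x : ℝ) <
        |(N (c * a ^ k) x : ℝ) - δ * Nat.primeCounting x|) →
      (E.card : ℝ) ≤ C * (K / (Real.log X) ^ A) := by
  classical
  have hd := abs_nonneg δ
  obtain ⟨ε₁, hε₁def⟩ : ∃ ε₁ : ℝ, ε₁ = min 1 (ε / (|δ| + 3)) := ⟨_, rfl⟩
  have hε₁ : 0 < ε₁ := by rw [hε₁def]; exact lt_min one_pos (by positivity)
  have hε₁1 : ε₁ ≤ 1 := by rw [hε₁def]; exact min_le_left _ _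
  have hεε : (|δ| + 3) * ε₁ ≤ ε := by
    have : ε₁ ≤ ε / (|δ| + 3) := by rw [hε₁def]; exact min_le_right _ _
    rw [le_div_iff₀ (by positivity)] at this
    linarith
  obtain ⟨C, X1, hC, hX1, h1⟩ := one_exp a ha F d M hM hW f μ hE δ havg (A + 2) (ε₁ / 2) (κ / 2)
    (by positivity) (by positivity)
  obtain ⟨ρ, hρ, hρ2, X2, hX2, hpi⟩ := pi_ratio ε₁ hε₁
  obtain ⟨X3, hX34, hX3⟩ := small_ev K₀ (ε₁ / 2) (by positivity)
  have hρ0 : 0 < ρ := by linarith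
  have hρρ : 0 < ρ ^ 2 - ρ := by nlinarith
  have hlρ : 0 < Real.log ρ := Real.log_pos hρ
  obtain ⟨X, hX⟩ : ∃ X, X = max (max X1 X2) X3 := ⟨_, rfl⟩
  have hXX1 : X1 ≤ X := by rw [hX]; exact (le_max_left _ _).trans (le_max_left _ _)
  have hXX2 : X2 ≤ X := by rw [hX]; exact (le_max_right _ _).trans (le_max_left _ _)
  have hXX3 : X3 ≤ X := by rw [hX]; exact le_max_right _ _
  obtain ⟨Q, hQ⟩ := exists_nat_ge (1 / (ρ ^ 2 - ρ))
  obtain ⟨Q2, hQ2⟩ := exists_nat_ge (((4 : ℝ) ^ (1 + κ / 2)) ^ (2 / κ))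
  refine ⟨C * ((1 / Real.log ρ) ^ (A + 2) * (2 * Real.log ρ) ^ A * 2), 2 * (X + Q) + 16 + Q2, by positivity,
    by omega, ?_⟩
  intro Y K c hY hc hcY E hEK hbad
  have hY4 : 16 ≤ Y := by omega
  have hY1 : (1 : ℝ) ≤ Y := by exact_mod_cast (by omega : 1 ≤ Y)
  have hY0 : (0 : ℝ) < Y := by linarith
  obtain ⟨J0, hJ1, hJ2⟩ := exists_nat_pow_near hY1 hρ
  have hlogY : 2 ≤ Real.log Y := by
    rw [Real.le_log_iff_exp_le hY0]
    have h2 : (16 : ℝ) ≤ Y := by exact_mod_cast hY4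
    have h3 : Real.exp 2 = Real.exp 1 * Real.exp 1 := by rw [← Real.exp_add]; norm_num
    have h4 := Real.exp_one_lt_d9
    have h5 := Real.exp_pos 1
    rw [h3]
    nlinarith
  have hhalf : (Y : ℝ) / 2 ≤ ρ ^ J0 := by
    rw [pow_succ] at hJ2
    have h2 : ρ ^ J0 * ρ ≤ ρ ^ J0 * 2 := mul_le_mul_of_nonneg_left hρ2 (by positivity)
    linarith
  have hYr : 2 * ((X : ℝ) + Q) + 16 ≤ Y := by
    have : 2 * (X + Q) + 16 ≤ Y := by omega
    exact_mod_cast this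
  have hXQ : (X : ℝ) + Q ≤ g ρ J0 := by
    have := g_ge (ρ := ρ) J0
    linarith
  have hgJ0X : X ≤ g ρ J0 := by
    have h2 : (X : ℝ) ≤ g ρ J0 := by
      have : (0 : ℝ) ≤ Q := Nat.cast_nonneg _
      linarith
    exact_mod_cast h2
  have hgJ01 : 1 ≤ (ρ ^ 2 - ρ) * g ρ J0 := by
    have h2 : 1 / (ρ ^ 2 - ρ) ≤ g ρ J0 := by
      have : (0 : ℝ) ≤ X := Nat.cast_nonneg _
      linarith
    rw [div_le_iff₀ hρρ] at h2
    linarith
  have hgY : g ρ J0 ≤ Y := Nat.ceil_le.2 hJ1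
  -- `J0` is comparable to `log Y`
  have hJ0log : Real.log Y ≤ 2 * Real.log ρ * J0 := by
    have h2 : Real.log Y < Real.log (ρ ^ (J0 + 1)) := Real.log_lt_log hY0 hJ2
    rw [Real.log_pow] at h2
    push_cast at h2
    have h3 : Real.log ρ ≤ 1 := by
      have h4 := Real.log_le_sub_one_of_pos hρ0
      linarith
    have h4 : (J0 + 1 : ℝ) * Real.log ρ = J0 * Real.log ρ + Real.log ρ := by ring
    have h5 : 2 * Real.log ρ * J0 = 2 * (J0 * Real.log ρ) := by ring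
    rw [h4] at h2
    rw [h5]
    linarith
  have hJ0pos : 0 < J0 := by
    rcases Nat.eq_zero_or_pos J0 with h2 | h2
    · exfalso
      rw [h2] at hJ0log
      simp at hJ0log
      linarith
    · exact h2
  have hJ0R : (0 : ℝ) < J0 := by exact_mod_cast hJ0pos
  obtain ⟨L, hL⟩ := pow_unbounded_of_one_lt (K : ℝ) hρ
  obtain ⟨I, hI⟩ : ∃ I : Finset ℕ, I = (range L).filter (fun j => J0 ≤ j ∧ ((g ρ j : ℕ) : ℝ) ^ (1 + κ / 2) ≤ K) :=
    ⟨_, rfl⟩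
  obtain ⟨EE, hEE⟩ : ∃ EE : ℕ → Finset ℕ, EE = fun j => E.filter (fun k =>
    ε₁ * (Nat.primeCounting (g ρ j) : ℝ) < |(N (c * a ^ k) (g ρ j) : ℝ) - δ * Nat.primeCounting (g ρ j)|) :=
    ⟨_, rfl⟩
  have hcover : E ⊆ I.biUnion EE := by
    intro k hk
    obtain ⟨x, hx1, hx2, hx3⟩ := hbad k hk
    obtain ⟨j, hj1, hj2, hj3⟩ := coreG (N (c * a ^ k)) (hN _) δ hε₁ hε₁1 hεε hρ hρ2
      (fun x y hx => hpi x y (hXX2.trans hx)) hgJ0X hgJ01 x (hgY.trans hx1) hx3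
    rw [mem_biUnion]
    have hxR : (0 : ℝ) < x := by exact_mod_cast (by omega : 0 < x)
    have hgK : ((g ρ j : ℕ) : ℝ) ^ (1 + κ / 2) ≤ K := by
      have h2 : ((g ρ j : ℕ) : ℝ) ≤ 4 * x := by exact_mod_cast hj2
      have h3 : (4 : ℝ) ^ (1 + κ / 2) ≤ (x : ℝ) ^ (κ / 2) := by
        have h4 : ((4 : ℝ) ^ (1 + κ / 2)) ^ (2 / κ) ≤ x := by
          refine hQ2.trans ?_
          exact_mod_cast (by omega : Q2 ≤ x)
        calc (4 : ℝ) ^ (1 + κ / 2) = (((4 : ℝ) ^ (1 + κ / 2)) ^ (2 / κ)) ^ (κ / 2) := by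
              rw [← Real.rpow_mul (by positivity), show 2 / κ * (κ / 2) = 1 by field_simp, Real.rpow_one]
          _ ≤ (x : ℝ) ^ (κ / 2) := Real.rpow_le_rpow (by positivity) h4 (by positivity)
      calc ((g ρ j : ℕ) : ℝ) ^ (1 + κ / 2) ≤ (4 * x) ^ (1 + κ / 2) :=
            Real.rpow_le_rpow (Nat.cast_nonneg _) h2 (by positivity)
        _ = (4 : ℝ) ^ (1 + κ / 2) * (x : ℝ) ^ (1 + κ / 2) := Real.mul_rpow (by norm_num) hxR.le
        _ ≤ (x : ℝ) ^ (κ / 2) * (x : ℝ) ^ (1 + κ / 2) := mul_le_mul_of_nonneg_right h3 (by positivity)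
        _ = (x : ℝ) ^ (1 + κ) := by rw [← Real.rpow_add hxR]; congr 1; ring
        _ ≤ K := hx2
    refine ⟨j, ?_, ?_⟩
    · rw [hI, mem_filter, mem_range]
      refine ⟨?_, hj1, hgK⟩
      by_contra hcon
      push Not at hcon
      have h2 : ρ ^ L ≤ ρ ^ j := pow_le_pow_right₀ hρ.le hcon
      have h3 := g_ge (ρ := ρ) j
      have h4 : ((g ρ j : ℕ) : ℝ) ≤ ((g ρ j : ℕ) : ℝ) ^ (1 + κ / 2) := by
        calc ((g ρ j : ℕ) : ℝ) = ((g ρ j : ℕ) : ℝ) ^ (1 : ℝ) := (Real.rpow_one _).symm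
          _ ≤ _ := Real.rpow_le_rpow_of_exponent_le (g_one_le hρ j) (by linarith)
      linarith
    · rw [hEE, mem_filter]
      exact ⟨hk, hj3⟩
  have h2 : (E.card : ℝ) ≤ ∑ j ∈ I, ((EE j).card : ℝ) := by
    have := (card_le_card hcover).trans card_biUnion_le
    exact_mod_cast this
  have h3 : ∀ j ∈ I, ((EE j).card : ℝ) ≤
      C * K * ((1 / Real.log ρ) ^ (A + 2) * (2 * Real.log ρ / Real.log Y) ^ A) * ((j : ℝ) ^ 2)⁻¹ := by
    intro j hj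
    rw [hI, mem_filter] at hj
    have hgX : X ≤ g ρ j := hgJ0X.trans (g_mono hρ hj.2.1)
    have hjR : (J0 : ℝ) ≤ j := by exact_mod_cast hj.2.1
    have hj0 : (0 : ℝ) < j := by linarith
    have hjlog : (j : ℝ) * Real.log ρ ≤ Real.log (g ρ j) := by
      rw [← Real.log_pow]
      exact Real.log_le_log (by positivity) (g_ge j)
    have h4 : ((EE j).card : ℝ) ≤ C * (K / (Real.log (g ρ j)) ^ (A + 2)) := by
      apply h1 (g ρ j) K c (hXX1.trans hgX) hj.2.2 hc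
      · have h5 : (Y : ℝ) ≤ 4 * (g ρ j : ℝ) := by
          have h6 := g_ge (ρ := ρ) j
          have h7 : ρ ^ J0 ≤ ρ ^ j := pow_le_pow_right₀ hρ.le hj.2.1
          linarith
        calc (c.natAbs.primeFactors.card : ℝ) ≤ Real.sqrt Y := hcY
          _ ≤ Real.sqrt (4 * (g ρ j : ℝ)) := Real.sqrt_le_sqrt h5
          _ = 2 * Real.sqrt (g ρ j : ℝ) := by
              rw [Real.sqrt_mul (by norm_num), show (4 : ℝ) = 2 ^ 2 by norm_num, Real.sqrt_sq (by norm_num)]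
      · rw [hEE]
        exact (filter_subset _ _).trans hEK
      · intro k hk
        rw [hEE, mem_filter] at hk
        have h4 := hk.2
        have h5 := hNK (c * a ^ k) (g ρ j)
        have h6 := hX3 (g ρ j) (hXX3.trans hgX)
        have h7 : 0 ≤ Real.log (g ρ j) := Real.log_nonneg (g_one_le hρ j)
        have h8 := abs_sub_le (N (c * a ^ k) (g ρ j) : ℝ) (∑ p ∈ GP M (g ρ j), f p (F.eval (c * a ^ k)))
          (δ * Nat.primeCounting (g ρ j))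
        linarith
    refine h4.trans ?_
    have h5 : 1 / (Real.log (g ρ j)) ^ (A + 2) ≤
        (1 / Real.log ρ) ^ (A + 2) * (2 * Real.log ρ / Real.log Y) ^ A * ((j : ℝ) ^ 2)⁻¹ := by
      calc 1 / (Real.log (g ρ j)) ^ (A + 2) ≤ 1 / ((j : ℝ) * Real.log ρ) ^ (A + 2) := by
            apply one_div_le_one_div_of_le (by positivity)
            exact pow_le_pow_left₀ (by positivity) hjlog _
        _ = (1 / Real.log ρ) ^ (A + 2) * (1 / (j : ℝ)) ^ A * ((j : ℝ) ^ 2)⁻¹ := by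
            rw [one_div, one_div, one_div, inv_pow, inv_pow, ← mul_inv, ← mul_inv]
            congr 1
            rw [mul_pow, pow_add (j : ℝ), mul_comm, mul_assoc]
        _ ≤ _ := by
            apply mul_le_mul_of_nonneg_right _ (by positivity)
            apply mul_le_mul_of_nonneg_left _ (by positivity)
            apply pow_le_pow_left₀ (by positivity)
            rw [div_le_div_iff₀ hj0 (by linarith), one_mul]
            calc Real.log Y ≤ 2 * Real.log ρ * J0 := hJ0log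
              _ ≤ 2 * Real.log ρ * j := mul_le_mul_of_nonneg_left hjR (by positivity)
    calc C * (K / (Real.log (g ρ j)) ^ (A + 2)) = C * K * (1 / (Real.log (g ρ j)) ^ (A + 2)) := by ring
      _ ≤ C * K * ((1 / Real.log ρ) ^ (A + 2) * (2 * Real.log ρ / Real.log Y) ^ A * ((j : ℝ) ^ 2)⁻¹) :=
          mul_le_mul_of_nonneg_left h5 (by positivity)
      _ = _ := by ring
  have h4 : ∑ j ∈ I, ((j : ℝ) ^ 2)⁻¹ ≤ 2 := by
    have h5 : I ⊆ Ioo (J0 - 1) L := by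
      intro j hj
      rw [hI, mem_filter, mem_range] at hj
      rw [mem_Ioo]
      omega
    calc ∑ j ∈ I, ((j : ℝ) ^ 2)⁻¹ ≤ ∑ j ∈ Ioo (J0 - 1) L, ((j : ℝ) ^ 2)⁻¹ :=
          sum_le_sum_of_subset_of_nonneg h5 fun j _ _ => by positivity
      _ ≤ 2 / (((J0 - 1 : ℕ) : ℝ) + 1) := sum_Ioo_inv_sq_le _ _
      _ ≤ 2 := by
          apply div_le_self (by norm_num)
          have : (0 : ℝ) ≤ ((J0 - 1 : ℕ) : ℝ) := Nat.cast_nonneg _
          linarith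
  refine h2.trans ((sum_le_sum h3).trans ?_)
  rw [← mul_sum]
  have hlY0 : 0 < Real.log Y := by linarith
  calc C * K * ((1 / Real.log ρ) ^ (A + 2) * (2 * Real.log ρ / Real.log Y) ^ A) * ∑ j ∈ I, ((j : ℝ) ^ 2)⁻¹ ≤
      C * K * ((1 / Real.log ρ) ^ (A + 2) * (2 * Real.log ρ / Real.log Y) ^ A) * 2 :=
        mul_le_mul_of_nonneg_left h4 (by positivity)
    _ = _ := by
        rw [div_pow (2 * Real.log ρ)]
        ring

end Pool.Agent.KS6_33.EX
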