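import Pool.Agent.KS6_33.EX.XE

/-! # Primitive roots `F(c a ^ k)` and `D F(c a ^ k) ^ 2` -/

set_option autoImplicit false

namespace Pool.Agent.KS6_33.EX

open Finset Filter Polynomial Pool.Agent.R459.Eq Pool.Agent.H730R2.AA Pool.Agent.R318.PR
open Pool.Agent.H386R2.Artin (artinC)
open Pool.Agent.H730R2.AA.Grid

/-- the exceptions for a property `Q c k x` -/
def Few (a : ℤ) (A : ℕ) (κ : ℝ) (Q : ℤ → ℕ → Prop) : Prop :=
  ∃ (C : ℝ) (X₀ : ℕ), 0 < C ∧ 9 ≤ X₀ ∧ ∀ (X K : ℕ) (c : ℤ), X₀ ≤ X → c ≠ 0 →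
      (c.natAbs.primeFactors.card : ℝ) ≤ Real.sqrt X → ∀ E : Finset ℕ, E ⊆ range K →
      (∀ k ∈ E, ∃ x : ℕ, X ≤ x ∧ (x : ℝ) ^ (1 + κ) ≤ K ∧ ¬ Q (c * a ^ k) x) →
      (E.card : ℝ) ≤ C * (K / (Real.log X) ^ A)

lemma weil_ex (F : ℤ[X]) (z : ℂ) (hz : z ≠ 0) (h0 : aeval z F = 0) (h1 : aeval z (derivative F) ≠ 0)
    (N : ℕ) (hN : N ≠ 0) : ∃ M : ℕ, M ≠ 0 ∧ N ∣ M ∧ ∀ p : ℕ, p.Prime → ¬ p ∣ M → WB F F.natDegree p := by
  obtain ⟨M₀, hM₀, hM⟩ := weilM F z hz h0 h1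
  refine ⟨N * M₀, mul_ne_zero hN hM₀, dvd_mul_right _ _, fun p hp hpM => ?_⟩
  intro _
  exact hM p (fun h => hpM (h.mul_left N))

theorem artin_exp (a : ℤ) (ha : 2 ≤ |a|) (F : ℤ[X]) (z : ℂ) (hz : z ≠ 0) (h0 : aeval z F = 0)
    (h1 : aeval z (derivative F) ≠ 0) (A : ℕ) (ε κ : ℝ) (hε : 0 < ε) (hκ : 0 < κ) :
    Few a A κ (fun v x => |(cnt (F.eval v) x : ℝ) - artinC * (Nat.primeCounting x : ℝ)| ≤
      ε * (Nat.primeCounting x : ℝ)) := by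
  obtain ⟨M, hM, _, hW⟩ := weil_ex F z hz h0 h1 1 one_ne_zero
  obtain ⟨C, X₀, hC, hX₀, h⟩ := all_exp a ha F F.natDegree M hM hW pri rho (fun p hp _ => ev_pri p hp) artinC
    (avg_rho M hM) (fun v x => cnt (F.eval v) x) (fun v x y hxy => cnt_mono _ hxy)
    (M.primeFactors.card : ℝ) (fun v x => cnt_pri M hM (F.eval v) x) A ε κ hε hκ
  refine ⟨C, X₀, hC, hX₀, fun X K c hX hc hcX E hE hbad => h X K c hX hc hcX E hE fun k hk => ?_⟩
  obtain ⟨x, hx1, hx2, hx3⟩ := hbad k hk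
  exact ⟨x, hx1, hx2, not_le.1 hx3⟩

theorem artin_exp_sq (a : ℤ) (ha : 2 ≤ |a|) (F : ℤ[X]) (z : ℂ) (hz : z ≠ 0) (h0 : aeval z F = 0)
    (h1 : aeval z (derivative F) ≠ 0) (D : ℤ) (hD : Squarefree D) (hD1 : D % 4 = 1) (hD2 : D ≠ 1)
    (A : ℕ) (ε κ : ℝ) (hε : 0 < ε) (hκ : 0 < κ) :
    Few a A κ (fun v x => |(cnt (D * (F.eval v) ^ 2) x : ℝ) - dens D * (Nat.primeCounting x : ℝ)| ≤
      ε * (Nat.primeCounting x : ℝ)) := by
  have hD0 : D ≠ 0 := by rintro rfl; norm_num at hD1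
  have hDn : D.natAbs ≠ 0 := Int.natAbs_ne_zero.2 hD0
  obtain ⟨M, hM, h2DM, hW⟩ := weil_ex F z hz h0 h1 (2 * D.natAbs) (mul_ne_zero two_ne_zero hDn)
  have h2M : 2 ∣ M := (dvd_mul_right _ _).trans h2DM
  have hDM : D.natAbs ∣ M := (dvd_mul_left _ _).trans h2DM
  obtain ⟨C, X₀, hC, hX₀, h⟩ := all_exp a ha F F.natDegree M hM hW (ind D) (cc D)
    (fun p hp hpM => ev_sq p hp (by rintro rfl; exact hpM h2M) D
      (fun hd => hpM ((Int.natCast_dvd.1 hd).trans hDM))) (dens D)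
    (avg_cc D hD hD1 hD2 M hM h2M hDM)
    (fun v x => cnt (D * (F.eval v) ^ 2) x) (fun v x y hxy => cnt_mono _ hxy)
    (M.primeFactors.card : ℝ) (fun v x => by
      have := cnt_pri M hM (D * (F.eval v) ^ 2) x
      simp only [ind_eq]
      exact this) A ε κ hε hκ
  refine ⟨C, X₀, hC, hX₀, fun X K c hX hc hcX E hE hbad => h X K c hX hc hcX E hE fun k hk => ?_⟩
  obtain ⟨x, hx1, hx2, hx3⟩ := hbad k hk
  exact ⟨x, hx1, hx2, not_le.1 hx3⟩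

/-- few values are squares up to the factor `D` -/
theorem few_sq_exp (a : ℤ) (ha : 2 ≤ |a|) (F : ℤ[X]) (z : ℂ) (hz : z ≠ 0) (h0 : aeval z F = 0)
    (h1 : aeval z (derivative F) ≠ 0) (D : ℤ) (hD0 : D ≠ 0) (A : ℕ) (κ : ℝ) (hκ : 0 < κ) :
    Few a A κ (fun v _ => ¬ IsSquare (D * F.eval v)) := by
  have hDn : D.natAbs ≠ 0 := Int.natAbs_ne_zero.2 hD0
  obtain ⟨M, hM, h2DM, hW⟩ := weil_ex F z hz h0 h1 (2 * D.natAbs) (mul_ne_zero two_ne_zero hDn)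
  have h2M : 2 ∣ M := (dvd_mul_right _ _).trans h2DM
  have hDM : D.natAbs ∣ M := (dvd_mul_left _ _).trans h2DM
  obtain ⟨C, X₀, hC, hX₀, h⟩ := one_exp a ha F F.natDegree M hM hW (qu D) (fun _ => 1 / 2)
    (fun p hp hpM => ev_qu p hp (by rintro rfl; exact hpM h2M) D
      (fun hd => hpM ((Int.natCast_dvd.1 hd).trans hDM))) (1 / 2) (avg_half M hM) A (1 / 4) κ (by norm_num) hκ
  obtain ⟨X1, hX14, hX1⟩ := small_ev (M.primeFactors.card : ℝ) (1 / 8) (by norm_num)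
  refine ⟨C, max X₀ X1, hC, hX₀.trans (le_max_left _ _), fun X K c hX hc hcX E hE hbad => ?_⟩
  rcases E.eq_empty_or_nonempty with hemp | ⟨k₀, hk₀⟩
  · rw [hemp, card_empty, Nat.cast_zero]
    have h2 : 0 ≤ Real.log X := Real.log_natCast_nonneg X
    positivity
  have hX9 : 9 ≤ X := by
    have := (le_max_left X₀ X1).trans hX
    omega
  have hXK : (X : ℝ) ^ (1 + κ) ≤ K := by
    obtain ⟨x, hx1, hx2, _⟩ := hbad k₀ hk₀
    refine le_trans (Real.rpow_le_rpow (Nat.cast_nonneg _) (by exact_mod_cast hx1) (by positivity)) hx2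
  refine h X K c ((le_max_left _ _).trans hX) hXK hc (hcX.trans ?_) E hE fun k hk => ?_
  · have := Real.sqrt_nonneg (X : ℝ)
    linarith
  obtain ⟨x, _, _, hsq⟩ := hbad k hk
  rw [not_not] at hsq
  have hX1' : X1 ≤ X := (le_max_right _ _).trans hX
  have hpos := (pi_lower' X (by omega)).1
  have h2 : ∑ p ∈ GP M X, qu D p (F.eval (c * a ^ k)) = ((GP M X).card : ℝ) := by
    have e : ∀ p ∈ GP M X, qu D p (F.eval (c * a ^ k)) = 1 := by
      intro p _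
      unfold qu
      rw [if_pos]
      exact hsq.map (Int.castRingHom (ZMod p))
    rw [sum_congr rfl e, sum_const, nsmul_eq_mul, mul_one]
  have h3 := hX1 X hX1'
  have h8 : 0 ≤ Real.log X := Real.log_natCast_nonneg X
  have h4 := GP_card_ge M hM X
  rw [h2]
  refine lt_of_lt_of_le ?_ (le_abs_self _)
  linarith

/-- the law with the squarefree part -/
theorem artin_exp_sf (a : ℤ) (ha : 2 ≤ |a|) (F : ℤ[X]) (z : ℂ) (hz : z ≠ 0) (h0 : aeval z F = 0)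
    (h1 : aeval z (derivative F) ≠ 0) (A : ℕ) (ε κ : ℝ) (hε : 0 < ε) (hκ : 0 < κ) :
    Few a A κ (fun v x => ∀ D s : ℤ, Squarefree D → F.eval v = D * s ^ 2 →
      |(cnt (F.eval v) x : ℝ) - (if D % 4 = 1 then dens D else artinC) * (Nat.primeCounting x : ℝ)| ≤
      ε * (Nat.primeCounting x : ℝ)) := by
  classical
  obtain ⟨C₁, X₁, hC₁, hX₁, J₁⟩ := artin_exp a ha F z hz h0 h1 A (ε / 2) κ (by positivity) hκ
  obtain ⟨K₁, hK₁⟩ := exists_nat_ge (2 / ε : ℝ)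
  have h2 : ∀ D : ℤ, ∃ (C : ℝ) (X₀ : ℕ), 0 < C ∧ 9 ≤ X₀ ∧ (D ≠ 0 → ∀ (X K : ℕ) (c : ℤ), X₀ ≤ X → c ≠ 0 →
      (c.natAbs.primeFactors.card : ℝ) ≤ Real.sqrt X → ∀ E : Finset ℕ, E ⊆ range K →
      (∀ k ∈ E, ∃ x : ℕ, X ≤ x ∧ (x : ℝ) ^ (1 + κ) ≤ K ∧ ¬ (¬ IsSquare (D * F.eval (c * a ^ k)))) →
      (E.card : ℝ) ≤ C * (K / (Real.log X) ^ A)) := by
    intro D
    by_cases hD : D = 0
    · exact ⟨1, 9, one_pos, le_rfl, fun h => absurd hD h⟩
    · obtain ⟨C, X₀, hC, hX₀, hJ⟩ := few_sq_exp a ha F z hz h0 h1 D hD A κ hκ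
      exact ⟨C, X₀, hC, hX₀, fun _ => hJ⟩
  choose C₂ X₂ hC₂ hX₂ J₂ using h2
  obtain ⟨R, hR⟩ : ∃ R : Finset ℤ, R = (Icc (-(K₁ : ℤ)) K₁).filter (fun D => D ≠ 0) := ⟨_, rfl⟩
  have hCR : 0 ≤ ∑ D ∈ R, C₂ D := sum_nonneg fun D _ => (hC₂ D).le
  refine ⟨C₁ + ∑ D ∈ R, C₂ D, X₁ + ∑ D ∈ R, X₂ D, by linarith, by omega, ?_⟩
  intro X K c hX hc hcX E hEK hbad
  obtain ⟨EE, hEE⟩ : ∃ EE : ℤ → Finset ℕ, EE = fun D => E.filter (fun k => IsSquare (D * F.eval (c * a ^ k))) :=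
    ⟨_, rfl⟩
  obtain ⟨E₁, hE₁⟩ : ∃ E₁ : Finset ℕ, E₁ = E.filter (fun k => ∃ x : ℕ, X ≤ x ∧ (x : ℝ) ^ (1 + κ) ≤ K ∧
    ε / 2 * (Nat.primeCounting x : ℝ) <
      |(cnt (F.eval (c * a ^ k)) x : ℝ) - artinC * (Nat.primeCounting x : ℝ)|) := ⟨_, rfl⟩
  have hcover : E ⊆ E₁ ∪ R.biUnion EE := by
    intro k hk
    obtain ⟨x, hx1, hx2, hx3⟩ := hbad k hk
    push Not at hx3
    obtain ⟨D, s, hDsf, hDs, hx3⟩ := hx3
    rw [mem_union]
    by_cases hsm : D.natAbs ≤ K₁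
    · right
      rw [mem_biUnion]
      refine ⟨D, ?_, ?_⟩
      · rw [hR, mem_filter, mem_Icc]
        exact ⟨by omega, hDsf.ne_zero⟩
      · rw [hEE, mem_filter]
        refine ⟨hk, D * s, ?_⟩
        rw [hDs]
        ring
    · left
      rw [hE₁, mem_filter]
      refine ⟨hk, x, hx1, hx2, ?_⟩
      have hclose : |(if D % 4 = 1 then dens D else artinC) - artinC| ≤ ε / 2 := by
        split_ifs with h4
        · refine (dens_close D hDsf h4).trans ?_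
          have h5 : (2 / ε : ℝ) ≤ (D.natAbs : ℝ) := by
            refine hK₁.trans ?_
            exact_mod_cast (by omega : K₁ ≤ D.natAbs)
          have h6 : (0 : ℝ) < 2 / ε := by positivity
          calc 1 / (D.natAbs : ℝ) ≤ 1 / (2 / ε) := one_div_le_one_div_of_le h6 h5
            _ = ε / 2 := by field_simp
        · rw [sub_self, abs_zero]
          positivity
      have h7 := abs_sub_le (cnt (F.eval (c * a ^ k)) x : ℝ) (artinC * (Nat.primeCounting x : ℝ))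
        ((if D % 4 = 1 then dens D else artinC) * (Nat.primeCounting x : ℝ))
      have h8 : |artinC * (Nat.primeCounting x : ℝ) -
          (if D % 4 = 1 then dens D else artinC) * (Nat.primeCounting x : ℝ)| ≤
          ε / 2 * (Nat.primeCounting x : ℝ) := by
        rw [abs_sub_comm, ← sub_mul, abs_mul, Nat.abs_cast]
        exact mul_le_mul_of_nonneg_right hclose (Nat.cast_nonneg _)
      linarith
  have h3 : (E.card : ℝ) ≤ (E₁.card : ℝ) + ∑ D ∈ R, ((EE D).card : ℝ) := by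
    have := (card_le_card hcover).trans ((card_union_le _ _).trans (add_le_add_right card_biUnion_le _))
    exact_mod_cast this
  have h4 : (E₁.card : ℝ) ≤ C₁ * (K / (Real.log X) ^ A) := by
    apply J₁ X K c (by omega) hc hcX E₁
    · rw [hE₁]
      exact (filter_subset _ _).trans hEK
    · intro k hk
      rw [hE₁, mem_filter] at hk
      obtain ⟨_, x, hx1, hx2, hx3⟩ := hk
      exact ⟨x, hx1, hx2, not_le.2 hx3⟩
  have h5 : ∑ D ∈ R, ((EE D).card : ℝ) ≤ ∑ D ∈ R, C₂ D * (K / (Real.log X) ^ A) := by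
    apply sum_le_sum
    intro D hD
    have hD0 : D ≠ 0 := by
      rw [hR, mem_filter] at hD
      exact hD.2
    have hXD : X₂ D ≤ X := by
      have := single_le_sum (f := X₂) (fun _ _ => Nat.zero_le _) hD
      omega
    apply J₂ D hD0 X K c hXD hc hcX (EE D)
    · rw [hEE]
      exact (filter_subset _ _).trans hEK
    · intro k hk
      rw [hEE, mem_filter] at hk
      obtain ⟨x, hx1, hx2, _⟩ := hbad k hk.1
      exact ⟨x, hx1, hx2, not_not.2 hk.2⟩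
  rw [← sum_mul] at h5
  rw [add_mul]
  linarith

end Pool.Agent.KS6_33.EX
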