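import Pool.Agent.KS6_33.EX.XF

/-! # Prime exponents -/

set_option autoImplicit false

namespace Pool.Agent.KS6_33.EX

open Finset Filter Topology Pool.Agent.R459.Eq

/-- an exceptional set with a saving of any power of the logarithm is negligible among the primes -/
lemma primes_of_few (a : ℤ) (κ : ℝ) (hκ : 0 < κ) (Q : ℤ → ℕ → Prop)
    (h : ∀ A : ℕ, Few a A κ Q) (c : ℤ) (hc : c ≠ 0) (b : ℕ → ℕ)
    (hb : ∀ K : ℕ, ∃ E : Finset ℕ, b K = E.card ∧ E ⊆ range K ∧ ∀ k ∈ E,
      ∃ x : ℕ, Real.exp ((Real.log K) ^ κ) ≤ x ∧ (x : ℝ) ^ (1 + κ) ≤ K ∧ ¬ Q (c * a ^ k) x) :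
    Tendsto (fun K : ℕ => (b K : ℝ) / Nat.primeCounting K) atTop (𝓝 0) := by
  obtain ⟨A, hA⟩ := exists_nat_ge (2 / κ)
  obtain ⟨C, X₀, hC, hX₀, h1⟩ := h A
  -- the bound
  have hbound : ∀ᶠ K : ℕ in atTop, (b K : ℝ) / Nat.primeCounting K ≤ 4 * C * (1 / Real.log K) := by
    have hlog : Tendsto (fun K : ℕ => (Real.log K) ^ κ) atTop atTop :=
      (tendsto_rpow_atTop hκ).comp log_atTop
    have hexp : Tendsto (fun K : ℕ => Real.exp ((Real.log K) ^ κ)) atTop atTop :=
      Real.tendsto_exp_atTop.comp hlog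
    filter_upwards [hexp.eventually_ge_atTop (X₀ : ℝ),
      hexp.eventually_ge_atTop (((c.natAbs.primeFactors.card : ℕ) : ℝ) ^ 2),
      log_atTop.eventually_ge_atTop (1 : ℝ), eventually_ge_atTop 4] with K hK1 hK2 hK3 hK4
    obtain ⟨E, hE1, hE2, hE3⟩ := hb K
    obtain ⟨X, hX⟩ : ∃ X : ℕ, X = ⌈Real.exp ((Real.log K) ^ κ)⌉₊ := ⟨_, rfl⟩
    have hXge : Real.exp ((Real.log K) ^ κ) ≤ X := by rw [hX]; exact Nat.le_ceil _
    have hXX : X₀ ≤ X := by
      have : (X₀ : ℝ) ≤ X := hK1.trans hXge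
      exact_mod_cast this
    have hcX : (c.natAbs.primeFactors.card : ℝ) ≤ Real.sqrt X :=
      Real.le_sqrt_of_sq_le (hK2.trans hXge)
    have h2 := h1 X K c hXX hc hcX E hE2 (by
      intro k hk
      obtain ⟨x, hx1, hx2, hx3⟩ := hE3 k hk
      refine ⟨x, ?_, hx2, hx3⟩
      rw [hX]
      exact Nat.ceil_le.2 hx1)
    obtain ⟨hpi, _, hpi2⟩ := pi_lower' K hK4
    have hL0 : 0 < Real.log K := by linarith
    have hK0 : (0 : ℝ) < K := by exact_mod_cast (by omega : 0 < K)
    have hlX : (Real.log K) ^ κ ≤ Real.log X := by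
      rw [Real.le_log_iff_exp_le (lt_of_lt_of_le (Real.exp_pos _) hXge)]
      exact hXge
    have hlXA : (Real.log K) ^ 2 ≤ (Real.log X) ^ A := by
      calc (Real.log K) ^ 2 = (Real.log K) ^ ((2 : ℕ) : ℝ) := (Real.rpow_natCast _ _).symm
        _ ≤ (Real.log K) ^ (κ * A) := by
            apply Real.rpow_le_rpow_of_exponent_le hK3
            rw [div_le_iff₀ hκ] at hA
            push_cast
            linarith
        _ = ((Real.log K) ^ κ) ^ A := by rw [Real.rpow_mul hL0.le, Real.rpow_natCast]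
        _ ≤ _ := pow_le_pow_left₀ (by positivity) hlX A
    have h3 : (b K : ℝ) ≤ C * (K / (Real.log K) ^ 2) := by
      rw [hE1]
      refine h2.trans ?_
      apply mul_le_mul_of_nonneg_left _ hC.le
      exact div_le_div_of_nonneg_left hK0.le (by positivity) hlXA
    calc (b K : ℝ) / Nat.primeCounting K = (b K : ℝ) * (1 / Nat.primeCounting K) := by ring
      _ ≤ (C * (K / (Real.log K) ^ 2)) * (4 * Real.log K / K) :=
          mul_le_mul h3 hpi2 (by positivity) (by positivity)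
      _ = _ := by field_simp
  have hlim : Tendsto (fun K : ℕ => 4 * C * (1 / Real.log K)) atTop (𝓝 0) := by
    have h2 : Tendsto (fun K : ℕ => 1 / Real.log K) atTop (𝓝 0) := by
      simp only [one_div]
      exact tendsto_inv_atTop_zero.comp log_atTop
    have := h2.const_mul (4 * C)
    rwa [mul_zero] at this
  exact squeeze_zero' (Eventually.of_forall fun K => by positivity) hbound hlim

end Pool.Agent.KS6_33.EX
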