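import Pool.Agent.KS6_33.EX.XG

/-! # The two kinds of families together -/

set_option autoImplicit false

namespace Pool.Agent.KS6_33.EX

open Finset Filter Topology Pool.Agent.R459.Eq Pool.Agent.H730R2.AA Pool.Agent.R318.PR
open Pool.Agent.H386R2.Artin (artinC)

lemma sf_unique (D D' t s : ℤ) (hD : Squarefree D) (hD' : Squarefree D') (ht : t ≠ 0)
    (h : D * t ^ 2 = D' * s ^ 2) : D = D' := by
  have hg : 0 < Int.gcd t s := Int.gcd_pos_of_ne_zero_left _ ht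
  obtain ⟨t', s', hc, h1, h2⟩ := Int.exists_gcd_one hg
  obtain ⟨g, hgd⟩ : ∃ g : ℤ, g = (Int.gcd t s : ℤ) := ⟨_, rfl⟩
  rw [← hgd] at h1 h2
  have hg0 : g ≠ 0 := by
    rw [hgd]
    exact_mod_cast hg.ne'
  have h3 : D * t' ^ 2 = D' * s' ^ 2 := by
    have h4 : (D * t' ^ 2) * g ^ 2 = (D' * s' ^ 2) * g ^ 2 := by
      rw [h1, h2] at h
      calc (D * t' ^ 2) * g ^ 2 = D * (t' * g) ^ 2 := by ring
        _ = D' * (s' * g) ^ 2 := h
        _ = _ := by ring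
    exact mul_right_cancel₀ (pow_ne_zero 2 hg0) h4
  have hcop : IsCoprime (t' ^ 2) (s' ^ 2) := (Int.isCoprime_iff_gcd_eq_one.2 hc).pow
  have h4 : t' ^ 2 ∣ D' := hcop.dvd_of_dvd_mul_right (Dvd.intro_left D h3)
  have h5 : s' ^ 2 ∣ D := hcop.symm.dvd_of_dvd_mul_right (Dvd.intro_left D' h3.symm)
  have h6 : IsUnit t' := hD' t' (by rw [← sq]; exact h4)
  have h7 : IsUnit s' := hD s' (by rw [← sq]; exact h5)
  have h8 : t' ^ 2 = 1 := by rcases Int.isUnit_iff.1 h6 with h | h <;> rw [h] <;> norm_num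
  have h9 : s' ^ 2 = 1 := by rcases Int.isUnit_iff.1 h7 with h | h <;> rw [h] <;> norm_num
  rw [h8, h9, mul_one, mul_one] at h3
  exact h3

/-- the law with the squarefree part -/
def Law (ε : ℝ) (n : ℤ) (x : ℕ) : Prop := ∀ D s : ℤ, Squarefree D → n = D * s ^ 2 →
  |(cnt n x : ℝ) - (if D % 4 = 1 then dens D else artinC) * (Nat.primeCounting x : ℝ)| ≤
      ε * (Nat.primeCounting x : ℝ)

lemma few_or (a : ℤ) (A : ℕ) (κ : ℝ) (Q₁ Q₂ Q : ℤ → ℕ → Prop) (h₁ : Few a A κ Q₁) (h₂ : Few a A κ Q₂)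
    (h : ∀ v x, Q₁ v x → Q₂ v x → Q v x) : Few a A κ Q := by
  classical
  obtain ⟨C₁, X₁, hC₁, hX₁, J₁⟩ := h₁
  obtain ⟨C₂, X₂, hC₂, hX₂, J₂⟩ := h₂
  refine ⟨C₁ + C₂, X₁ + X₂, by linarith, by omega, fun X K c hX hc hcX E hE hbad => ?_⟩
  obtain ⟨E₁, hE₁⟩ : ∃ E₁ : Finset ℕ, E₁ = E.filter (fun k => ∃ x : ℕ, X ≤ x ∧ (x : ℝ) ^ (1 + κ) ≤ K ∧
    ¬ Q₁ (c * a ^ k) x) := ⟨_, rfl⟩
  obtain ⟨E₂, hE₂⟩ : ∃ E₂ : Finset ℕ, E₂ = E.filter (fun k => ∃ x : ℕ, X ≤ x ∧ (x : ℝ) ^ (1 + κ) ≤ K ∧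
    ¬ Q₂ (c * a ^ k) x) := ⟨_, rfl⟩
  have hcover : E ⊆ E₁ ∪ E₂ := by
    intro k hk
    obtain ⟨x, hx1, hx2, hx3⟩ := hbad k hk
    rw [mem_union, hE₁, hE₂, mem_filter, mem_filter]
    by_cases h1 : Q₁ (c * a ^ k) x
    · right
      exact ⟨hk, x, hx1, hx2, fun h2 => hx3 (h _ _ h1 h2)⟩
    · left
      exact ⟨hk, x, hx1, hx2, h1⟩
  have h3 : (E.card : ℝ) ≤ (E₁.card : ℝ) + E₂.card := by
    exact_mod_cast (card_le_card hcover).trans (card_union_le _ _)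
  have h4 := J₁ X K c (by omega) hc hcX E₁ (by rw [hE₁]; exact (filter_subset _ _).trans hE)
    (fun k hk => by rw [hE₁, mem_filter] at hk; exact hk.2)
  have h5 := J₂ X K c (by omega) hc hcX E₂ (by rw [hE₂]; exact (filter_subset _ _).trans hE)
    (fun k hk => by rw [hE₂, mem_filter] at hk; exact hk.2)
  rw [add_mul]
  linarith

/-- **Main theorem** for `H = F` and `H = D F ^ 2`. -/
theorem main_exp (a : ℤ) (ha : 2 ≤ |a|) (F : Polynomial ℤ) (z : ℂ) (hz : z ≠ 0) (h0 : Polynomial.aeval z F = 0)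
    (h1 : Polynomial.aeval z (Polynomial.derivative F) ≠ 0) (H : Polynomial ℤ)
    (hH : H = F ∨ ∃ D : ℤ, Squarefree D ∧ D % 4 = 1 ∧ D ≠ 1 ∧ H = Polynomial.C D * F ^ 2)
    (A : ℕ) (ε κ : ℝ) (hε : 0 < ε) (hκ : 0 < κ) :
    Few a A κ (fun v x => Law ε (H.eval v) x) := by
  rcases hH with rfl | ⟨D, hD, hD1, hD2, rfl⟩
  · exact artin_exp_sf a ha H z hz h0 h1 A ε κ hε hκ
  · refine few_or a A κ _ _ _ (artin_exp_sq a ha F z hz h0 h1 D hD hD1 hD2 A ε κ hε hκ)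
      (few_sq_exp a ha F z hz h0 h1 1 one_ne_zero A κ hκ) ?_
    intro v x h2 h3
    intro D' s hD' hs
    have hev : (Polynomial.C D * F ^ 2).eval v = D * (F.eval v) ^ 2 := by simp
    rw [hev] at hs ⊢
    have hne : F.eval v ≠ 0 := by
      intro h4
      apply h3
      rw [h4, mul_zero]
      exact ⟨0, rfl⟩
    have hDD := sf_unique D D' (F.eval v) s hD hD' hne hs
    rw [← hDD, if_pos hD1]
    exact h2

end Pool.Agent.KS6_33.EX
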